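import Mathlib

/-!
# Relations between the elements of finite Galois-stable sets

`R i` are finite subsets of a field, stable under `x ↦ q / x` and under a group of automorphisms. If the
group is transitive on every `R i`, contains for every `i` and `y ∈ R i` an element which acts on `R i` by
exchanging `y` and `q / y` only, and if the sets `R i` have different kernels, then the only odd
multiplicative relation is the trivial one.
-/

namespace Pool.Agent.MP_4960c7.AR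

variable {K : Type} [Field K] {ι : Type} [Fintype ι]

/-- an odd relation between the elements of the sets `R i` -/
structure IsRel (q : K) (R : ι → Finset K) (n : ι → K → ℤ) : Prop where
  odd : ∀ i, ∀ x ∈ R i, n i (q / x) = - n i x
  prod : ∏ i, ∏ x ∈ R i, x ^ n i x = 1

open scoped Classical in
/-- the blocks which occur in a relation -/
noncomputable def relSupp (R : ι → Finset K) (n : ι → K → ℤ) : Finset ι :=
  Finset.univ.filter fun i => ∃ x ∈ R i, n i x ≠ 0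

omit [Field K] in
theorem mem_relSupp {R : ι → Finset K} {n : ι → K → ℤ} {i : ι} : i ∈ relSupp R n ↔ ∃ x ∈ R i, n i x ≠ 0 := by
  simp [relSupp]

variable {q : K} {R : ι → Finset K}

theorem IsRel.sub (h0 : ∀ i, ∀ x ∈ R i, x ≠ 0) {n m : ι → K → ℤ} (hn : IsRel q R n) (hm : IsRel q R m) :
    IsRel q R (fun i x => n i x - m i x) := by
  refine ⟨fun i x hx => ?_, ?_⟩
  · show n i (q / x) - m i (q / x) = -(n i x - m i x)
    rw [hn.odd i x hx, hm.odd i x hx]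
    ring
  · have h1 : ∏ i, ∏ x ∈ R i, x ^ (n i x - m i x) = (∏ i, ∏ x ∈ R i, x ^ n i x) / ∏ i, ∏ x ∈ R i, x ^ m i x := by
      rw [← Finset.prod_div_distrib]
      refine Finset.prod_congr rfl fun i _ => ?_
      rw [← Finset.prod_div_distrib]
      exact Finset.prod_congr rfl fun x hx => zpow_sub₀ (h0 i x hx) _ _
    show ∏ i, ∏ x ∈ R i, x ^ (n i x - m i x) = 1
    rw [h1, hn.prod, hm.prod, div_one]

theorem IsRel.move (σ : K ≃+* K) (hσq : σ q = q) (hσ : ∀ i, ∀ x, σ x ∈ R i ↔ x ∈ R i) {n : ι → K → ℤ}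
    (hn : IsRel q R n) : IsRel q R (fun i x => n i (σ.symm x)) := by
  refine ⟨fun i x hx => ?_, ?_⟩
  · show n i (σ.symm (q / x)) = - n i (σ.symm x)
    have h1 : σ.symm (q / x) = q / σ.symm x := by
      rw [map_div₀]
      congr 1
      rw [RingEquiv.symm_apply_eq, hσq]
    have h2 : σ.symm x ∈ R i := by
      rw [← hσ i, RingEquiv.apply_symm_apply]
      exact hx
    rw [h1, hn.odd i _ h2]
  · have h1 : ∀ i, ∏ x ∈ R i, x ^ n i (σ.symm x) = σ (∏ x ∈ R i, x ^ n i x) := by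
      intro i
      rw [map_prod]
      refine Finset.prod_nbij' (fun x => σ.symm x) (fun x => σ x) ?_ ?_ ?_ ?_ ?_
      · intro x hx
        show σ.symm x ∈ R i
        rw [← hσ i, RingEquiv.apply_symm_apply]
        exact hx
      · intro x hx
        exact (hσ i x).2 hx
      · intro x _
        exact RingEquiv.apply_symm_apply σ x
      · intro x _
        exact RingEquiv.symm_apply_apply σ x
      · intro x _
        rw [map_zpow₀, RingEquiv.apply_symm_apply]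
    show ∏ i, ∏ x ∈ R i, x ^ n i (σ.symm x) = 1
    rw [Finset.prod_congr rfl fun i _ => h1 i, ← map_prod, hn.prod, map_one]

theorem relSupp_move (σ : K ≃+* K) (hσ : ∀ i, ∀ x, σ x ∈ R i ↔ x ∈ R i) (n : ι → K → ℤ) :
    relSupp R (fun i x => n i (σ.symm x)) = relSupp R n := by
  ext i
  rw [mem_relSupp, mem_relSupp]
  constructor
  · rintro ⟨x, hx, h⟩
    refine ⟨σ.symm x, ?_, h⟩
    rw [← hσ i, RingEquiv.apply_symm_apply]
    exact hx
  · rintro ⟨x, hx, h⟩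
    refine ⟨σ x, (hσ i x).2 hx, ?_⟩
    show n i (σ.symm (σ x)) ≠ 0
    rw [RingEquiv.symm_apply_apply]
    exact h

/-- the abstract independence theorem -/
theorem rel_trivial (Γ : Set (K ≃+* K)) (hq : q ≠ 0) (h0 : ∀ i, ∀ x ∈ R i, x ≠ 0)
    (hinv : ∀ i, ∀ x ∈ R i, q / x ∈ R i)
    (hne : ∀ i, ∀ x ∈ R i, q / x ≠ x)
    (hΓq : ∀ σ ∈ Γ, σ q = q) (hΓ : ∀ σ ∈ Γ, ∀ i, ∀ x, σ x ∈ R i ↔ x ∈ R i)
    (htrans : ∀ i, ∀ y ∈ R i, ∀ z ∈ R i, ∃ τ ∈ Γ, τ y = z)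
    (hflip : ∀ i, ∀ y ∈ R i, ∃ ε ∈ Γ, ε y = q / y ∧ ∀ z ∈ R i, z ≠ y → z ≠ q / y → ε z = z)
    (hroot : ∀ i, ∀ y ∈ R i, ∀ m : ℕ, 0 < m → (y / (q / y)) ^ m ≠ 1)
    (hdist : ∀ i j, i ≠ j → ∃ σ ∈ Γ, ((∀ x ∈ R i, σ x = x) ∧ ∃ y ∈ R j, σ y ≠ y) ∨
      ((∀ x ∈ R j, σ x = x) ∧ ∃ y ∈ R i, σ y ≠ y))
    (n : ι → K → ℤ) (hn : IsRel q R n) (i : ι) (x : K) (hx : x ∈ R i) : n i x = 0 := by
  classical
  by_contra hcon
  -- a relation with minimal support
  have hex : ∃ s : ℕ, ∃ n : ι → K → ℤ, IsRel q R n ∧ (relSupp R n).Nonempty ∧ (relSupp R n).card = s :=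
    ⟨_, n, hn, ⟨i, mem_relSupp.2 ⟨x, hx, hcon⟩⟩, rfl⟩
  obtain ⟨n₀, hn₀, hS0, hcard⟩ := Nat.find_spec hex
  have hmin : ∀ m : ι → K → ℤ, IsRel q R m → (relSupp R m).card < (relSupp R n₀).card → relSupp R m = ∅ := by
    intro m hm hlt
    by_contra hne'
    refine Nat.find_min hex (m := (relSupp R m).card) (by rw [← hcard]; exact hlt) ⟨m, hm, ?_, rfl⟩
    exact Finset.nonempty_iff_ne_empty.2 hne'
  set S := relSupp R n₀ with hS
  have hzero : ∀ m : ι → K → ℤ, IsRel q R m → relSupp R m ⊆ S → ∀ i₀ ∈ S, (∀ x ∈ R i₀, m i₀ x = 0) →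
      ∀ i, ∀ x ∈ R i, m i x = 0 := by
    intro m hm hsub i₀ hi₀ hz i x hx
    have h1 : relSupp R m ⊂ S := by
      refine Finset.ssubset_iff_subset_ne.2 ⟨hsub, fun h => ?_⟩
      rw [← h, mem_relSupp] at hi₀
      obtain ⟨y, hy, hy'⟩ := hi₀
      exact hy' (hz y hy)
    have h2 := hmin m hm (Finset.card_lt_card h1)
    by_contra h3
    have h4 : i ∈ relSupp R m := mem_relSupp.2 ⟨x, hx, h3⟩
    rw [h2] at h4
    exact absurd h4 (Finset.notMem_empty i)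
  -- differences of a relation and a conjugate
  have hsubS : ∀ m : ι → K → ℤ, relSupp R m ⊆ S → ∀ σ ∈ Γ, relSupp R (fun i x => m i x - m i (σ.symm x)) ⊆ S := by
    intro m hm σ hσ i hi
    obtain ⟨x, hx, h⟩ := mem_relSupp.1 hi
    by_cases h1 : m i x = 0
    · have h2 : m i (σ.symm x) ≠ 0 := by
        intro h3
        apply h
        show m i x - m i (σ.symm x) = 0
        rw [h1, h3, sub_zero]
      apply hm
      rw [← relSupp_move σ (hΓ σ hσ) m]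
      exact mem_relSupp.2 ⟨x, hx, h2⟩
    · exact hm (mem_relSupp.2 ⟨x, hx, h1⟩)
  have hfix : ∀ m : ι → K → ℤ, IsRel q R m → relSupp R m ⊆ S → ∀ i₀ ∈ S, ∀ σ ∈ Γ, (∀ x ∈ R i₀, σ x = x) →
      ∀ i, ∀ x ∈ R i, m i (σ.symm x) = m i x := by
    intro m hm hsub i₀ hi₀ σ hσ hσ' i x hx
    have h1 := hzero (fun i x => m i x - m i (σ.symm x)) (hm.sub h0 (hm.move σ (hΓq σ hσ) (hΓ σ hσ)))
      (hsubS m hsub σ hσ) i₀ hi₀ (fun y hy => by
        show m i₀ y - m i₀ (σ.symm y) = 0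
        have h2 : σ.symm y = y := by rw [RingEquiv.symm_apply_eq, hσ' y hy]
        rw [h2, sub_self]) i x hx
    have h3 : m i x - m i (σ.symm x) = 0 := h1
    omega
  -- the flip argument
  have hflipS : ∀ i₁ ∈ S, ∀ z ∈ R i₁, ∃ m : ι → K → ℤ, IsRel q R m ∧ relSupp R m ⊆ S ∧ m i₁ z ≠ 0 ∧
      ∀ x ∈ R i₁, x ≠ z → x ≠ q / z → m i₁ x = 0 := by
    intro i₁ hi₁ z hz
    obtain ⟨y, hy, hy'⟩ := mem_relSupp.1 hi₁
    obtain ⟨τ, hτ, hτy⟩ := htrans i₁ y hy z hz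
    obtain ⟨ε, hε, hεz, hε'⟩ := hflip i₁ z hz
    have hr1 : IsRel q R (fun i x => n₀ i (τ.symm x)) := hn₀.move τ (hΓq τ hτ) (hΓ τ hτ)
    have hs1 : relSupp R (fun i x => n₀ i (τ.symm x)) ⊆ S := by
      rw [relSupp_move τ (hΓ τ hτ)]
    have hz1 : τ.symm z = y := by rw [RingEquiv.symm_apply_eq, hτy]
    have hεz' : ε.symm z = q / z := by
      rw [RingEquiv.symm_apply_eq, map_div₀, hΓq ε hε, hεz]
      have h1 := h0 i₁ z hz
      field_simp
    refine ⟨fun i x => n₀ i (τ.symm x) - n₀ i (τ.symm (ε.symm x)),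
      hr1.sub h0 (hr1.move ε (hΓq ε hε) (hΓ ε hε)), hsubS _ hs1 ε hε, ?_, ?_⟩
    · show n₀ i₁ (τ.symm z) - n₀ i₁ (τ.symm (ε.symm z)) ≠ 0
      rw [hεz']
      have h1 : n₀ i₁ (τ.symm (q / z)) = - n₀ i₁ (τ.symm z) := hr1.odd i₁ z hz
      rw [h1, hz1]
      omega
    · intro x hx h1 h2
      show n₀ i₁ (τ.symm x) - n₀ i₁ (τ.symm (ε.symm x)) = 0
      have h3 : ε.symm x = x := by rw [RingEquiv.symm_apply_eq, hε' x hx h1 h2]
      rw [h3, sub_self]
  -- the kernels are contained in each other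
  have hker : ∀ i₀ ∈ S, ∀ i₁ ∈ S, ∀ σ ∈ Γ, (∀ x ∈ R i₀, σ x = x) → ∀ z ∈ R i₁, σ z = z := by
    intro i₀ hi₀ i₁ hi₁ σ hσ hσ' z hz
    obtain ⟨m, hm, hms, hmz, hm0⟩ := hflipS i₁ hi₁ z hz
    have h1 := hfix m hm hms i₀ hi₀ σ hσ hσ' i₁ z hz
    have hzR : σ.symm z ∈ R i₁ := by
      rw [← hΓ σ hσ i₁, RingEquiv.apply_symm_apply]
      exact hz
    by_cases h2 : σ.symm z = z
    · rw [RingEquiv.symm_apply_eq] at h2
      exact h2.symm
    · by_cases h3 : σ.symm z = q / z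
      · exfalso
        rw [h3, hm.odd i₁ z hz] at h1
        omega
      · exfalso
        rw [hm0 _ hzR h2 h3] at h1
        exact hmz h1.symm
  -- only one block
  have hone : ∀ i₀ ∈ S, ∀ i₁ ∈ S, i₀ = i₁ := by
    intro i₀ hi₀ i₁ hi₁
    by_contra hne'
    obtain ⟨σ, hσ, h | h⟩ := hdist i₀ i₁ hne'
    · obtain ⟨h1, y, hy, hy'⟩ := h
      exact hy' (hker i₀ hi₀ i₁ hi₁ σ hσ h1 y hy)
    · obtain ⟨h1, y, hy, hy'⟩ := h
      exact hy' (hker i₁ hi₁ i₀ hi₀ σ hσ h1 y hy)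
  obtain ⟨i₀, hi₀⟩ := hS0
  obtain ⟨z, hz, hz'⟩ := mem_relSupp.1 hi₀
  obtain ⟨m, hm, hms, hmz, hm0⟩ := hflipS i₀ hi₀ z hz
  have hblock : ∀ i, i ≠ i₀ → ∏ x ∈ R i, x ^ m i x = 1 := by
    intro i hi
    refine Finset.prod_eq_one fun x hx => ?_
    have h1 : m i x = 0 := by
      by_contra h2
      exact hi (hone i (hms (mem_relSupp.2 ⟨x, hx, h2⟩)) i₀ hi₀)
    rw [h1, zpow_zero]
  have hprod := hm.prod
  rw [Finset.prod_eq_single i₀ (fun i _ hi => hblock i hi) (fun h => absurd (Finset.mem_univ i₀) h)] at hprod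
  have hz0 := h0 i₀ z hz
  have hqz : q / z ∈ R i₀ := hinv i₀ z hz
  have hqz0 := h0 i₀ _ hqz
  have h2 : ∏ x ∈ R i₀, x ^ m i₀ x = z ^ m i₀ z * (q / z) ^ m i₀ (q / z) := by
    rw [← Finset.mul_prod_erase _ _ hz,
      ← Finset.mul_prod_erase _ _ (Finset.mem_erase.2 ⟨hne i₀ z hz, hqz⟩), Finset.prod_eq_one, mul_one]
    intro x hx
    rw [Finset.mem_erase, Finset.mem_erase] at hx
    rw [hm0 x hx.2.2 hx.2.1 hx.1, zpow_zero]
  rw [h2, hm.odd i₀ z hz, zpow_neg, ← div_eq_mul_inv, ← div_zpow] at hprod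
  rcases Int.natAbs_eq (m i₀ z) with h | h
  · rw [h, zpow_natCast] at hprod
    exact hroot i₀ z hz _ (Int.natAbs_pos.2 hmz) hprod
  · rw [h, zpow_neg, zpow_natCast, inv_eq_one] at hprod
    exact hroot i₀ z hz _ (Int.natAbs_pos.2 hmz) hprod

end Pool.Agent.MP_4960c7.AR
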