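import Mathlib

/-!
# Counting in a product of finite sets
-/

namespace Pool.Agent.MP_4960c7.AR

variable {k : ℕ} {X : Fin k → Type} [∀ l, DecidableEq (X l)]

theorem cnt_one (A : ∀ l, Finset (X l)) (i : Fin k) (E : Finset (X i)) :
    ((Fintype.piFinset A).filter fun b => b i ∈ E).card ≤ (∏ l ∈ Finset.univ.erase i, (A l).card) * E.card := by
  classical
  refine Finset.card_le_mul_card_image_of_maps_to (f := fun b => b i) (t := E) ?_ _ ?_
  · intro b hb
    exact (Finset.mem_filter.1 hb).2
  · intro y _
    have hsub : (((Fintype.piFinset A).filter fun b => b i ∈ E).filter fun b => b i = y) ⊆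
        Fintype.piFinset (Function.update A i {y}) := by
      intro b hb
      rw [Finset.mem_filter, Finset.mem_filter, Fintype.mem_piFinset] at hb
      rw [Fintype.mem_piFinset]
      intro l
      by_cases h : l = i
      · subst h
        rw [Function.update_self, Finset.mem_singleton]
        exact hb.2
      · rw [Function.update_of_ne h]
        exact hb.1.1 l
    refine (Finset.card_le_card hsub).trans ?_
    rw [Fintype.card_piFinset, ← Finset.mul_prod_erase _ _ (Finset.mem_univ i), Function.update_self,
      Finset.card_singleton, one_mul]
    refine (Finset.prod_congr rfl fun l hl => ?_).le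
    rw [Function.update_of_ne (Finset.ne_of_mem_erase hl)]

theorem cnt_two (A : ∀ l, Finset (X l)) (i j : Fin k) (hij : i ≠ j) (P : Finset (X i × X j)) :
    ((Fintype.piFinset A).filter fun b => (b i, b j) ∈ P).card ≤
      (∏ l ∈ (Finset.univ.erase i).erase j, (A l).card) * P.card := by
  classical
  refine Finset.card_le_mul_card_image_of_maps_to (f := fun b => (b i, b j)) (t := P) ?_ _ ?_
  · intro b hb
    exact (Finset.mem_filter.1 hb).2
  · rintro ⟨y, z⟩ _
    have hsub : (((Fintype.piFinset A).filter fun b => (b i, b j) ∈ P).filter fun b => (b i, b j) = (y, z)) ⊆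
        Fintype.piFinset (Function.update (Function.update A i {y}) j {z}) := by
      intro b hb
      rw [Finset.mem_filter, Finset.mem_filter, Fintype.mem_piFinset, Prod.mk.injEq] at hb
      rw [Fintype.mem_piFinset]
      intro l
      by_cases h : l = j
      · subst h
        rw [Function.update_self, Finset.mem_singleton]
        exact hb.2.2
      · rw [Function.update_of_ne h]
        by_cases h' : l = i
        · subst h'
          rw [Function.update_self, Finset.mem_singleton]
          exact hb.2.1
        · rw [Function.update_of_ne h']
          exact hb.1.1 l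
    refine (Finset.card_le_card hsub).trans ?_
    have hj : j ∈ Finset.univ.erase i := Finset.mem_erase.2 ⟨hij.symm, Finset.mem_univ j⟩
    rw [Fintype.card_piFinset, ← Finset.mul_prod_erase _ _ (Finset.mem_univ i),
      ← Finset.mul_prod_erase _ _ hj, Function.update_self, Finset.card_singleton, one_mul,
      Function.update_of_ne hij, Function.update_self, Finset.card_singleton, one_mul]
    refine (Finset.prod_congr rfl fun l hl => ?_).le
    obtain ⟨h1, h2⟩ := Finset.mem_erase.1 hl
    rw [Function.update_of_ne h1, Function.update_of_ne (Finset.ne_of_mem_erase h2)]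

end Pool.Agent.MP_4960c7.AR
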