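import Pool.Agent.Lib.MP_4960c7_ag.AR.TDefs

/-!
# The splitting field of a Weil polynomial; generic polynomials
-/

namespace Pool.Agent.MP_4960c7.AR

open Polynomial

/-- The splitting field (in `ℂ`) of the Weil polynomial `X^g * pol b (X + q / X)`: it is generated by
the Frobenius eigenvalues, i.e. by the `x ≠ 0` such that `x + q / x` is a root of `pol b`. -/
noncomputable def weilField (q : ℕ) {g : ℕ} (b : Fin g → ℤ) : IntermediateField ℚ ℂ :=
  IntermediateField.adjoin ℚ {x : ℂ | x ≠ 0 ∧ aeval (x + q / x) (pol b) = 0}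

/-- `pol b` is irreducible, `q ^ g` does not divide the square of its constant coefficient, and there
is an odd prime `ℓ`, not dividing `q`, modulo which `pol b` is good. -/
def Generic (q : ℕ) {g : ℕ} (b : Fin g → ℤ) : Prop :=
  Irreducible (pol b) ∧ (∀ hg : 0 < g, ¬ (q : ℤ) ^ g ∣ b ⟨0, hg⟩ ^ 2) ∧
    ∃ ℓ : ℕ, ℓ.Prime ∧ ℓ ≠ 2 ∧ ¬ ℓ ∣ q ∧ Good q ℓ (fun i => (b i : ZMod ℓ))

end Pool.Agent.MP_4960c7.AR
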