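import Pool.Agent.Lib.MP_4960c7_ag.AR.Defs

/-!
# ARK-Int: if some w_j^2/q is a root of unity then q^g divides b_0^2
-/

namespace Pool.Agent.MP_4960c7.AR

open Polynomial

private theorem Int_monic {g : ℕ} (b : Fin g → ℤ) : (pol b).Monic :=
  monic_X_pow_add (degree_sum_fin_lt b)

private theorem Int_eval {g : ℕ} (hg : 0 < g) (b : Fin g → ℤ) : (pol b).eval 0 = b ⟨0, hg⟩ := by
  unfold pol
  rw [eval_add, eval_pow, eval_X, zero_pow hg.ne', zero_add, eval_finsetSum, Finset.sum_eq_single ⟨0, hg⟩]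
  · simp
  · intro i _ hi
    have h0 : (i : ℕ) ≠ 0 := fun h => hi (Fin.ext h)
    simp [h0]
  · intro h
    exact absurd (Finset.mem_univ _) h

theorem dvd_of_root_of_unity {g q : ℕ} (hg : 0 < g) (hq0 : 0 < q) (b : Fin g → ℤ)
    (hirr : Irreducible (pol b)) (w : Fin g → ℂ) (hw : ∀ j, w j ≠ 0)
    (hb : (pol b).map (Int.castRingHom ℂ) = ∏ j, (X - C (w j + q / w j)))
    (j : Fin g) (m : ℕ) (hm : 0 < m) (hu : (w j ^ 2 / q) ^ m = 1) :
    (q : ℤ) ^ g ∣ b ⟨0, hg⟩ ^ 2 := by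
  have hq : (q : ℂ) ≠ 0 := by exact_mod_cast hq0.ne'
  have hmon := Int_monic b
  have hPQm : ((pol b).map (Int.castRingHom ℚ)).Monic := hmon.map _
  have hPQi : Irreducible ((pol b).map (Int.castRingHom ℚ)) :=
    (Polynomial.Monic.irreducible_iff_irreducible_map_fraction_map (K := ℚ) hmon).1 hirr
  have hcomp : (algebraMap ℚ ℂ).comp (Int.castRingHom ℚ) = Int.castRingHom ℂ := RingHom.ext_int _ _
  have hroot : ∀ i, aeval (w i + q / w i) ((pol b).map (Int.castRingHom ℚ)) = 0 := by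
    intro i
    have h1 : aeval (w i + q / w i) ((pol b).map (Int.castRingHom ℚ)) =
        eval (w i + q / w i) ((pol b).map (Int.castRingHom ℂ)) := by
      rw [aeval_def, eval₂_map, eval_map, hcomp]
    rw [h1, hb, eval_prod]
    exact Finset.prod_eq_zero (Finset.mem_univ i) (by simp)
  have hu1 : IsIntegral ℤ (w j ^ 2 / (q : ℂ)) := IsIntegral.of_pow hm (by rw [hu]; exact isIntegral_one)
  have hu2 : IsIntegral ℤ ((w j ^ 2 / (q : ℂ))⁻¹) :=
    IsIntegral.of_pow hm (by rw [inv_pow, hu, inv_one]; exact isIntegral_one)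
  have hγ : IsIntegral ℤ ((w j + q / w j) ^ 2 / (q : ℂ)) := by
    have e : (w j + q / w j) ^ 2 / (q : ℂ) = w j ^ 2 / q + (2 : ℤ) + (w j ^ 2 / q)⁻¹ := by
      have := hw j
      push_cast
      field_simp
      ring
    rw [e]
    exact (hu1.add (isIntegral_algebraMap (R := ℤ) (A := ℂ) (x := 2))).add hu2
  obtain ⟨F, hFm, hF⟩ := hγ
  have hGe : ∀ z : ℂ, aeval z ((F.map (Int.castRingHom ℚ)).comp (C (1 / (q : ℚ)) * X ^ 2)) =
      eval₂ (algebraMap ℤ ℂ) (z ^ 2 / q) F := by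
    intro z
    have h1 : aeval z (C (1 / (q : ℚ)) * X ^ 2 : ℚ[X]) = z ^ 2 / q := by
      simp only [map_mul, aeval_C, map_pow, aeval_X, map_div₀, map_one, map_natCast]
      ring
    rw [aeval_comp, h1, aeval_def, eval₂_map, hcomp]
    rfl
  have hdvd : (pol b).map (Int.castRingHom ℚ) ∣ (F.map (Int.castRingHom ℚ)).comp (C (1 / (q : ℚ)) * X ^ 2) := by
    rw [minpoly.eq_of_irreducible_of_monic hPQi (hroot j) hPQm]
    exact minpoly.dvd ℚ _ (by rw [hGe]; exact hF)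
  have hint : ∀ i, IsIntegral ℤ ((w i + q / w i) ^ 2 / (q : ℂ)) := by
    intro i
    refine ⟨F, hFm, ?_⟩
    rw [← hGe]
    obtain ⟨H, hH⟩ := hdvd
    rw [hH, map_mul, hroot i, zero_mul]
  have hprod : IsIntegral ℤ (∏ i, ((w i + q / w i) ^ 2 / (q : ℂ))) := IsIntegral.prod _ fun i _ => hint i
  have hb0 : ((b ⟨0, hg⟩ : ℤ) : ℂ) = ∏ i, (-(w i + q / w i)) := by
    have h0 := congrArg (eval 0) hb
    rw [eval_prod] at h0
    have h1 : eval 0 ((pol b).map (Int.castRingHom ℂ)) = ((b ⟨0, hg⟩ : ℤ) : ℂ) := by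
      rw [eval_zero_map, Int_eval hg b]
      rfl
    rw [← h1, h0]
    refine Finset.prod_congr rfl fun i _ => ?_
    simp
  have hval : ∏ i, ((w i + q / w i) ^ 2 / (q : ℂ)) = algebraMap ℚ ℂ (((b ⟨0, hg⟩ : ℤ) : ℚ) ^ 2 / (q : ℚ) ^ g) := by
    rw [Finset.prod_div_distrib, Finset.prod_const, Finset.card_univ, Fintype.card_fin]
    have h1 : ∏ i, (w i + q / w i) ^ 2 = ((b ⟨0, hg⟩ : ℤ) : ℂ) ^ 2 := by
      rw [hb0, ← Finset.prod_pow]
      refine Finset.prod_congr rfl fun i _ => ?_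
      ring
    rw [h1]
    simp
  rw [hval, isIntegral_algebraMap_iff (algebraMap ℚ ℂ).injective] at hprod
  obtain ⟨n, hn⟩ := IsIntegrallyClosed.isIntegral_iff.1 hprod
  have hqQ : (q : ℚ) ^ g ≠ 0 := pow_ne_zero _ (by exact_mod_cast hq0.ne')
  refine ⟨n, ?_⟩
  have hn' : (n : ℚ) = ((b ⟨0, hg⟩ : ℤ) : ℚ) ^ 2 / (q : ℚ) ^ g := hn
  rw [eq_div_iff hqQ] at hn'
  have h2 : ((b ⟨0, hg⟩ ^ 2 : ℤ) : ℚ) = (((q : ℤ) ^ g * n : ℤ) : ℚ) := by
    push_cast
    rw [← hn']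
    ring
  exact_mod_cast h2

end Pool.Agent.MP_4960c7.AR
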