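import Pool.Agent.Lib.MP_4960c7_ag.AR.TFrob
import Pool.Agent.Lib.MP_4960c7_ag.AR.CAbs
import Pool.Agent.Lib.MP_4960c7_ag.AR.Int

/-!
# Joint independence of the eigenvalues of a tuple: the number field part
-/

namespace Pool.Agent.MP_4960c7.AR

open Polynomial

private theorem CorC_monic {g : ℕ} (b : Fin g → ℤ) : (pol b).Monic :=
  monic_X_pow_add (degree_sum_fin_lt b)

private theorem CorC_two {K : Type} [Field K] {q x y : K} (hx : x ≠ 0) (hy : y ≠ 0)
    (h : x + q / x = y + q / y) : x = y ∨ x = q / y := by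
  have h2 : (x - y) * (x * y - q) = 0 := by
    field_simp at h
    linear_combination h
  rcases mul_eq_zero.1 h2 with h3 | h3
  · exact Or.inl (sub_eq_zero.1 h3)
  · refine Or.inr ?_
    rw [eq_div_iff hy]
    exact sub_eq_zero.1 h3

/-- one polynomial: transitivity and a flip at every root -/
private theorem CorC_block {K : Type} [Field K] [NumberField K] [IsGalois ℚ K] {g : ℕ}
    {q ℓ : ℕ} (hq0 : 0 < q) (hℓ : ℓ.Prime) (h2 : ℓ ≠ 2) (b : Fin g → ℤ)
    (hirr : Irreducible (pol b)) (hgood : Good q ℓ (fun j => (b j : ZMod ℓ)))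
    (w : Fin g → K) (hw : ∀ j, w j ≠ 0)
    (hb : (pol b).map (Int.castRingHom K) = ∏ j, (X - C (w j + q / w j))) :
    Function.Injective w ∧ (∀ j l, w j ≠ q / w l) ∧
    (∀ σ : K ≃ₐ[ℚ] K, ∀ j, ∃ l, σ (w j) = w l ∨ σ (w j) = q / w l) ∧
    ∃ j₀, (∃ σ : K ≃ₐ[ℚ] K, σ (w j₀) = q / w j₀ ∧ ∀ j, j ≠ j₀ → σ (w j) = w j) ∧
      ∀ y : K, (∃ j, y = w j ∨ y = q / w j) → ∃ τ : K ≃ₐ[ℚ] K, τ (w j₀) = y := by
  obtain ⟨σ, hσall⟩ := exists_frobenius K q hℓ h2
  obtain ⟨β', hβ', hpol', c₀, hns, hsq⟩ := hgood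
  obtain ⟨f, hfi, hfs, hf1, hf2⟩ := hσall g b w hw hb β' hβ' hpol'
  have hqK : (q : K) ≠ 0 := by exact_mod_cast hq0.ne'
  set β : Fin g → K := fun j => w j + q / w j with hβ
  have hfK : ((pol b).map (algebraMap ℤ ℚ)).map (algebraMap ℚ K) = ∏ j, (X - C (β j)) := by
    rw [← hb, Polynomial.map_map]
    congr 1
    exact RingHom.ext_int _ _
  have hroot : ∀ x : K, aeval x ((pol b).map (algebraMap ℤ ℚ)) = 0 ↔ ∃ j, x = β j := by
    intro x
    rw [aeval_def, ← eval_map, hfK, eval_prod, Finset.prod_eq_zero_iff]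
    simp [sub_eq_zero]
  have hfm : ((pol b).map (algebraMap ℤ ℚ)).Monic := (CorC_monic b).map _
  have hfi' : Irreducible ((pol b).map (algebraMap ℤ ℚ)) :=
    ((CorC_monic b).irreducible_iff_irreducible_map_fraction_map).1 hirr
  have hβinj : Function.Injective β := by
    have h1 : (((pol b).map (algebraMap ℤ ℚ)).map (algebraMap ℚ K)).Separable := hfi'.separable.map
    rw [hfK] at h1
    exact separable_prod_X_sub_C_iff.1 h1
  have hwinj : Function.Injective w := by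
    intro j l h
    apply hβinj
    simp only [hβ]
    rw [h]
  have hperm : ∀ τ : K ≃ₐ[ℚ] K, ∀ j, ∃ l, τ (β j) = β l := by
    intro τ j
    refine (hroot _).1 ?_
    have h1 : aeval (β j) ((pol b).map (algebraMap ℤ ℚ)) = 0 := (hroot _).2 ⟨j, rfl⟩
    have h2 := congrArg τ h1
    rw [map_zero, ← Polynomial.aeval_algHom_apply] at h2
    exact h2
  have hact : ∀ τ : K ≃ₐ[ℚ] K, ∀ j l, τ (β j) = β l → τ (w j) = w l ∨ τ (w j) = q / w l := by
    intro τ j l h
    have hx0 : τ (w j) ≠ 0 := by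
      rw [Ne, map_eq_zero_iff _ τ.injective]
      exact hw j
    refine CorC_two hx0 (hw l) ?_
    simp only [hβ, map_add, map_div₀, map_natCast] at h
    exact h
  set j₀ := f c₀ with hj₀
  obtain ⟨hσ, hσne⟩ := hf1 c₀ hns
  rw [← hj₀] at hσ hσne
  have hσ' : ∀ j, j ≠ j₀ → σ (w j) = w j := by
    intro j hj
    obtain ⟨i, rfl⟩ := hfs j
    exact hf2 i (hsq i fun h => hj (by rw [h]))
  -- transitivity
  have htr : ∀ l, ∃ τ : K ≃ₐ[ℚ] K, τ (β j₀) = β l := by
    intro l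
    have h1 : minpoly ℚ (β l) = (pol b).map (algebraMap ℤ ℚ) := by
      refine (minpoly.eq_of_irreducible_of_monic hfi' ((hroot _).2 ⟨l, rfl⟩) hfm).symm
    refine minpoly.exists_algEquiv_of_root (Algebra.IsAlgebraic.isAlgebraic (β l)) ?_
    rw [h1]
    exact (hroot _).2 ⟨j₀, rfl⟩
  have hdd : ∀ x : K, x ≠ 0 → (q : K) / (q / x) = x := fun x hx => by field_simp
  have htrans : ∀ y : K, (∃ j, y = w j ∨ y = q / w j) → ∃ τ : K ≃ₐ[ℚ] K, τ (w j₀) = y := by
    rintro y ⟨l, hy⟩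
    obtain ⟨τ, hτ⟩ := htr l
    have h1 := hact τ j₀ l hτ
    by_cases h2 : τ (w j₀) = y
    · exact ⟨τ, h2⟩
    · refine ⟨σ.trans τ, ?_⟩
      rw [AlgEquiv.trans_apply, hσ, map_div₀, map_natCast]
      rcases h1 with h1 | h1 <;> rcases hy with hy | hy
      · exact absurd (h1.trans hy.symm) h2
      · rw [h1, hy]
      · rw [h1, hdd _ (hw l), hy]
      · exact absurd (h1.trans hy.symm) h2
  -- `w j ≠ q / w l`
  have hne : ∀ j, w j ≠ q / w j := by
    intro j h
    obtain ⟨τ, hτ⟩ := htrans (w j) ⟨j, Or.inl rfl⟩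
    rw [← hτ] at h
    have h3 : τ (w j₀) = τ (q / w j₀) := by
      rw [map_div₀, map_natCast]
      exact h
    have h4 := τ.injective h3
    exact hσne (by rw [hσ]; exact h4.symm)
  refine ⟨hwinj, ?_, ?_, j₀, ⟨σ, hσ, hσ'⟩, htrans⟩
  · intro j l h
    have h1 : β j = β l := by
      simp only [hβ]
      rw [h, hdd _ (hw l), add_comm]
    have h2 := hβinj h1
    rw [h2] at h
    exact hne l h
  · intro τ j
    obtain ⟨l, hl⟩ := hperm τ j
    exact ⟨l, hact τ j l hl⟩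

private theorem zpow_sum_aux {K : Type} [Field K] {x : K} (hx : x ≠ 0) {α : Type} {s : Finset α} {f : α → ℤ} :
    x ^ (∑ j ∈ s, f j) = ∏ j ∈ s, x ^ f j := by
  classical
  induction s using Finset.induction_on with
  | empty => simp
  | insert a s ha ih => rw [Finset.sum_insert ha, Finset.prod_insert ha, zpow_add₀ hx, ih]

/-- the independence theorem in a number field -/
theorem joint_K {K : Type} [Field K] [NumberField K] [IsGalois ℚ K] {k : ℕ} {g : Fin k → ℕ}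
    {q : ℕ} (hq0 : 0 < q) (b : ∀ i, Fin (g i) → ℤ)
    (hirr : ∀ i, Irreducible (pol (b i)))
    (hgood : ∀ i, ∃ ℓ : ℕ, ℓ.Prime ∧ ℓ ≠ 2 ∧ Good q ℓ (fun j => (b i j : ZMod ℓ)))
    (w : ∀ i, Fin (g i) → K) (hw : ∀ i j, w i j ≠ 0)
    (hb : ∀ i, (pol (b i)).map (Int.castRingHom K) = ∏ j, (X - C (w i j + q / w i j)))
    (hroot : ∀ i j, ∀ m : ℕ, 0 < m → (w i j ^ 2 / q) ^ m ≠ 1)
    (hdist : ∀ i i', i ≠ i' → ∃ σ : K ≃ₐ[ℚ] K,
      ((∀ j, σ (w i j) = w i j) ∧ ∃ j, σ (w i' j) ≠ w i' j) ∨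
        ((∀ j, σ (w i' j) = w i' j) ∧ ∃ j, σ (w i j) ≠ w i j))
    (n : ∀ i, Fin (g i) → ℤ) (hrel : ∏ i, ∏ j, (w i j ^ 2 / q) ^ n i j = 1) : n = 0 := by
  classical
  have hqK : (q : K) ≠ 0 := by exact_mod_cast hq0.ne'
  have hblock : ∀ i, Function.Injective (w i) ∧ (∀ j l, w i j ≠ q / w i l) ∧
      (∀ σ : K ≃ₐ[ℚ] K, ∀ j, ∃ l, σ (w i j) = w i l ∨ σ (w i j) = q / w i l) ∧
      ∃ j₀, (∃ σ : K ≃ₐ[ℚ] K, σ (w i j₀) = q / w i j₀ ∧ ∀ j, j ≠ j₀ → σ (w i j) = w i j) ∧
        ∀ y : K, (∃ j, y = w i j ∨ y = q / w i j) → ∃ τ : K ≃ₐ[ℚ] K, τ (w i j₀) = y := by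
    intro i
    obtain ⟨ℓ, hℓ, h2, hg⟩ := hgood i
    exact CorC_block hq0 hℓ h2 (b i) (hirr i) hg (w i) (hw i) (hb i)
  have hdd : ∀ x : K, x ≠ 0 → (q : K) / (q / x) = x := fun x hx => by field_simp
  let R : Fin k → Finset K := fun i => (Finset.univ.image (w i)) ∪ (Finset.univ.image fun j => (q : K) / w i j)
  have hmem : ∀ i x, x ∈ R i ↔ ∃ j, x = w i j ∨ x = q / w i j := by
    intro i x
    simp only [R, Finset.mem_union, Finset.mem_image, Finset.mem_univ, true_and]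
    constructor
    · rintro (⟨j, h⟩ | ⟨j, h⟩)
      · exact ⟨j, Or.inl h.symm⟩
      · exact ⟨j, Or.inr h.symm⟩
    · rintro ⟨j, h | h⟩
      · exact Or.inl ⟨j, h.symm⟩
      · exact Or.inr ⟨j, h.symm⟩
  let Γ : Set (K ≃+* K) := Set.range fun σ : K ≃ₐ[ℚ] K => (σ : K ≃+* K)
  have h0 : ∀ i, ∀ x ∈ R i, x ≠ 0 := by
    intro i x hx
    obtain ⟨j, h | h⟩ := (hmem i x).1 hx
    · rw [h]; exact hw i j
    · rw [h]; exact div_ne_zero hqK (hw i j)
  have hinv : ∀ i, ∀ x ∈ R i, (q : K) / x ∈ R i := by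
    intro i x hx
    rw [hmem]
    obtain ⟨j, h | h⟩ := (hmem i x).1 hx
    · exact ⟨j, Or.inr (by rw [h])⟩
    · exact ⟨j, Or.inl (by rw [h, hdd _ (hw i j)])⟩
  have hne : ∀ i, ∀ x ∈ R i, (q : K) / x ≠ x := by
    intro i x hx
    obtain ⟨j, h | h⟩ := (hmem i x).1 hx
    · rw [h]; exact fun h' => (hblock i).2.1 j j h'.symm
    · rw [h, hdd _ (hw i j)]; exact (hblock i).2.1 j j
  have hmap : ∀ σ : K ≃ₐ[ℚ] K, ∀ i, ∀ x ∈ R i, σ x ∈ R i := by
    intro σ i x hx
    rw [hmem]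
    obtain ⟨j, h | h⟩ := (hmem i x).1 hx
    · rw [h]; exact (hblock i).2.2.1 σ j
    · obtain ⟨l, hl⟩ := (hblock i).2.2.1 σ j
      refine ⟨l, ?_⟩
      rw [h, map_div₀, map_natCast]
      rcases hl with hl | hl
      · exact Or.inr (by rw [hl])
      · exact Or.inl (by rw [hl, hdd _ (hw i l)])
  have hΓ : ∀ σ ∈ Γ, ∀ i, ∀ x, σ x ∈ R i ↔ x ∈ R i := by
    rintro _ ⟨σ, rfl⟩ i x
    constructor
    · intro h
      have h1 := hmap σ.symm i (σ x) h
      rw [AlgEquiv.symm_apply_apply] at h1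
      exact h1
    · exact hmap σ i x
  have hΓq : ∀ σ ∈ Γ, σ (q : K) = q := by
    rintro _ ⟨σ, rfl⟩
    exact map_natCast σ q
  have htrans : ∀ i, ∀ y ∈ R i, ∀ z ∈ R i, ∃ τ ∈ Γ, τ y = z := by
    intro i y hy z hz
    obtain ⟨_, _, _, j₀, _, ht⟩ := hblock i
    obtain ⟨τ₁, h1⟩ := ht y ((hmem i y).1 hy)
    obtain ⟨τ₂, h2⟩ := ht z ((hmem i z).1 hz)
    refine ⟨_, ⟨τ₁.symm.trans τ₂, rfl⟩, ?_⟩
    show τ₂ (τ₁.symm y) = z
    rw [← h1, AlgEquiv.symm_apply_apply, h2]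
  have hflip : ∀ i, ∀ y ∈ R i, ∃ ε ∈ Γ, ε y = q / y ∧ ∀ z ∈ R i, z ≠ y → z ≠ q / y → ε z = z := by
    intro i y hy
    obtain ⟨_, _, _, j₀, ⟨σ, hσ, hσ'⟩, ht⟩ := hblock i
    obtain ⟨τ, h1⟩ := ht y ((hmem i y).1 hy)
    refine ⟨_, ⟨(τ.symm.trans σ).trans τ, rfl⟩, ?_, ?_⟩
    · show τ (σ (τ.symm y)) = q / y
      rw [← h1, AlgEquiv.symm_apply_apply, hσ, map_div₀, map_natCast]
    · intro z hz hzy hzq
      show τ (σ (τ.symm z)) = z
      have h3 : σ (τ.symm z) = τ.symm z := by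
        obtain ⟨j, h | h⟩ := (hmem i _).1 (hmap τ.symm i z hz)
        · rw [h]
          refine hσ' j fun hj => hzy ?_
          rw [hj] at h
          rw [← h1, ← h, AlgEquiv.apply_symm_apply]
        · rw [h, map_div₀, map_natCast, hσ' j fun hj => hzq ?_]
          rw [hj] at h
          have h4 := congrArg τ h
          rw [AlgEquiv.apply_symm_apply, map_div₀, map_natCast, h1] at h4
          exact h4
      rw [h3, AlgEquiv.apply_symm_apply]
  have hroot' : ∀ i, ∀ y ∈ R i, ∀ m : ℕ, 0 < m → (y / (q / y)) ^ m ≠ 1 := by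
    intro i y hy m hm hcon
    obtain ⟨j, h | h⟩ := (hmem i y).1 hy
    · refine hroot i j m hm ?_
      rw [← hcon, h]
      congr 1
      have := hw i j
      field_simp
    · refine hroot i j m hm ?_
      have h3 : y / (q / y) = (w i j ^ 2 / q)⁻¹ := by
        rw [h]
        have := hw i j
        field_simp
      rw [h3, inv_pow, inv_eq_one] at hcon
      exact hcon
  have hdist' : ∀ i j, i ≠ j → ∃ σ ∈ Γ, ((∀ x ∈ R i, σ x = x) ∧ ∃ y ∈ R j, σ y ≠ y) ∨
      ((∀ x ∈ R j, σ x = x) ∧ ∃ y ∈ R i, σ y ≠ y) := by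
    intro i i' hii
    have haux : ∀ (σ : K ≃ₐ[ℚ] K) (i : Fin k), (∀ j, σ (w i j) = w i j) → ∀ x ∈ R i, σ x = x := by
      intro σ i hσ x hx
      obtain ⟨j, h | h⟩ := (hmem i x).1 hx
      · rw [h, hσ]
      · rw [h, map_div₀, map_natCast, hσ]
    obtain ⟨σ, ⟨h1, j, h2⟩ | ⟨h1, j, h2⟩⟩ := hdist i i' hii
    · exact ⟨_, ⟨σ, rfl⟩, Or.inl ⟨haux σ i h1, w i' j, (hmem _ _).2 ⟨j, Or.inl rfl⟩, h2⟩⟩
    · exact ⟨_, ⟨σ, rfl⟩, Or.inr ⟨haux σ i' h1, w i j, (hmem _ _).2 ⟨j, Or.inl rfl⟩, h2⟩⟩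
  -- the relation as an odd function
  let N : Fin k → K → ℤ := fun i x =>
    ∑ j, n i j * ((if x = w i j then 1 else 0) - (if x = q / w i j then 1 else 0))
  have hNrel : IsRel (q : K) R N := by
    refine ⟨fun i x hx => ?_, ?_⟩
    · show (∑ j, n i j * ((if (q : K) / x = w i j then 1 else 0) - (if (q : K) / x = q / w i j then 1 else 0))) =
        - ∑ j, n i j * ((if x = w i j then 1 else 0) - (if x = q / w i j then 1 else 0))
      rw [← Finset.sum_neg_distrib]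
      refine Finset.sum_congr rfl fun j _ => ?_
      have hx0 := h0 i x hx
      have e1 : ((q : K) / x = w i j) ↔ (x = q / w i j) := by
        constructor
        · intro h; rw [← h, hdd x hx0]
        · intro h; rw [h, hdd _ (hw i j)]
      have e2 : ((q : K) / x = q / w i j) ↔ (x = w i j) := by
        constructor
        · intro h
          have := congrArg (fun z => (q : K) / z) h
          simpa only [hdd x hx0, hdd _ (hw i j)] using this
        · intro h; rw [h]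
      rw [if_congr e1 rfl rfl, if_congr e2 rfl rfl]
      ring
    · show ∏ i, ∏ x ∈ R i, x ^ N i x = 1
      rw [← hrel]
      refine Finset.prod_congr rfl fun i _ => ?_
      have h1 : ∀ x ∈ R i, x ^ N i x = ∏ j, (((if x = w i j then x else 1) ^ n i j) * ((if x = q / w i j then x else 1) ^ (- n i j))) := by
        intro x hx
        have hx0 := h0 i x hx
        show x ^ (∑ j, n i j * ((if x = w i j then 1 else 0) - (if x = q / w i j then 1 else 0))) = _
        rw [zpow_sum_aux hx0]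
        refine Finset.prod_congr rfl fun j _ => ?_
        by_cases e1 : x = w i j <;> by_cases e2 : x = q / w i j
        · rw [if_pos e1, if_pos e2, if_pos e1, if_pos e2, ← zpow_add₀ hx0]
          congr 1
          ring
        · rw [if_pos e1, if_neg e2, if_pos e1, if_neg e2]
          simp
        · rw [if_neg e1, if_pos e2, if_neg e1, if_pos e2]
          simp
        · rw [if_neg e1, if_neg e2, if_neg e1, if_neg e2]
          simp
      rw [Finset.prod_congr rfl h1, Finset.prod_comm]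
      refine Finset.prod_congr rfl fun j _ => ?_
      rw [Finset.prod_mul_distrib]
      have h2 : ∏ x ∈ R i, (if x = w i j then x else 1) ^ n i j = w i j ^ n i j := by
        rw [Finset.prod_eq_single (w i j)]
        · rw [if_pos rfl]
        · intro x _ hx
          rw [if_neg hx, one_zpow]
        · intro h
          exact absurd ((hmem i _).2 ⟨j, Or.inl rfl⟩) h
      have h3 : ∏ x ∈ R i, (if x = q / w i j then x else 1) ^ (- n i j) = ((q : K) / w i j) ^ (- n i j) := by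
        rw [Finset.prod_eq_single ((q : K) / w i j)]
        · rw [if_pos rfl]
        · intro x _ hx
          rw [if_neg hx, one_zpow]
        · intro h
          exact absurd ((hmem i _).2 ⟨j, Or.inr rfl⟩) h
      rw [h2, h3, zpow_neg, ← div_eq_mul_inv, ← div_zpow]
      congr 1
      have := hw i j
      field_simp
  funext i j
  have hz := rel_trivial Γ hqK h0 hinv hne hΓq hΓ htrans hflip hroot' hdist' N hNrel i (w i j)
    ((hmem i _).2 ⟨j, Or.inl rfl⟩)
  have h5 : N i (w i j) = n i j := by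
    show (∑ l, n i l * ((if w i j = w i l then 1 else 0) - (if w i j = q / w i l then 1 else 0))) = n i j
    rw [Finset.sum_eq_single j]
    · rw [if_pos rfl, if_neg ((hblock i).2.1 j j)]
      ring
    · intro l _ hl
      rw [if_neg fun h => hl ((hblock i).1 h).symm, if_neg ((hblock i).2.1 j l)]
      ring
    · intro h
      exact absurd (Finset.mem_univ j) h
  rw [h5] at hz
  exact hz

end Pool.Agent.MP_4960c7.AR
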