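import Pool.Agent.Lib.MP_4960c7_ag.AR.CDefs
import Pool.Agent.Lib.MP_4960c7_ag.AR.CorC

/-!
# The criterion by splitting fields, and the separation of splitting fields by primes
-/

namespace Pool.Agent.MP_4960c7.AR

open Polynomial

private theorem CField_monic {g : ℕ} (b : Fin g → ℤ) : (pol b).Monic :=
  monic_X_pow_add (degree_sum_fin_lt b)

/-- a number field in `ℂ`, Galois over `ℚ`, which contains all members of a finite family of numbers `w s`
such that `w s + q / w s` is a root of a monic integer polynomial -/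
private theorem CField_big {α : Type} [Fintype α] {q : ℕ} (w : α → ℂ) (hw : ∀ s, w s ≠ 0)
    (hβ : ∀ s, IsIntegral ℚ (w s + q / w s)) :
    ∃ K : IntermediateField ℚ ℂ, NumberField K ∧ IsGalois ℚ K ∧ ∀ s, w s ∈ K := by
  have hint : ∀ s, IsIntegral ℚ (w s) := by
    intro s
    have h3 : IsIntegral ℚ ((2 * w s - (w s + q / w s)) ^ 2) := by
      have h4 : (2 * w s - (w s + q / w s)) ^ 2 = (w s + q / w s) ^ 2 - algebraMap ℚ ℂ (4 * q) := by
        have := hw s
        rw [map_mul, map_natCast, map_ofNat]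
        field_simp
        ring
      rw [h4]
      exact ((hβ s).pow 2).sub isIntegral_algebraMap
    have h5 : IsIntegral ℚ (2 * w s - (w s + q / w s)) := IsIntegral.of_pow two_pos h3
    have h6 : w s = algebraMap ℚ ℂ (1 / 2) * ((2 * w s - (w s + q / w s)) + (w s + q / w s)) := by
      rw [map_div₀, map_one, map_ofNat]
      ring
    rw [h6]
    exact isIntegral_algebraMap.mul (h5.add (hβ s))
  set P : ℚ[X] := ∏ s, minpoly ℚ (w s) with hP
  have hP0 : P ≠ 0 := Finset.prod_ne_zero_iff.2 fun s _ => minpoly.ne_zero (hint s)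
  let K : IntermediateField ℚ ℂ := IntermediateField.adjoin ℚ (P.rootSet ℂ)
  have hsplit' : IsSplittingField ℚ K P :=
    IntermediateField.adjoin_rootSet_isSplittingField (IsAlgClosed.splits _)
  have hfin : FiniteDimensional ℚ K := IsSplittingField.finiteDimensional K P
  have hnf : NumberField K := { }
  have hnorm : Normal ℚ K := Normal.of_isSplittingField P
  have hgal : IsGalois ℚ K := { }
  refine ⟨K, hnf, hgal, fun s => ?_⟩
  refine IntermediateField.subset_adjoin ℚ _ ?_
  rw [mem_rootSet]
  refine ⟨hP0, ?_⟩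
  rw [hP, map_prod]
  exact Finset.prod_eq_zero (Finset.mem_univ s) (minpoly.aeval ℚ (w s))

private theorem CField_int {g q : ℕ} {b : Fin g → ℤ} {w : Fin g → ℂ}
    (hb : (pol b).map (Int.castRingHom ℂ) = ∏ j, (X - C (w j + q / w j))) (j : Fin g) :
    IsIntegral ℚ (w j + q / w j) := by
  refine ⟨(pol b).map (algebraMap ℤ ℚ), (CField_monic b).map _, ?_⟩
  rw [← eval_map, Polynomial.map_map]
  have h1 : (algebraMap ℚ ℂ).comp (algebraMap ℤ ℚ) = Int.castRingHom ℂ := RingHom.ext_int _ _
  rw [h1, hb, eval_prod]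
  exact Finset.prod_eq_zero (Finset.mem_univ j) (by simp)

/-- the splitting field is generated by the `w j` -/
theorem weilField_eq {g q : ℕ} {b : Fin g → ℤ} {w : Fin g → ℂ} (hw : ∀ j, w j ≠ 0)
    (hb : (pol b).map (Int.castRingHom ℂ) = ∏ j, (X - C (w j + q / w j))) :
    weilField q b = IntermediateField.adjoin ℚ (Set.range w) := by
  have hroot : ∀ z : ℂ, aeval z (pol b) = 0 ↔ ∃ j, z = w j + q / w j := by
    intro z
    have h1 : aeval z (pol b) = eval z ((pol b).map (Int.castRingHom ℂ)) := by
      rw [eval_map]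
      rfl
    rw [h1, hb, eval_prod, Finset.prod_eq_zero_iff]
    simp [sub_eq_zero]
  apply le_antisymm
  · unfold weilField
    rw [IntermediateField.adjoin_le_iff]
    rintro x ⟨hx, hz⟩
    obtain ⟨j, hj⟩ := (hroot _).1 hz
    have hwm : w j ∈ IntermediateField.adjoin ℚ (Set.range w) :=
      IntermediateField.subset_adjoin ℚ _ ⟨j, rfl⟩
    have h2 : (x - w j) * (x * w j - q) = 0 := by
      have := hw j
      field_simp at hj
      linear_combination hj
    rcases mul_eq_zero.1 h2 with h3 | h3
    · rw [sub_eq_zero.1 h3]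
      exact hwm
    · have h4 : x = q / w j := by
        rw [eq_div_iff (hw j)]
        exact sub_eq_zero.1 h3
      rw [h4]
      exact div_mem (natCast_mem _ q) hwm
  · rw [IntermediateField.adjoin_le_iff]
    rintro _ ⟨j, rfl⟩
    refine IntermediateField.subset_adjoin ℚ _ ⟨hw j, ?_⟩
    exact (hroot _).2 ⟨j, rfl⟩

private theorem CField_map {g q : ℕ} {b : Fin g → ℤ} {w : Fin g → ℂ} {K : IntermediateField ℚ ℂ}
    (hb : (pol b).map (Int.castRingHom ℂ) = ∏ j, (X - C (w j + q / w j))) (W : Fin g → K)
    (hW : ∀ j, (W j : ℂ) = w j) :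
    (pol b).map (Int.castRingHom K) = ∏ j, (X - C (W j + q / W j)) := by
  apply Polynomial.map_injective (algebraMap K ℂ) (algebraMap K ℂ).injective
  rw [Polynomial.map_map, Polynomial.map_prod]
  have h1 : (algebraMap K ℂ).comp (Int.castRingHom K) = Int.castRingHom ℂ := RingHom.ext_int _ _
  rw [h1, hb]
  refine Finset.prod_congr rfl fun j _ => ?_
  have h2 : (algebraMap K ℂ) (W j + q / W j) = w j + q / w j := by
    rw [map_add, map_div₀, map_natCast]
    show (W j : ℂ) + q / (W j : ℂ) = _
    rw [hW]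
  rw [Polynomial.map_sub, Polynomial.map_X, Polynomial.map_C, h2]

/-- the criterion: generic polynomials with pairwise different splitting fields -/
theorem criterion {k : ℕ} {g : Fin k → ℕ} {q : ℕ} (hq0 : 0 < q) (b : ∀ i, Fin (g i) → ℤ)
    (hgen : ∀ i, Generic q (b i)) (hne : ∀ i j, i ≠ j → weilField q (b i) ≠ weilField q (b j)) :
    JointMaxAngleRank q b := by
  intro w hw hb n hrel
  obtain ⟨K, hnf, hgal, hmem'⟩ := CField_big (q := q) (fun s : (Σ i, Fin (g i)) => w s.1 s.2)
    (fun s => hw s.1 s.2) (fun s => CField_int (hb s.1) s.2)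
  have hmem : ∀ i j, w i j ∈ K := fun i j => hmem' ⟨i, j⟩
  let W : ∀ i, Fin (g i) → K := fun i j => ⟨w i j, hmem i j⟩
  have hWc : ∀ i j, (algebraMap K ℂ) (W i j) = w i j := fun i j => rfl
  have hW0 : ∀ i j, W i j ≠ 0 := by
    intro i j h
    apply hw i j
    rw [← hWc, h, map_zero]
  have hbK : ∀ i, (pol (b i)).map (Int.castRingHom K) = ∏ j, (X - C (W i j + q / W i j)) :=
    fun i => CField_map (hb i) (W i) fun j => rfl
  have hrelK : ∏ i, ∏ j, (W i j ^ 2 / q) ^ n i j = 1 := by
    apply (algebraMap K ℂ).injective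
    rw [map_prod, map_one, ← hrel]
    refine Finset.prod_congr rfl fun i _ => ?_
    rw [map_prod]
    refine Finset.prod_congr rfl fun j _ => ?_
    rw [map_zpow₀, map_div₀, map_pow, map_natCast, hWc]
  refine joint_K hq0 b (fun i => (hgen i).1) (fun i => ?_) W hW0 hbK ?_ ?_ n hrelK
  · obtain ⟨ℓ, h1, h2, _, h3⟩ := (hgen i).2.2
    exact ⟨ℓ, h1, h2, h3⟩
  · intro i j m hm hcon
    have h1 : (w i j ^ 2 / q) ^ m = 1 := by
      have h2 := congrArg (algebraMap K ℂ) hcon
      rw [map_pow, map_div₀, map_pow, map_natCast, hWc, map_one] at h2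
      exact h2
    have hg : 0 < g i := lt_of_le_of_lt (Nat.zero_le _) j.2
    exact (hgen i).2.1 hg (dvd_of_root_of_unity hg hq0 (b i) (hgen i).1 (w i) (hw i) (hb i) j m hm h1)
  · -- different fields give different kernels
    intro i i' hii
    by_contra hcon
    push Not at hcon
    have hK1 : ∀ i, IntermediateField.lift (IntermediateField.adjoin ℚ (Set.range (W i))) = weilField q (b i) := by
      intro i
      rw [IntermediateField.lift_adjoin, weilField_eq (hw i) (hb i), ← Set.range_comp]
      rfl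
    have haux : ∀ i i', (∀ σ : K ≃ₐ[ℚ] K, (∀ j, σ (W i j) = W i j) → ∀ j, σ (W i' j) = W i' j) →
        IntermediateField.adjoin ℚ (Set.range (W i')) ≤ IntermediateField.adjoin ℚ (Set.range (W i)) := by
      intro i i' h
      rw [IntermediateField.adjoin_le_iff]
      rintro _ ⟨j, rfl⟩
      have h1 : W i' j ∈ IntermediateField.fixedField
          (IntermediateField.fixingSubgroup (IntermediateField.adjoin ℚ (Set.range (W i)))) := by
        rw [IntermediateField.mem_fixedField_iff]
        intro σ hσ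
        refine h σ (fun j' => ?_) j
        rw [IntermediateField.mem_fixingSubgroup_iff] at hσ
        exact hσ _ (IntermediateField.subset_adjoin ℚ _ ⟨j', rfl⟩)
      rw [IsGalois.fixedField_fixingSubgroup] at h1
      exact h1
    refine hne i i' hii ?_
    rw [← hK1 i, ← hK1 i']
    congr 1
    apply le_antisymm
    · exact haux i' i fun σ hσ j => by
        by_contra h
        obtain ⟨_, h2⟩ := hcon σ
        exact h (h2 hσ j)
    · exact haux i i' fun σ hσ j => by
        by_contra h
        obtain ⟨h1, _⟩ := hcon σ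
        exact h (h1 hσ j)

/-- a prime modulo which `pol b` splits completely and `pol b'` is good separates the splitting fields -/
theorem sep_field {g g' q ℓ : ℕ} (hℓ : ℓ.Prime) (h2 : ℓ ≠ 2) {b : Fin g → ℤ}
    {b' : Fin g' → ℤ} {w : Fin g → ℂ} {w' : Fin g' → ℂ} (hw : ∀ j, w j ≠ 0) (hw' : ∀ j, w' j ≠ 0)
    (hb : (pol b).map (Int.castRingHom ℂ) = ∏ j, (X - C (w j + q / w j)))
    (hb' : (pol b').map (Int.castRingHom ℂ) = ∏ j, (X - C (w' j + q / w' j)))
    (hs : Split q ℓ (fun i => (b i : ZMod ℓ))) (hgood : Good q ℓ (fun i => (b' i : ZMod ℓ))) :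
    weilField q b ≠ weilField q b' := by
  intro heq
  obtain ⟨K, hnf, hgal, hmem'⟩ := CField_big (q := q) (fun s : Fin g ⊕ Fin g' => Sum.elim w w' s)
    (fun s => by cases s with
      | inl j => exact hw j
      | inr j => exact hw' j)
    (fun s => by cases s with
      | inl j => exact CField_int hb j
      | inr j => exact CField_int hb' j)
  have hm : ∀ j, w j ∈ K := fun j => hmem' (Sum.inl j)
  have hm' : ∀ j, w' j ∈ K := fun j => hmem' (Sum.inr j)
  let W : Fin g → K := fun j => ⟨w j, hm j⟩
  let W' : Fin g' → K := fun j => ⟨w' j, hm' j⟩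
  have hW0 : ∀ j, W j ≠ 0 := fun j h => hw j (by
    have := congrArg (algebraMap K ℂ) h
    rw [map_zero] at this
    exact this)
  have hW0' : ∀ j, W' j ≠ 0 := fun j h => hw' j (by
    have := congrArg (algebraMap K ℂ) h
    rw [map_zero] at this
    exact this)
  have hbK := CField_map (K := K) hb W fun j => rfl
  have hbK' := CField_map (K := K) hb' W' fun j => rfl
  obtain ⟨σ, hσall⟩ := exists_frobenius K q hℓ h2
  obtain ⟨β, hβ, hpol, hsq⟩ := hs
  obtain ⟨f, _, hfs, _, hf2⟩ := hσall g b W hW0 hbK β hβ hpol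
  have hfix : ∀ j, σ (W j) = W j := by
    intro j
    obtain ⟨i, rfl⟩ := hfs j
    exact hf2 i (hsq i)
  obtain ⟨β', hβ', hpol', c₀, hns, _⟩ := hgood
  obtain ⟨f', _, _, hf1', _⟩ := hσall g' b' W' hW0' hbK' β' hβ' hpol'
  have hmove := (hf1' c₀ hns).2
  -- the fixed field of `σ`
  let F : IntermediateField ℚ K := IntermediateField.fixedField (Subgroup.zpowers σ)
  have hle : IntermediateField.adjoin ℚ (Set.range W) ≤ F := by
    rw [IntermediateField.adjoin_le_iff]
    rintro _ ⟨j, rfl⟩
    show W j ∈ F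
    rw [IntermediateField.mem_fixedField_iff]
    intro τ hτ
    have h1 : Subgroup.zpowers σ ≤ MulAction.stabilizer (K ≃ₐ[ℚ] K) (W j) := by
      rw [Subgroup.zpowers_le]
      exact hfix j
    exact h1 hτ
  have h1 : IntermediateField.lift (IntermediateField.adjoin ℚ (Set.range W)) = weilField q b := by
    rw [IntermediateField.lift_adjoin, weilField_eq hw hb, ← Set.range_comp]
    rfl
  have h3 : IntermediateField.lift (IntermediateField.adjoin ℚ (Set.range W')) = weilField q b' := by
    rw [IntermediateField.lift_adjoin, weilField_eq hw' hb', ← Set.range_comp]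
    rfl
  have h4 : IntermediateField.adjoin ℚ (Set.range W) = IntermediateField.adjoin ℚ (Set.range W') :=
    IntermediateField.lift_injective K (h1.trans (heq.trans h3.symm))
  have h5 : W' (f' c₀) ∈ F := by
    apply hle
    rw [h4]
    exact IntermediateField.subset_adjoin ℚ _ ⟨_, rfl⟩
  rw [IntermediateField.mem_fixedField_iff] at h5
  exact hmove (h5 σ (Subgroup.mem_zpowers σ))

end Pool.Agent.MP_4960c7.AR
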