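import Pool.Agent.Lib.MP_4960c7_ag.AR.Defs

/-!
# The Frobenius eigenvalues exist
-/

namespace Pool.Agent.MP_4960c7.AR

open Polynomial

theorem exists_w {g q : ℕ} (hq : 0 < q) (b : Fin g → ℤ) : ∃ w : Fin g → ℂ, (∀ j, w j ≠ 0) ∧
    (pol b).map (Int.castRingHom ℂ) = ∏ j, (X - C (w j + q / w j)) := by
  have hm : (pol b).Monic := monic_X_pow_add (degree_sum_fin_lt b)
  have hd : (pol b).natDegree = g := by
    unfold pol
    rw [natDegree_add_eq_left_of_degree_lt, natDegree_X_pow]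
    rw [degree_X_pow]
    exact degree_sum_fin_lt b
  obtain ⟨f, hf⟩ : ∃ f : ℂ[X], f = (pol b).map (Int.castRingHom ℂ) := ⟨_, rfl⟩
  have hfm : f.Monic := by rw [hf]; exact hm.map _
  have hfd : f.natDegree = g := by rw [hf, hm.natDegree_map, hd]
  have hs : f.Splits := IsAlgClosed.splits f
  have hc : f.roots.card = g := by rw [← hfd]; exact hs.natDegree_eq_card_roots.symm
  obtain ⟨l, hl⟩ := Quot.exists_rep f.roots
  have hl' : (l : Multiset ℂ) = f.roots := hl
  have hlen : l.length = g := by rw [← hc, ← hl', Multiset.coe_card]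
  subst hlen
  have hprod : f = ∏ j : Fin l.length, (X - C (l.get j)) := by
    rw [hs.eq_prod_roots_of_monic hfm, ← hl', Multiset.map_coe, Multiset.prod_coe]
    rw [← List.prod_ofFn]
    congr 1
    rw [← List.ofFn_get l, List.map_ofFn]
    simp [Function.comp_def]
  have hw : ∀ β : ℂ, ∃ w : ℂ, w ≠ 0 ∧ w + q / w = β := by
    intro β
    obtain ⟨s, hs⟩ := IsAlgClosed.exists_pow_nat_eq (β ^ 2 - 4 * q) (show 0 < 2 by norm_num)
    have hq0 : (q : ℂ) ≠ 0 := by exact_mod_cast hq.ne'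
    have h1 : ((β + s) / 2) * ((β - s) / 2) = q := by linear_combination (-1 / 4) * hs
    have h2 : (β + s) / 2 ≠ 0 := fun h => hq0 (by rw [← h1, h, zero_mul])
    refine ⟨(β + s) / 2, h2, ?_⟩
    have h3 : (q : ℂ) / ((β + s) / 2) = (β - s) / 2 := by
      rw [div_eq_iff h2, ← h1]
      ring
    rw [h3]
    ring
  choose w hw0 hwβ using hw
  refine ⟨fun j => w (l.get j), fun j => hw0 _, ?_⟩
  rw [← hf, hprod]
  refine Finset.prod_congr rfl fun j _ => ?_
  rw [hwβ]

end Pool.Agent.MP_4960c7.AR
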