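import Pool.Agent.Lib.MP_4960c7_ag.AR.CSing
import Pool.Agent.Lib.MP_4960c7_ag.AR.TFf

/-!
# Few pairs of real Weil polynomials are not separated by a prime
-/

namespace Pool.Agent.MP_4960c7.AR

open Polynomial

/-- the classes of pairs: the first member splits completely, the second is good -/
def PairSet (q g g' ℓ : ℕ) : Set (Fin (g + g') → ZMod ℓ) :=
  {c | Split q ℓ (fun i => c (Fin.castAdd g' i)) ∧ Good q ℓ (fun i => c (Fin.natAdd g i))}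

private theorem CPair_inj {R : Type} {g g' : ℕ} :
    Function.Injective fun x : (Fin g → R) × (Fin g' → R) => Fin.append x.1 x.2 := by
  rintro ⟨x, y⟩ ⟨x', y'⟩ h
  have h' : Fin.append x y = Fin.append x' y' := h
  refine Prod.ext (funext fun i => ?_) (funext fun i => ?_)
  · have := congrFun h' (Fin.castAdd g' i)
    rwa [Fin.append_left, Fin.append_left] at this
  · have := congrFun h' (Fin.natAdd g i)
    rwa [Fin.append_right, Fin.append_right] at this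

theorem pairSet_count (g g' : ℕ) (hg' : 0 < g') : ∃ δ : ℝ, 0 < δ ∧ ∃ L : ℕ, ∀ ℓ : ℕ, ℓ.Prime → L ≤ ℓ →
    ∀ q : ℕ, ¬ ℓ ∣ q → δ * (ℓ : ℝ) ^ (g + g') ≤ ((PairSet q g g' ℓ).ncard : ℝ) := by
  obtain ⟨δ₁, h1, _, L₁, hL₁⟩ := split_count g
  obtain ⟨δ₂, h2, _, L₂, hL₂⟩ := good_count g' hg'
  refine ⟨δ₁ * δ₂, mul_pos h1 h2, max L₁ L₂, fun ℓ hℓ hL q hq => ?_⟩
  have : NeZero ℓ := ⟨hℓ.ne_zero⟩
  have e1 := hL₁ ℓ hℓ ((le_max_left _ _).trans hL) q hq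
  have e2 := hL₂ ℓ hℓ ((le_max_right _ _).trans hL) q hq
  have e3 : {c : Fin g → ZMod ℓ | Split q ℓ c}.ncard * {c : Fin g' → ZMod ℓ | Good q ℓ c}.ncard ≤
      (PairSet q g g' ℓ).ncard := by
    rw [← Set.ncard_prod, ← Set.ncard_image_of_injective _ (CPair_inj (R := ZMod ℓ) (g := g) (g' := g'))]
    refine Set.ncard_le_ncard ?_ (Set.toFinite _)
    rintro _ ⟨⟨x, y⟩, ⟨hx, hy⟩, rfl⟩
    refine ⟨?_, ?_⟩
    · simp only [Fin.append_left]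
      exact hx
    · simp only [Fin.append_right]
      exact hy
  have hl0 : (0 : ℝ) ≤ ℓ := Nat.cast_nonneg ℓ
  calc δ₁ * δ₂ * (ℓ : ℝ) ^ (g + g') = (δ₁ * (ℓ : ℝ) ^ g) * (δ₂ * (ℓ : ℝ) ^ g') := by ring
    _ ≤ ({c : Fin g → ZMod ℓ | Split q ℓ c}.ncard : ℝ) * ({c : Fin g' → ZMod ℓ | Good q ℓ c}.ncard : ℝ) :=
        mul_le_mul e1 e2 (by positivity) (Nat.cast_nonneg _)
    _ ≤ _ := by exact_mod_cast e3

/-- few pairs are not separated -/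
theorem pair (g g' : ℕ) (hg : 0 < g) (hg' : 0 < g') : ∃ q₀ : ℕ, ∀ q : ℕ, q₀ ≤ q → ∀ p a : ℕ, p.Prime →
    q = p ^ a →
    ({x : (Fin g → ℤ) × (Fin g' → ℤ) | IsWeil q x.1 ∧ IsWeil q x.2 ∧ ∀ ℓ : ℕ, ℓ.Prime → ℓ ≠ 2 →
        ¬ (Split q ℓ (fun i => (x.1 i : ZMod ℓ)) ∧ Good q ℓ (fun i => (x.2 i : ZMod ℓ)))}.ncard : ℝ) ≤
      (q : ℝ) ^ (-(1 / 7) : ℝ) *
        (({b : Fin g → ℤ | IsWeil q b ∧ ¬ (p : ℤ) ∣ b ⟨0, hg⟩}.ncard : ℝ) *
          ({b : Fin g' → ℤ | IsWeil q b ∧ ¬ (p : ℤ) ∣ b ⟨0, hg'⟩}.ncard : ℝ)) := by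
  obtain ⟨c, hc, q₁, hord⟩ := ordinary g hg
  obtain ⟨c', hc', q₁', hord'⟩ := ordinary g' hg'
  obtain ⟨δ, hδ0, L, hgood⟩ := pairSet_count g g' hg'
  obtain ⟨B, hBdef⟩ : ∃ B : ℝ, B = (3 * 4 ^ g) ^ g := ⟨_, rfl⟩
  obtain ⟨B', hBdef'⟩ : ∃ B : ℝ, B = (3 * 4 ^ g') ^ g' := ⟨_, rfl⟩
  have hB : 0 < B := by rw [hBdef]; positivity
  have hB' : 0 < B' := by rw [hBdef']; positivity
  obtain ⟨C₃, hC₃⟩ : ∃ C₃ : ℝ, C₃ = (1 / δ ^ 2 + 3 * 2 ^ (g + g')) * (B * B') := ⟨_, rfl⟩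
  obtain ⟨q₂, hq₂⟩ := params (max L 3) (C₃ / (c * c'))
  refine ⟨max (max q₁ q₁') q₂, fun q hq p a hp hqp => ?_⟩
  have hq1 : q₁ ≤ q := (le_max_left _ _).trans ((le_max_left _ _).trans hq)
  have hq1' : q₁' ≤ q := (le_max_right _ _).trans ((le_max_left _ _).trans hq)
  obtain ⟨T, Q, hT, hQ3, hT15, hQ15, ht15, hx4, hx1⟩ := hq₂ q ((le_max_right _ _).trans hq) p
  have hqr : (0 : ℝ) < q := by linarith
  have hq0 : 0 < q := by exact_mod_cast hqr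
  set x : ℝ := (q : ℝ) with hxdef
  have hx15 : 0 < x ^ (0.15 : ℝ) := by positivity
  have hTpos : (0 : ℝ) < T.card := lt_of_lt_of_le hx15 hT15
  have hT0 : T.Nonempty := by
    rw [← Finset.card_pos]
    exact_mod_cast hTpos
  have hV : 0 < V q g := V_pos q g
  have hV' : 0 < V q g' := V_pos q g'
  obtain ⟨K, hKdef⟩ : ∃ K : Fin (g + g') → ℕ, K = Fin.append (bd q g) (bd q g') := ⟨_, rfl⟩
  have hKl : ∀ i : Fin g, K (Fin.castAdd g' i) = bd q g i := fun i => by rw [hKdef, Fin.append_left]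
  have hKr : ∀ i : Fin g', K (Fin.natAdd g i) = bd q g' i := fun i => by rw [hKdef, Fin.append_right]
  have hK : ∀ i : Fin (g + g'), Q ^ 3 ≤ 2 * K i + 1 := by
    intro i
    refine Fin.addCases (fun i => ?_) (fun i => ?_) i
    · have h1 := tt_le_bd q g i
      rw [hKl]
      omega
    · have h1 := tt_le_bd q g' i
      rw [hKr]
      omega
  have hT' : ∀ ℓ ∈ T, ℓ.Prime ∧ 3 ≤ ℓ ∧ ℓ ≠ p := fun ℓ hℓ =>
    ⟨(hT ℓ hℓ).1, (le_max_right _ _).trans (hT ℓ hℓ).2.1, (hT ℓ hℓ).2.2.1⟩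
  have hTL : ∀ ℓ ∈ T, L ≤ ℓ := fun ℓ hℓ => (le_max_left _ _).trans (hT ℓ hℓ).2.1
  have hsv := sieve2 T hT0 (fun ℓ hℓ => (hT ℓ hℓ).1) Q (fun ℓ hℓ => (hT ℓ hℓ).2.2.2) δ hδ0
    (fun ℓ => PairSet q g g' ℓ)
    (fun ℓ hℓ => hgood ℓ (hT ℓ hℓ).1 (hTL ℓ hℓ) q (prime_not_dvd hp hqp (hT ℓ hℓ).1 (hT ℓ hℓ).2.2.1))
    K hK
  have hfin3 : {b : Fin (g + g') → ℤ | (∀ i, |b i| ≤ K i) ∧ ∀ ℓ ∈ T, (fun i => (b i : ZMod ℓ)) ∉
        PairSet q g g' ℓ}.Finite := by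
    refine (Set.Finite.pi' (fun i : Fin (g + g') => Set.finite_Icc (-(K i : ℤ)) (K i))).subset fun b hb i => ?_
    have h := _root_.abs_le.mp (hb.1 i)
    exact ⟨h.1, h.2⟩
  have hcard : {x : (Fin g → ℤ) × (Fin g' → ℤ) | IsWeil q x.1 ∧ IsWeil q x.2 ∧ ∀ ℓ : ℕ, ℓ.Prime → ℓ ≠ 2 →
        ¬ (Split q ℓ (fun i => (x.1 i : ZMod ℓ)) ∧ Good q ℓ (fun i => (x.2 i : ZMod ℓ)))}.ncard ≤
      {b : Fin (g + g') → ℤ | (∀ i, |b i| ≤ K i) ∧ ∀ ℓ ∈ T, (fun i => (b i : ZMod ℓ)) ∉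
        PairSet q g g' ℓ}.ncard := by
    rw [← Set.ncard_image_of_injective _ (CPair_inj (R := ℤ) (g := g) (g' := g'))]
    refine Set.ncard_le_ncard ?_ hfin3
    rintro _ ⟨⟨y, z⟩, ⟨hy, hz, hyz⟩, rfl⟩
    refine ⟨fun i => ?_, fun ℓ hℓ hmem => ?_⟩
    · refine Fin.addCases (fun i => ?_) (fun i => ?_) i
      · show |Fin.append y z (Fin.castAdd g' i)| ≤ K (Fin.castAdd g' i)
        rw [Fin.append_left, hKl]
        exact AR.abs_le hy i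
      · show |Fin.append y z (Fin.natAdd g i)| ≤ K (Fin.natAdd g i)
        rw [Fin.append_right, hKr]
        exact AR.abs_le hz i
    · obtain ⟨h1, h2⟩ := hmem
      refine hyz ℓ (hT' ℓ hℓ).1 (by have := (hT' ℓ hℓ).2.1; omega) ⟨?_, ?_⟩
      · simp only [Fin.append_left] at h1
        exact h1
      · simp only [Fin.append_right] at h2
        exact h2
  have h4 := card_box q g
  have h4' := card_box q g'
  rw [← hBdef] at h4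
  rw [← hBdef'] at h4'
  have h5 := hord q hq1 p hp.two_le
  have h5' := hord' q hq1' p hp.two_le
  have hQpos : (0 : ℝ) < Q := lt_of_lt_of_le hx15 hQ15
  have e1 : 1 / (δ ^ 2 * T.card) ≤ 1 / δ ^ 2 / x ^ (0.15 : ℝ) := by
    rw [div_div]
    exact one_div_le_one_div_of_le (by positivity)
      (mul_le_mul_of_nonneg_left hT15 (by positivity))
  have e2 : 3 * 2 ^ (g + g') / (Q : ℝ) ≤ 3 * 2 ^ (g + g') / x ^ (0.15 : ℝ) :=
    div_le_div_of_nonneg_left (by positivity) hx15 hQ15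
  have hp0 : (0 : ℝ) ≤ ∏ i : Fin g, (2 * (bd q g i : ℝ) + 1) := Finset.prod_nonneg fun i _ => by positivity
  have hp0' : (0 : ℝ) ≤ ∏ i : Fin g', (2 * (bd q g' i : ℝ) + 1) := Finset.prod_nonneg fun i _ => by positivity
  have hprod : ∏ i, (2 * (K i : ℝ) + 1) =
      (∏ i : Fin g, (2 * (bd q g i : ℝ) + 1)) * ∏ i : Fin g', (2 * (bd q g' i : ℝ) + 1) := by
    rw [Fin.prod_univ_add]
    simp only [hKl, hKr]
  have hprod2 : ∏ i, (2 * (K i : ℝ) + 1) ≤ (B * V q g) * (B' * V q g') := by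
    rw [hprod]
    exact mul_le_mul h4 h4' hp0' (by positivity)
  have hprod0 : 0 ≤ ∏ i, (2 * (K i : ℝ) + 1) := by
    rw [hprod]
    exact mul_nonneg hp0 hp0'
  have hcardr : ({x : (Fin g → ℤ) × (Fin g' → ℤ) | IsWeil q x.1 ∧ IsWeil q x.2 ∧ ∀ ℓ : ℕ, ℓ.Prime → ℓ ≠ 2 →
        ¬ (Split q ℓ (fun i => (x.1 i : ZMod ℓ)) ∧ Good q ℓ (fun i => (x.2 i : ZMod ℓ)))}.ncard : ℝ) ≤
      C₃ * (V q g * V q g') / x ^ (0.15 : ℝ) := by
    refine (show _ ≤ _ by exact_mod_cast hcard).trans (hsv.trans ?_)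
    calc (1 / (δ ^ 2 * T.card) + 3 * 2 ^ (g + g') / Q) * ∏ i, (2 * (K i : ℝ) + 1)
        ≤ (1 / δ ^ 2 / x ^ (0.15 : ℝ) + 3 * 2 ^ (g + g') / x ^ (0.15 : ℝ)) * ((B * V q g) * (B' * V q g')) :=
          mul_le_mul (add_le_add e1 e2) hprod2 hprod0 (by positivity)
      _ = C₃ * (V q g * V q g') / x ^ (0.15 : ℝ) := by rw [hC₃]; ring
  refine hcardr.trans ?_
  have hx7 : x ^ (0.15 : ℝ) = x ^ (0.15 - 1 / 7 : ℝ) * x ^ (1 / 7 : ℝ) := by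
    rw [← Real.rpow_add hqr]
    norm_num
  have hcc : 0 < c * c' := mul_pos hc hc'
  have hC3 : C₃ ≤ c * c' * x ^ (0.15 - 1 / 7 : ℝ) := by
    rw [div_le_iff₀ hcc] at hx4
    linarith
  have hx7pos : 0 < x ^ (1 / 7 : ℝ) := by positivity
  have hx8pos : 0 < x ^ (0.15 - 1 / 7 : ℝ) := by positivity
  calc C₃ * (V q g * V q g') / x ^ (0.15 : ℝ) ≤
      (c * c' * x ^ (0.15 - 1 / 7 : ℝ)) * (V q g * V q g') / x ^ (0.15 : ℝ) := by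
        gcongr
    _ = x ^ (-(1 / 7) : ℝ) * ((c * V q g) * (c' * V q g')) := by
        rw [hx7, Real.rpow_neg hqr.le]
        field_simp
    _ ≤ _ := by
        refine mul_le_mul_of_nonneg_left ?_ (by positivity)
        exact mul_le_mul h5 h5' (by positivity) (Nat.cast_nonneg _)

end Pool.Agent.MP_4960c7.AR
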