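import Pool.Agent.Lib.MP_4960c7_ag.AR.Rate
import Pool.Agent.Lib.MP_4960c7_ag.AR.CDefs

/-!
# Few real Weil polynomials are not generic
-/

namespace Pool.Agent.MP_4960c7.AR

open Polynomial

/-- the parameters of the sieve for large `q` -/
theorem params (S : ℕ) (C : ℝ) : ∃ q₂ : ℕ, ∀ q : ℕ, q₂ ≤ q → ∀ p : ℕ, ∃ (T : Finset ℕ) (Q : ℕ),
    (∀ ℓ ∈ T, ℓ.Prime ∧ S ≤ ℓ ∧ ℓ ≠ p ∧ ℓ ≤ Q) ∧ Q ^ 3 ≤ tt q ∧ (q : ℝ) ^ (0.15 : ℝ) ≤ T.card ∧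
      (q : ℝ) ^ (0.15 : ℝ) ≤ Q ∧ (q : ℝ) ^ (0.15 : ℝ) ≤ tt q ∧ C ≤ (q : ℝ) ^ (0.15 - 1 / 7 : ℝ) ∧
        (1 : ℝ) ≤ q := by
  obtain ⟨N₀, hN₀⟩ := Filter.eventually_atTop.1 (pi_lower ((S : ℝ) + 1))
  obtain ⟨x₀, hx₀⟩ := Filter.eventually_atTop.1 (large_aux N₀ C)
  obtain ⟨q₂, hq₂⟩ := exists_nat_ge x₀
  refine ⟨q₂, fun q hq p => ?_⟩
  have hqx : x₀ ≤ (q : ℝ) := hq₂.trans (by exact_mod_cast hq)
  obtain ⟨hx1, hx2, hx3, hx4⟩ := hx₀ q hqx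
  have hq0 : 0 < q := by
    have : (0 : ℝ) < q := by linarith
    exact_mod_cast this
  have hqr : (0 : ℝ) < q := by exact_mod_cast hq0
  set x : ℝ := (q : ℝ) with hxdef
  have htt : (0 : ℝ) < tt q := by
    unfold tt
    positivity
  have htq : x ^ (1 / 2 : ℝ) ≤ tt q := by
    rw [← Real.sqrt_eq_rpow, hxdef]
    have h1 : q < tt q ^ 2 := by
      unfold tt
      exact Nat.lt_succ_sqrt' q
    rw [Real.sqrt_le_left htt.le]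
    exact_mod_cast h1.le
  obtain ⟨Q, hQdef⟩ : ∃ Q : ℕ, Q = ⌊(tt q : ℝ) ^ (1 / 3 : ℝ)⌋₊ := ⟨_, rfl⟩
  have hQle : (Q : ℝ) ≤ (tt q : ℝ) ^ (1 / 3 : ℝ) := by
    rw [hQdef]
    exact Nat.floor_le (by positivity)
  have hQ3 : Q ^ 3 ≤ tt q := by
    have h1 : (Q : ℝ) ^ 3 ≤ ((tt q : ℝ) ^ (1 / 3 : ℝ)) ^ 3 := pow_le_pow_left₀ (by positivity) hQle 3
    have h2 : ((tt q : ℝ) ^ (1 / 3 : ℝ)) ^ 3 = tt q := by
      rw [← Real.rpow_natCast, ← Real.rpow_mul htt.le]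
      norm_num
    rw [h2] at h1
    exact_mod_cast h1
  have hQge : x ^ (0.16 : ℝ) ≤ Q := by
    have h1 : (tt q : ℝ) ^ (1 / 3 : ℝ) < Q + 1 := by
      rw [hQdef]
      exact Nat.lt_floor_add_one _
    have h2 : x ^ (1 / 6 : ℝ) ≤ (tt q : ℝ) ^ (1 / 3 : ℝ) := by
      calc x ^ (1 / 6 : ℝ) = (x ^ (1 / 2 : ℝ)) ^ (1 / 3 : ℝ) := by
            rw [← Real.rpow_mul hqr.le]
            norm_num
        _ ≤ (tt q : ℝ) ^ (1 / 3 : ℝ) := Real.rpow_le_rpow (by positivity) htq (by norm_num)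
    linarith
  have hQN : N₀ ≤ Q := by
    have : (N₀ : ℝ) ≤ Q := hx3.trans hQge
    exact_mod_cast this
  have hpow : x ^ (0.15 : ℝ) ≤ x ^ (0.16 : ℝ) := Real.rpow_le_rpow_of_exponent_le hx1 (by norm_num)
  have hQ15 : x ^ (0.15 : ℝ) ≤ Q := hpow.trans hQge
  have ht15 : x ^ (0.15 : ℝ) ≤ tt q :=
    (Real.rpow_le_rpow_of_exponent_le hx1 (by norm_num)).trans htq
  obtain ⟨T, hT, hTc⟩ := exists_primes S Q p
  have hT15 : x ^ (0.15 : ℝ) ≤ T.card := by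
    have h1 := hN₀ Q hQN
    have h2 : (Nat.primeCounting Q : ℝ) ≤ T.card + S + 1 := by exact_mod_cast hTc
    have h3 : x ^ (0.15 : ℝ) ≤ (Q : ℝ) ^ (0.95 : ℝ) := by
      calc x ^ (0.15 : ℝ) ≤ x ^ (0.16 * 0.95 : ℝ) :=
            Real.rpow_le_rpow_of_exponent_le hx1 (by norm_num)
        _ = (x ^ (0.16 : ℝ)) ^ (0.95 : ℝ) := by rw [← Real.rpow_mul hqr.le]
        _ ≤ (Q : ℝ) ^ (0.95 : ℝ) := Real.rpow_le_rpow (by positivity) hQge (by norm_num)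
    linarith
  exact ⟨T, Q, hT, hQ3, hT15, hQ15, ht15, hx4, hx1⟩

theorem tt_le_bd (q g : ℕ) (i : Fin g) : tt q ≤ bd q g i := by
  unfold bd
  have h2 : tt q ^ 1 ≤ tt q ^ (g - (i : ℕ)) :=
    Nat.pow_le_pow_right (by unfold tt; omega) (by have := i.2; omega)
  rw [pow_one] at h2
  exact h2.trans (Nat.le_mul_of_pos_left _ (by positivity))

theorem V_pos (q g : ℕ) : 0 < V q g := by
  unfold V tt
  positivity

theorem prime_not_dvd {q p a ℓ : ℕ} (hp : p.Prime) (hq : q = p ^ a) (hℓ : ℓ.Prime) (hne : ℓ ≠ p) : ¬ ℓ ∣ q := by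
  rw [hq]
  intro hd
  exact hne ((Nat.prime_dvd_prime_iff_eq hℓ hp).mp (hℓ.dvd_of_dvd_pow hd))

/-- a polynomial which is not generic is reducible, or its constant term is divisible, or it is bad at all
primes of `T` -/
theorem sing_cover {g q p a : ℕ} (hg : 0 < g) (hp : p.Prime) (hq : q = p ^ a) (T : Finset ℕ)
    (hT : ∀ ℓ ∈ T, ℓ.Prime ∧ 3 ≤ ℓ ∧ ℓ ≠ p) :
    {b : Fin g → ℤ | IsWeil q b ∧ ¬ Generic q b} ⊆
      ({b : Fin g → ℤ | IsWeil q b ∧ ¬ Irreducible (pol b)} ∪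
        {b : Fin g → ℤ | (∀ i, |b i| ≤ bd q g i) ∧ (q : ℤ) ^ g ∣ b ⟨0, hg⟩ ^ 2}) ∪
      {b : Fin g → ℤ | (∀ i, |b i| ≤ bd q g i) ∧ ∀ ℓ ∈ T, (fun i => (b i : ZMod ℓ)) ∉
        {c : Fin g → ZMod ℓ | Good q ℓ c}} := by
  rintro b ⟨hW, hM⟩
  by_contra hcon
  rw [Set.mem_union, Set.mem_union] at hcon
  push Not at hcon
  obtain ⟨⟨h1, h2⟩, h3⟩ := hcon
  have hbox : ∀ i, |b i| ≤ bd q g i := fun i => AR.abs_le hW i
  apply hM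
  refine ⟨?_, ?_, ?_⟩
  · by_contra hi
    exact h1 ⟨hW, hi⟩
  · intro _ hd
    exact h2 ⟨hbox, hd⟩
  · by_contra hno
    push Not at hno
    refine h3 ⟨hbox, fun ℓ hℓ hgood => ?_⟩
    obtain ⟨hℓp, hℓ3, hℓne⟩ := hT ℓ hℓ
    exact hno ℓ hℓp (by omega) (prime_not_dvd hp hq hℓp hℓne) hgood

/-- few real Weil polynomials of degree `g` are not generic -/
theorem single (g : ℕ) (hg : 0 < g) : ∃ q₀ : ℕ, ∀ q : ℕ, q₀ ≤ q → ∀ p a : ℕ, p.Prime → q = p ^ a →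
    ({b : Fin g → ℤ | IsWeil q b ∧ ¬ Generic q b}.ncard : ℝ) ≤
      (q : ℝ) ^ (-(1 / 7) : ℝ) *
        ({b : Fin g → ℤ | IsWeil q b ∧ ¬ (p : ℤ) ∣ b ⟨0, hg⟩}.ncard : ℝ) := by
  obtain ⟨c, hc, q₁, hord⟩ := ordinary g hg
  obtain ⟨C₁, hC₁⟩ := reducible g hg
  obtain ⟨C₂, hC₂⟩ := square_div g hg
  obtain ⟨δ, hδ0, hδ1, L, hgood⟩ := good_count g hg
  obtain ⟨B, hBdef⟩ : ∃ B : ℝ, B = (3 * 4 ^ g) ^ g := ⟨_, rfl⟩
  have hB : 0 < B := by rw [hBdef]; positivity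
  obtain ⟨C₃, hC₃⟩ : ∃ C₃ : ℝ, C₃ = |C₁| + |C₂| + (1 / δ ^ 2 + 3 * 2 ^ g) * B := ⟨_, rfl⟩
  obtain ⟨q₂, hq₂⟩ := params (max L 3) (C₃ / c)
  refine ⟨max q₁ q₂, fun q hq p a hp hqp => ?_⟩
  have hq1 : q₁ ≤ q := (le_max_left _ _).trans hq
  obtain ⟨T, Q, hT, hQ3, hT15, hQ15, ht15, hx4, hx1⟩ := hq₂ q ((le_max_right _ _).trans hq) p
  have hqr : (0 : ℝ) < q := by linarith
  have hq0 : 0 < q := by exact_mod_cast hqr
  set x : ℝ := (q : ℝ) with hxdef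
  have hx15 : 0 < x ^ (0.15 : ℝ) := by positivity
  have hTpos : (0 : ℝ) < T.card := lt_of_lt_of_le hx15 hT15
  have hT0 : T.Nonempty := by
    rw [← Finset.card_pos]
    exact_mod_cast hTpos
  have hV : 0 < V q g := V_pos q g
  have hK : ∀ i : Fin g, Q ^ 3 ≤ 2 * bd q g i + 1 := by
    intro i
    have h1 := tt_le_bd q g i
    omega
  have hT' : ∀ ℓ ∈ T, ℓ.Prime ∧ 3 ≤ ℓ ∧ ℓ ≠ p := fun ℓ hℓ =>
    ⟨(hT ℓ hℓ).1, (le_max_right _ _).trans (hT ℓ hℓ).2.1, (hT ℓ hℓ).2.2.1⟩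
  have hTL : ∀ ℓ ∈ T, L ≤ ℓ := fun ℓ hℓ => (le_max_left _ _).trans (hT ℓ hℓ).2.1
  have hcov := sing_cover hg hp hqp T hT'
  have hsv := sieve2 T hT0 (fun ℓ hℓ => (hT ℓ hℓ).1) Q (fun ℓ hℓ => (hT ℓ hℓ).2.2.2) δ hδ0
    (fun ℓ => {c : Fin g → ZMod ℓ | Good q ℓ c})
    (fun ℓ hℓ => hgood ℓ (hT ℓ hℓ).1 (hTL ℓ hℓ) q (prime_not_dvd hp hqp (hT ℓ hℓ).1 (hT ℓ hℓ).2.2.1))
    (bd q g) hK
  have hfin1 : {b : Fin g → ℤ | IsWeil q b ∧ ¬ Irreducible (pol b)}.Finite :=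
    (finite_weil q g).subset fun _ hb => hb.1
  have hfin2 : {b : Fin g → ℤ | (∀ i, |b i| ≤ bd q g i) ∧ (q : ℤ) ^ g ∣ b ⟨0, hg⟩ ^ 2}.Finite :=
    (fin_box q g).subset fun _ hb => hb.1
  have hfin3 : {b : Fin g → ℤ | (∀ i, |b i| ≤ bd q g i) ∧ ∀ ℓ ∈ T, (fun i => (b i : ZMod ℓ)) ∉
        {c : Fin g → ZMod ℓ | Good q ℓ c}}.Finite :=
    (fin_box q g).subset fun _ hb => hb.1
  have hcard := Set.ncard_le_ncard hcov ((hfin1.union hfin2).union hfin3)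
  have hcard2 := hcard.trans ((Set.ncard_union_le _ _).trans (Nat.add_le_add_right (Set.ncard_union_le _ _) _))
  have h1 := hC₁ q
  have h2 := hC₂ q hq0
  have h4 := card_box q g
  rw [← hBdef] at h4
  have h5 := hord q hq1 p hp.two_le
  generalize hn1 : ({b : Fin g → ℤ | IsWeil q b ∧ ¬ Irreducible (pol b)}.ncard) = n1 at h1 hcard2
  generalize hn2 : ({b : Fin g → ℤ | (∀ i, |b i| ≤ bd q g i) ∧ (q : ℤ) ^ g ∣ b ⟨0, hg⟩ ^ 2}.ncard) = n2 at h2 hcard2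
  generalize hn3 : ({b : Fin g → ℤ | (∀ i, |b i| ≤ bd q g i) ∧ ∀ ℓ ∈ T, (fun i => (b i : ZMod ℓ)) ∉
        {c : Fin g → ZMod ℓ | Good q ℓ c}}.ncard) = n3 at hsv hcard2
  have hcard3 : ({b : Fin g → ℤ | IsWeil q b ∧ ¬ Generic q b}.ncard : ℝ) ≤ (n1 : ℝ) + n2 + n3 := by
    exact_mod_cast hcard2
  -- all three terms are at most a constant times `V / x ^ 0.15`
  have hsmall : (n1 : ℝ) + n2 ≤ (|C₁| + |C₂|) * V q g / x ^ (0.15 : ℝ) := by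
    rw [le_div_iff₀ hx15]
    have e1 : C₁ * V q g ≤ |C₁| * V q g := mul_le_mul_of_nonneg_right (le_abs_self _) hV.le
    have e2 : C₂ * V q g ≤ |C₂| * V q g := mul_le_mul_of_nonneg_right (le_abs_self _) hV.le
    have e3 : ((n1 : ℝ) + n2) * x ^ (0.15 : ℝ) ≤ ((n1 : ℝ) + n2) * tt q :=
      mul_le_mul_of_nonneg_left ht15 (by positivity)
    linarith
  have hbig : (n3 : ℝ) ≤ (1 / δ ^ 2 + 3 * 2 ^ g) * B * V q g / x ^ (0.15 : ℝ) := by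
    have hQpos : (0 : ℝ) < Q := lt_of_lt_of_le hx15 hQ15
    have e1 : 1 / (δ ^ 2 * T.card) ≤ 1 / δ ^ 2 / x ^ (0.15 : ℝ) := by
      rw [div_div]
      exact one_div_le_one_div_of_le (by positivity)
        (mul_le_mul_of_nonneg_left hT15 (by positivity))
    have e2 : 3 * 2 ^ g / (Q : ℝ) ≤ 3 * 2 ^ g / x ^ (0.15 : ℝ) :=
      div_le_div_of_nonneg_left (by positivity) hx15 hQ15
    have hp0 : (0 : ℝ) ≤ ∏ i : Fin g, (2 * (bd q g i : ℝ) + 1) := Finset.prod_nonneg fun i _ => by positivity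
    calc (n3 : ℝ) ≤ (1 / (δ ^ 2 * T.card) + 3 * 2 ^ g / Q) * ∏ i : Fin g, (2 * (bd q g i : ℝ) + 1) := hsv
      _ ≤ (1 / δ ^ 2 / x ^ (0.15 : ℝ) + 3 * 2 ^ g / x ^ (0.15 : ℝ)) * (B * V q g) :=
          mul_le_mul (add_le_add e1 e2) h4 hp0 (by positivity)
      _ = (1 / δ ^ 2 + 3 * 2 ^ g) * B * V q g / x ^ (0.15 : ℝ) := by ring
  have htotal : ({b : Fin g → ℤ | IsWeil q b ∧ ¬ Generic q b}.ncard : ℝ) ≤
      C₃ * V q g / x ^ (0.15 : ℝ) := by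
    have e1 : C₃ * V q g / x ^ (0.15 : ℝ) = (|C₁| + |C₂|) * V q g / x ^ (0.15 : ℝ) +
        (1 / δ ^ 2 + 3 * 2 ^ g) * B * V q g / x ^ (0.15 : ℝ) := by
      rw [hC₃]; ring
    rw [e1]
    linarith
  refine htotal.trans ?_
  have hx7 : x ^ (0.15 : ℝ) = x ^ (0.15 - 1 / 7 : ℝ) * x ^ (1 / 7 : ℝ) := by
    rw [← Real.rpow_add hqr]
    norm_num
  have hC3 : C₃ ≤ c * x ^ (0.15 - 1 / 7 : ℝ) := by
    rw [div_le_iff₀ hc] at hx4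
    linarith
  have hx7pos : 0 < x ^ (1 / 7 : ℝ) := by positivity
  have hx8pos : 0 < x ^ (0.15 - 1 / 7 : ℝ) := by positivity
  calc C₃ * V q g / x ^ (0.15 : ℝ) ≤ (c * x ^ (0.15 - 1 / 7 : ℝ)) * V q g / x ^ (0.15 : ℝ) := by
        gcongr
    _ = x ^ (-(1 / 7) : ℝ) * (c * V q g) := by
        rw [hx7, Real.rpow_neg hqr.le]
        field_simp
    _ ≤ _ := mul_le_mul_of_nonneg_left h5 (by positivity)

end Pool.Agent.MP_4960c7.AR
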