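import Pool.Agent.Lib.MP_4960c7_ag.AR.CDefs
import Pool.Agent.Lib.MP_4960c7_ag.AR.CW
import Pool.Agent.Lib.MP_4960c7_ag.WR.Ring

/-!
# Joint maximal angle rank implies that all Tate classes are polynomials in those of degree two
-/

namespace Pool.Agent.MP_4960c7.AR

open Polynomial

/-- For every finite-dimensional complex vector space `V` with a diagonalisable endomorphism `Fr` all of whose
eigenvalues are Frobenius eigenvalues of members of the tuple (i.e. `x + q / x` is a root of some `pol (b l)`) or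
supersingular (`x ^ (2 M) = q ^ M`, `M ≥ 1`), all Tate classes of the exterior algebra of `V` are
polynomials in the Tate classes of degree two. -/
def TateForProducts (q : ℕ) {k : ℕ} {g : Fin k → ℕ} (b : ∀ i, Fin (g i) → ℤ) : Prop :=
  ∀ (V : Type) [AddCommGroup V] [Module ℂ V] [FiniteDimensional ℂ V] (Fr : V →ₗ[ℂ] V),
    (∃ (I : Type) (B : Module.Basis I ℂ V) (e : I → ℂ), ∀ i, Fr (B i) = e i • B i ∧
      ((e i ≠ 0 ∧ ∃ l, aeval (e i + q / e i) (pol (b l)) = 0) ∨
        ∃ M : ℕ, 0 < M ∧ e i ^ (2 * M) = (q : ℂ) ^ M)) →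
    TateGeneratedInDegreeTwo q Fr

private theorem CTate_field {α : Type} [Finite α] (w : α → ℂ) (hint : ∀ s, IsIntegral ℚ (w s)) :
    ∃ K : IntermediateField ℚ ℂ, NumberField K ∧ ∀ s, w s ∈ K := by
  have : Fintype α := Fintype.ofFinite α
  set P : ℚ[X] := ∏ s, minpoly ℚ (w s) with hP
  have hP0 : P ≠ 0 := Finset.prod_ne_zero_iff.2 fun s _ => minpoly.ne_zero (hint s)
  let K : IntermediateField ℚ ℂ := IntermediateField.adjoin ℚ (P.rootSet ℂ)
  have hsplit' : IsSplittingField ℚ K P :=
    IntermediateField.adjoin_rootSet_isSplittingField (IsAlgClosed.splits _)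
  have hfin : FiniteDimensional ℚ K := IsSplittingField.finiteDimensional K P
  have hnf : NumberField K := { }
  refine ⟨K, hnf, fun s => ?_⟩
  refine IntermediateField.subset_adjoin ℚ _ ?_
  rw [mem_rootSet]
  refine ⟨hP0, ?_⟩
  rw [hP, map_prod]
  exact Finset.prod_eq_zero (Finset.mem_univ s) (minpoly.aeval ℚ (w s))

/-- a Frobenius eigenvalue has absolute value `√q` -/
private theorem CTate_norm {g q : ℕ} (hq : 0 < q) {b : Fin g → ℤ} (hW : IsWeil q b) {x : ℂ} (hx : x ≠ 0)
    (hr : aeval (x + q / x) (pol b) = 0) : ‖x ^ 2 / q‖ = 1 := by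
  obtain ⟨h1, h2⟩ := hW _ hr
  set β : ℝ := (x + q / x).re with hβ
  have h3 : x + q / x = (β : ℂ) := Complex.ext (by simp [hβ]) (by simp [h1])
  have h4 : x * x - β * x + q = 0 := by
    rw [← h3]
    field_simp
    ring
  have hqr : (0 : ℝ) < q := by exact_mod_cast hq
  have h5 : (starRingEnd ℂ x) * (starRingEnd ℂ x) - β * (starRingEnd ℂ x) + q = 0 := by
    have := congrArg (starRingEnd ℂ) h4
    simpa using this
  have h6 : (x - starRingEnd ℂ x) * (x + starRingEnd ℂ x - β) = 0 := by
    linear_combination h4 - h5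
  have h7 : x * starRingEnd ℂ x = q := by
    rcases mul_eq_zero.1 h6 with h | h
    · -- `x` is real
      have hc : starRingEnd ℂ x = x := (sub_eq_zero.1 h).symm
      obtain ⟨y, hy⟩ := Complex.conj_eq_iff_real.1 hc
      rw [hc]
      have h8 : y * y - β * y + q = 0 := by
        rw [hy] at h4
        exact_mod_cast h4
      have h9 : (2 * y - β) ^ 2 = 0 := by
        have : (2 * y - β) ^ 2 = β ^ 2 - 4 * q := by linear_combination 4 * h8
        refine le_antisymm ?_ (sq_nonneg _)
        rw [this]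
        linarith
      have h10 : 2 * y - β = 0 := pow_eq_zero_iff (two_ne_zero) |>.1 h9
      have h11 : y * y = q := by
        have : β = 2 * y := by linarith
        rw [this] at h8
        linarith
      rw [hy]
      exact_mod_cast h11
    · linear_combination (-1) * h4 + x * h
  have h8 : ‖x‖ ^ 2 = q := by
    have h9 : (x * starRingEnd ℂ x) = ((‖x‖ ^ 2 : ℝ) : ℂ) := by
      rw [Complex.mul_conj, Complex.normSq_eq_norm_sq]
    rw [h9] at h7
    exact_mod_cast h7
  rw [norm_div, norm_pow, h8, Complex.norm_natCast]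
  exact div_self hqr.ne'

private theorem CTate_single {α : Type} [Fintype α] [DecidableEq α] (u : α → ℂ) (s : α) (c : ℤ) :
    ∏ x, u x ^ (Pi.single s c : α → ℤ) x = u s ^ c := by
  rw [Finset.prod_eq_single s]
  · rw [Pi.single_eq_same]
  · intro x _ hx
    rw [Pi.single_eq_of_ne hx, zpow_zero]
  · intro h
    exact absurd (Finset.mem_univ s) h

theorem tate_of_joint {q : ℕ} (hq : 0 < q) {k : ℕ} {g : Fin k → ℕ} {b : ∀ i, Fin (g i) → ℤ}
    (hW : ∀ i, IsWeil q (b i)) (hJ : JointMaxAngleRank q b) : TateForProducts q b := by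
  classical
  intro V _ _ _ Fr hFr
  obtain ⟨I, B, e, he⟩ := hFr
  have hIfin : Finite I := Module.Finite.finite_basis B
  have hqC : (q : ℂ) ≠ 0 := by exact_mod_cast hq.ne'
  have hdd : ∀ x : ℂ, x ≠ 0 → (q : ℂ) / (q / x) = x := fun x hx => by field_simp
  choose w hw0 hb using fun i => exists_w hq (b i)
  -- the roots
  have hroot : ∀ i, ∀ z : ℂ, aeval z (pol (b i)) = 0 ↔ ∃ j, z = w i j + q / w i j := by
    intro i z
    have h1 : aeval z (pol (b i)) = eval z ((pol (b i)).map (Int.castRingHom ℂ)) := by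
      rw [eval_map]
      rfl
    rw [h1, hb, eval_prod, Finset.prod_eq_zero_iff]
    simp [sub_eq_zero]
  have htype : ∀ i, ∀ x : ℂ, x ≠ 0 → aeval (x + q / x) (pol (b i)) = 0 → ∃ j, x = w i j ∨ x = q / w i j := by
    intro i x hx hr
    obtain ⟨j, hj⟩ := (hroot i _).1 hr
    have hwj := hw0 i j
    have h2 : (x - w i j) * (x * w i j - q) = 0 := by
      field_simp at hj
      linear_combination hj
    rcases mul_eq_zero.1 h2 with h3 | h3
    · exact ⟨j, Or.inl (sub_eq_zero.1 h3)⟩
    · refine ⟨j, Or.inr ?_⟩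
      rw [eq_div_iff hwj]
      exact sub_eq_zero.1 h3
  -- everything indexed by the sigma type
  let α : Type := Σ i : Fin k, Fin (g i)
  let ws : α → ℂ := fun s => w s.1 s.2
  have hws0 : ∀ s, ws s ≠ 0 := fun s => hw0 s.1 s.2
  let u : α → ℂ := fun s => ws s ^ 2 / q
  have hu0 : ∀ s, u s ≠ 0 := fun s => div_ne_zero (pow_ne_zero 2 (hws0 s)) hqC
  have hu1 : ∀ s, ‖u s‖ = 1 := fun s =>
    CTate_norm hq (hW s.1) (hws0 s) ((hroot s.1 _).2 ⟨s.2, rfl⟩)
  have hJ' : ∀ n : α → ℤ, ∏ s, u s ^ n s = 1 → n = 0 := by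
    intro n hn
    have h1 := hJ w hw0 hb (fun i j => n ⟨i, j⟩) (by
      rw [← hn, Fintype.prod_sigma])
    funext s
    exact congrFun (congrFun h1 s.1) s.2
  have hne1 : ∀ s, ws s ≠ q / ws s := by
    intro s h
    have h1 : u s = 1 := by
      show ws s ^ 2 / q = 1
      have h2 : ws s * ws s = q := by
        have := hws0 s
        rw [eq_div_iff this] at h
        exact h
      rw [sq, h2, div_self hqC]
    have h2 := hJ' (Pi.single s 1) (by rw [CTate_single, h1, one_zpow])
    have h3 := congrFun h2 s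
    rw [Pi.single_eq_same] at h3
    exact one_ne_zero h3
  have hne2 : ∀ s t, s ≠ t → ws s ≠ ws t ∧ ws s ≠ q / ws t := by
    intro s t hst
    have key : ∀ c : ℤ, u s ^ (1 : ℤ) * u t ^ c ≠ 1 := by
      intro c h
      have h2 := hJ' (Pi.single s 1 + Pi.single t c) (by
        rw [← h, ← CTate_single u s 1, ← CTate_single u t c, ← Finset.prod_mul_distrib]
        refine Finset.prod_congr rfl fun x _ => ?_
        rw [← zpow_add₀ (hu0 x)]
        rfl)
      have h3 := congrFun h2 s
      rw [Pi.add_apply, Pi.single_eq_same, Pi.single_eq_of_ne hst, add_zero] at h3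
      exact one_ne_zero h3
    constructor
    · intro h
      apply key (-1)
      have h1 : u s = u t := by
        show ws s ^ 2 / q = ws t ^ 2 / q
        rw [h]
      rw [zpow_one, zpow_neg_one, h1]
      exact mul_inv_cancel₀ (hu0 t)
    · intro h
      apply key 1
      rw [zpow_one, zpow_one]
      show ws s ^ 2 / q * (ws t ^ 2 / q) = 1
      have := hws0 t
      rw [h]
      field_simp
  -- the number field
  have hwint : ∀ s, IsIntegral ℚ (ws s) := by
    intro s
    have hβ : IsIntegral ℚ (ws s + q / ws s) := by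
      refine ⟨(pol (b s.1)).map (algebraMap ℤ ℚ), (monic_X_pow_add (degree_sum_fin_lt (b s.1))).map _, ?_⟩
      rw [← eval_map, Polynomial.map_map]
      have h1 : (algebraMap ℚ ℂ).comp (algebraMap ℤ ℚ) = Int.castRingHom ℂ := RingHom.ext_int _ _
      rw [h1, hb, eval_prod]
      exact Finset.prod_eq_zero (Finset.mem_univ s.2) (by simp [ws])
    have h3 : IsIntegral ℚ ((2 * ws s - (ws s + q / ws s)) ^ 2) := by
      have h4 : (2 * ws s - (ws s + q / ws s)) ^ 2 = (ws s + q / ws s) ^ 2 - algebraMap ℚ ℂ (4 * q) := by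
        have := hws0 s
        rw [map_mul, map_natCast, map_ofNat]
        field_simp
        ring
      rw [h4]
      exact (hβ.pow 2).sub isIntegral_algebraMap
    have h5 : IsIntegral ℚ (2 * ws s - (ws s + q / ws s)) := IsIntegral.of_pow two_pos h3
    have h6 : ws s = algebraMap ℚ ℂ (1 / 2) * ((2 * ws s - (ws s + q / ws s)) + (ws s + q / ws s)) := by
      rw [map_div₀, map_one, map_ofNat]
      ring
    rw [h6]
    exact isIntegral_algebraMap.mul (h5.add hβ)
  have heint : ∀ i, IsIntegral ℚ (e i) := by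
    intro i
    rcases (he i).2 with ⟨h0, l, hl⟩ | ⟨M, hM, hM'⟩
    · obtain ⟨j, h | h⟩ := htype l (e i) h0 hl
      · rw [h]; exact hwint ⟨l, j⟩
      · rw [h, div_eq_mul_inv]
        have h1 : IsIntegral ℚ ((w l j)⁻¹) := by
          have h2 : IsAlgebraic ℚ (w l j) := (hwint ⟨l, j⟩).isAlgebraic
          exact h2.inv.isIntegral
        have h2 : IsIntegral ℚ ((q : ℂ)) := by
          have := isIntegral_algebraMap (R := ℚ) (A := ℂ) (x := (q : ℚ))
          rwa [map_natCast] at this
        exact h2.mul h1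
    · refine IsIntegral.of_pow (n := 2 * M) (by omega) ?_
      rw [hM']
      have := isIntegral_algebraMap (R := ℚ) (A := ℂ) (x := (q : ℚ))
      rw [map_natCast] at this
      exact this.pow M
  obtain ⟨K, hnf, hmem⟩ := CTate_field (Sum.elim ws e) (fun s => by
    cases s with
    | inl s => exact hwint s
    | inr i => exact heint i)
  have hwK : ∀ s, ws s ∈ K := fun s => hmem (Sum.inl s)
  have heK : ∀ i, e i ∈ K := fun i => hmem (Sum.inr i)
  let W : α → K := fun s => ⟨ws s, hwK s⟩
  have hWc : ∀ s, (algebraMap K ℂ) (W s) = ws s := fun s => rfl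
  have hinj : Function.Injective (algebraMap K ℂ) := (algebraMap K ℂ).injective
  have hqW : ∀ s, (algebraMap K ℂ) ((q : K) / W s) = q / ws s := fun s => by
    rw [map_div₀, map_natCast, hWc]
  have hqK : (q : K) ≠ 0 := by exact_mod_cast hq.ne'
  have hW0 : ∀ s, W s ≠ 0 := fun s h => hws0 s (by rw [← hWc, h, map_zero])
  have hddK : ∀ x : K, x ≠ 0 → (q : K) / (q / x) = x := fun x hx => by field_simp
  have hWinj : Function.Injective W := by
    intro s t h
    by_contra hst
    exact (hne2 s t hst).1 (by rw [← hWc, h, hWc])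
  have hVinj : Function.Injective fun s => (q : K) / W s := by
    intro s t h
    have h1 : (q : K) / W s = q / W t := h
    apply hWinj
    rw [← hddK (W s) (hW0 s), h1, hddK (W t) (hW0 t)]
  have hWV : ∀ s t, W s ≠ (q : K) / W t := by
    intro s t h
    have h1 := congrArg (algebraMap K ℂ) h
    rw [hqW, hWc] at h1
    by_cases hst : s = t
    · subst hst
      exact hne1 s h1
    · exact (hne2 s t hst).2 h1
  let X1 : Finset K := Finset.univ.image W
  let X2 : Finset K := Finset.univ.image fun s => (q : K) / W s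
  let X : Finset K := X1 ∪ X2
  have hmemX : ∀ x, x ∈ X ↔ ∃ s, x = W s ∨ x = q / W s := by
    intro x
    simp only [X, X1, X2, Finset.mem_union, Finset.mem_image, Finset.mem_univ, true_and]
    constructor
    · rintro (⟨s, h⟩ | ⟨s, h⟩)
      · exact ⟨s, Or.inl h.symm⟩
      · exact ⟨s, Or.inr h.symm⟩
    · rintro ⟨s, h | h⟩
      · exact Or.inl ⟨s, h.symm⟩
      · exact Or.inr ⟨s, h.symm⟩
  have hdisj : Disjoint X1 X2 := by
    rw [Finset.disjoint_left]
    intro x h1 h2
    obtain ⟨s, _, hs⟩ := Finset.mem_image.1 h1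
    obtain ⟨t, _, ht⟩ := Finset.mem_image.1 h2
    exact hWV s t (hs.trans ht.symm)
  have htriv : OnlyTrivialRelations q X := by
    intro n N m hN hrel x hx
    have hP : ∏ x ∈ X, x ^ n x = ∏ s, (W s ^ n (W s) * ((q : K) / W s) ^ n ((q : K) / W s)) := by
      rw [Finset.prod_union hdisj, Finset.prod_image fun s _ t _ h => hWinj h,
        Finset.prod_image fun s _ t _ h => hVinj h, Finset.prod_mul_distrib]
    rw [hP] at hrel
    have hrelC : (∏ s, (ws s ^ n (W s) * ((q : ℂ) / ws s) ^ n ((q : K) / W s))) ^ N = (q : ℂ) ^ m := by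
      have h1 := congrArg (algebraMap K ℂ) hrel
      rw [map_pow, map_prod, map_zpow₀, map_natCast] at h1
      rw [← h1]
      congr 1
    have hsq : (∏ s, (ws s ^ n (W s) * ((q : ℂ) / ws s) ^ n ((q : K) / W s))) ^ 2 =
        (∏ s, u s ^ (n (W s) - n ((q : K) / W s))) * (q : ℂ) ^ (∑ s, (n (W s) + n ((q : K) / W s))) := by
      rw [← Finset.prod_pow]
      have h1 : (q : ℂ) ^ (∑ s, (n (W s) + n ((q : K) / W s))) = ∏ s, (q : ℂ) ^ (n (W s) + n ((q : K) / W s)) := by
        classical
        have : ∀ t : Finset α, (q : ℂ) ^ (∑ s ∈ t, (n (W s) + n ((q : K) / W s))) =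
            ∏ s ∈ t, (q : ℂ) ^ (n (W s) + n ((q : K) / W s)) := by
          intro t
          induction t using Finset.induction_on with
          | empty => simp
          | insert a s ha ih => rw [Finset.sum_insert ha, Finset.prod_insert ha, zpow_add₀ hqC, ih]
        exact this Finset.univ
      rw [h1, ← Finset.prod_mul_distrib]
      refine Finset.prod_congr rfl fun s _ => ?_
      have hs0 := hws0 s
      have e1 : (ws s ^ n (W s)) ^ 2 = (ws s ^ 2) ^ n (W s) := by
        rw [← zpow_natCast, ← zpow_natCast, ← zpow_mul, ← zpow_mul, mul_comm]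
      have e2 : (((q : ℂ) / ws s) ^ n ((q : K) / W s)) ^ 2 = (((q : ℂ) / ws s) ^ 2) ^ n ((q : K) / W s) := by
        rw [← zpow_natCast, ← zpow_natCast, ← zpow_mul, ← zpow_mul, mul_comm]
      have e3 : ws s ^ 2 = u s * q := by
        show ws s ^ 2 = ws s ^ 2 / q * q
        field_simp
      have e4 : ((q : ℂ) / ws s) ^ 2 = (u s)⁻¹ * q := by
        show ((q : ℂ) / ws s) ^ 2 = (ws s ^ 2 / q)⁻¹ * q
        field_simp
      rw [mul_pow, e1, e2, e3, e4, mul_zpow, mul_zpow, inv_zpow, zpow_sub₀ (hu0 s), zpow_add₀ hqC]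
      field_simp
    have hpow : (∏ s, u s ^ (n (W s) - n ((q : K) / W s))) ^ N =
        (q : ℂ) ^ (2 * m - N * ∑ s, (n (W s) + n ((q : K) / W s))) := by
      have h1 : ((∏ s, (ws s ^ n (W s) * ((q : ℂ) / ws s) ^ n ((q : K) / W s))) ^ 2) ^ N = (q : ℂ) ^ (2 * m) := by
        rw [← pow_mul, mul_comm 2 N, pow_mul, hrelC, ← zpow_natCast, ← zpow_mul]
        congr 1
        push_cast
        ring
      rw [hsq, mul_pow] at h1
      rw [zpow_sub₀ hqC, eq_div_iff (zpow_ne_zero _ hqC), ← h1]
      congr 1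
      rw [← zpow_natCast ((q : ℂ) ^ (∑ s, (n (W s) + n ((q : K) / W s)))), ← zpow_mul]
      congr 1
      ring
    have habs : ‖(q : ℂ) ^ (2 * m - N * ∑ s, (n (W s) + n ((q : K) / W s)))‖ = 1 := by
      rw [← hpow, norm_pow, norm_prod]
      have : ∀ s : α, ‖u s ^ (n (W s) - n ((q : K) / W s))‖ = 1 := fun s => by
        rw [norm_zpow, hu1, one_zpow]
      rw [Finset.prod_congr rfl fun s _ => this s, Finset.prod_const_one, one_pow]
    have hone : (q : ℂ) ^ (2 * m - N * ∑ s, (n (W s) + n ((q : K) / W s))) = 1 := by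
      rw [norm_zpow, Complex.norm_natCast] at habs
      have h1 := congrArg (fun t : ℝ => (t : ℂ)) habs
      simp only [Complex.ofReal_zpow, Complex.ofReal_natCast, Complex.ofReal_one] at h1
      exact h1
    rw [hone] at hpow
    have hfin := hJ' (fun s => (n (W s) - n ((q : K) / W s)) * N) (by
      rw [← hpow, ← Finset.prod_pow]
      refine Finset.prod_congr rfl fun s _ => ?_
      rw [zpow_mul, zpow_natCast])
    have hNz : (N : ℤ) ≠ 0 := by exact_mod_cast hN.ne'
    have hall : ∀ s, n (W s) = n ((q : K) / W s) := by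
      intro s
      have h1 := congrFun hfin s
      have h2 : (n (W s) - n ((q : K) / W s)) * N = 0 := h1
      rcases mul_eq_zero.1 h2 with h | h
      · omega
      · exact absurd h hNz
    obtain ⟨s, h | h⟩ := (hmemX x).1 hx
    · rw [h]; exact hall s
    · rw [h, hddK (W s) (hW0 s)]; exact (hall s).symm
  refine tate_of_trivial (K := K) (F := ℂ) htriv hqK ?_ ?_ ?_ (algebraMap K ℂ) Fr ?_
  · intro x hx
    obtain ⟨s, h | h⟩ := (hmemX x).1 hx
    · rw [h]; exact hW0 s
    · rw [h]; exact div_ne_zero hqK (hW0 s)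
  · intro x hx
    obtain ⟨s, h | h⟩ := (hmemX x).1 hx
    · rw [h]; exact fun h' => hWV s s h'.symm
    · rw [h, hddK (W s) (hW0 s)]; exact hWV s s
  · intro x hx
    rw [hmemX]
    obtain ⟨s, h | h⟩ := (hmemX x).1 hx
    · exact ⟨s, Or.inr (by rw [h])⟩
    · exact ⟨s, Or.inl (by rw [h, hddK (W s) (hW0 s)])⟩
  · refine ⟨I, B, fun i => ⟨e i, heK i⟩, fun i => ⟨?_, (he i).1⟩⟩
    rcases (he i).2 with ⟨h0, l, hl⟩ | ⟨M, hM, hM'⟩
    · refine Or.inl ((hmemX _).2 ?_)
      obtain ⟨j, h | h⟩ := htype l (e i) h0 hl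
      · exact ⟨⟨l, j⟩, Or.inl (Subtype.ext h)⟩
      · refine ⟨⟨l, j⟩, Or.inr (hinj ?_)⟩
        rw [hqW]
        exact h
    · refine Or.inr ⟨M, hM, hinj ?_⟩
      rw [map_pow, map_pow, map_natCast]
      exact hM'

end Pool.Agent.MP_4960c7.AR
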