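import Pool.Agent.Lib.MP_4960c7_ag.AR.CTate

/-!
# Eigenvalues up to roots of unity: abelian varieties which become isogenous over a finite extension
-/

namespace Pool.Agent.MP_4960c7.AR

open Polynomial

/-- For every finite-dimensional complex vector space `V` with a diagonalisable endomorphism `Fr`, each of whose
eigenvalues has a power equal to the same power `x ^ M`, `M ≥ 1`, of a Frobenius eigenvalue `x` of a member of
the tuple (`x + q / x` is a root of some `pol (b l)`) or of an `x` with `x ^ 2 = q` (supersingular), all Tate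
classes of the exterior algebra of `V` are polynomials in the Tate classes of degree two. -/
def TateForTwists (q : ℕ) {k : ℕ} {g : Fin k → ℕ} (b : ∀ i, Fin (g i) → ℤ) : Prop :=
  ∀ (V : Type) [AddCommGroup V] [Module ℂ V] [FiniteDimensional ℂ V] (Fr : V →ₗ[ℂ] V),
    (∃ (I : Type) (B : Module.Basis I ℂ V) (e : I → ℂ), ∀ i, Fr (B i) = e i • B i ∧
      ∃ (M : ℕ) (x : ℂ), 0 < M ∧ e i ^ M = x ^ M ∧
        (x ^ 2 = q ∨ x ≠ 0 ∧ ∃ l, aeval (x + q / x) (pol (b l)) = 0)) →
    TateGeneratedInDegreeTwo q Fr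

section

variable {V : Type} [AddCommGroup V] [Module ℂ V]

private theorem CTwist_iter (f : V →ₗ[ℂ] V) (n : ℕ) (z : ExteriorAlgebra ℂ V) :
    (ExteriorAlgebra.map f)^[n] z = ExteriorAlgebra.map (f ^ n) z := by
  induction n generalizing z with
  | zero =>
    rw [Function.iterate_zero, id, pow_zero, Module.End.one_eq_id, ExteriorAlgebra.map_id]
    rfl
  | succ n ih =>
    rw [Function.iterate_succ_apply, ih, pow_succ, Module.End.mul_eq_comp, ← ExteriorAlgebra.map_comp_map]
    rfl

private theorem CTwist_isTate (q : ℕ) {f f' : V →ₗ[ℂ] V} {N : ℕ} (hN : 0 < N) (h : f ^ N = f' ^ N)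
    (k : ℕ) (z : ExteriorAlgebra ℂ V) (hz : IsTate q f k z) : IsTate q f' k z := by
  obtain ⟨h1, n, hn, h2⟩ := hz
  refine ⟨h1, n * N, Nat.mul_pos hn hN, ?_⟩
  have key : ∀ m : ℕ, (ExteriorAlgebra.map f)^[n * m] z = ((q : ℂ) ^ (k * n)) ^ m • z := by
    intro m
    induction m with
    | zero => rw [Nat.mul_zero, Function.iterate_zero, id, pow_zero, one_smul]
    | succ m ih =>
      rw [Nat.mul_succ, Nat.add_comm, Function.iterate_add_apply, ih]
      have h3 : ∀ (t : ℕ) (c : ℂ) (y : ExteriorAlgebra ℂ V),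
          (ExteriorAlgebra.map f)^[t] (c • y) = c • (ExteriorAlgebra.map f)^[t] y := by
        intro t c y
        rw [CTwist_iter, CTwist_iter, map_smul]
      rw [h3, h2, smul_smul, pow_succ]
  rw [CTwist_iter, mul_comm n N, pow_mul, ← h, ← pow_mul, ← CTwist_iter, mul_comm N n, key, ← pow_mul,
    mul_assoc]

end

theorem tateForTwists {q : ℕ} {k : ℕ} {g : Fin k → ℕ} {b : ∀ i, Fin (g i) → ℤ}
    (hT : TateForProducts q b) : TateForTwists q b := by
  classical
  intro V _ _ _ Fr hFr
  obtain ⟨I, B, e, he⟩ := hFr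
  have hI : Finite I := Module.Finite.finite_basis B
  have : Fintype I := Fintype.ofFinite I
  choose M x hx using fun i => (he i).2
  set Fr' : V →ₗ[ℂ] V := B.constr ℂ fun i => x i • B i with hFr'
  have hFr'B : ∀ i, Fr' (B i) = x i • B i := fun i => by rw [hFr', Module.Basis.constr_basis]
  have hT' : TateGeneratedInDegreeTwo q Fr' := by
    refine hT V Fr' ⟨I, B, x, fun i => ⟨hFr'B i, ?_⟩⟩
    rcases (hx i).2.2 with h | h
    · refine Or.inr ⟨1, one_pos, ?_⟩
      rw [mul_one, pow_one, h]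
    · exact Or.inl h
  set N : ℕ := ∏ i, M i with hN
  have hN0 : 0 < N := Finset.prod_pos fun i _ => (hx i).1
  have hpow : ∀ (f : V →ₗ[ℂ] V) (c : I → ℂ), (∀ i, f (B i) = c i • B i) → ∀ (n : ℕ) (i : I),
      (f ^ n) (B i) = c i ^ n • B i := by
    intro f c hf n i
    induction n with
    | zero => rw [pow_zero, pow_zero, one_smul]; rfl
    | succ n ih =>
      rw [pow_succ, Module.End.mul_apply, hf, map_smul, ih, smul_smul, pow_succ, mul_comm]
  have hNN : Fr ^ N = Fr' ^ N := by
    refine B.ext fun i => ?_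
    rw [hpow Fr e (fun i => (he i).1) N i, hpow Fr' x hFr'B N i]
    congr 1
    obtain ⟨r, hr⟩ : M i ∣ N := Finset.dvd_prod_of_mem M (Finset.mem_univ i)
    rw [hr, pow_mul, pow_mul, (hx i).2.1]
  intro m z hz
  have h1 := hT' m z (CTwist_isTate q hN0 hNN m z hz)
  refine Algebra.adjoin_mono ?_ h1
  intro y hy
  exact CTwist_isTate q hN0 hNN.symm 1 y hy

end Pool.Agent.MP_4960c7.AR
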