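import Mathlib

/-!
# Lower bounds for the number of primes, in the form used here
-/

namespace Pool.Agent.MP_4960c7.AR

open Filter Asymptotics Real

theorem little_o_aux (A : ℝ) :
    (fun x : ℝ => (x ^ (0.95 : ℝ) + A) * log x + log (x + 1)) =o[atTop] fun x : ℝ => x := by
  have h1 : (fun x : ℝ => x ^ (0.95 : ℝ) * log x) =o[atTop] fun x : ℝ => x := by
    have h2 : (fun x : ℝ => x ^ (0.95 : ℝ) * log x) =o[atTop]
        fun x : ℝ => x ^ (0.95 : ℝ) * x ^ (0.05 : ℝ) :=
      (isBigO_refl _ _).mul_isLittleO (isLittleO_log_rpow_atTop (by norm_num))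
    refine h2.congr' (EventuallyEq.refl _ _) ?_
    filter_upwards [eventually_gt_atTop 0] with x hx
    rw [← rpow_add hx]
    norm_num
  have h3 : (fun x : ℝ => A * log x) =o[atTop] fun x : ℝ => x :=
    isLittleO_log_id_atTop.const_mul_left A
  have h4 : (fun x : ℝ => log (x + 1)) =o[atTop] fun x : ℝ => x := by
    have h5 : (fun x : ℝ => log (x + 1)) =o[atTop] fun x : ℝ => x + 1 :=
      isLittleO_log_id_atTop.comp_tendsto (tendsto_atTop_add_const_right _ _ tendsto_id)
    refine h5.trans_isBigO ?_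
    refine IsBigO.of_bound 2 ?_
    filter_upwards [eventually_ge_atTop 1] with x hx
    rw [norm_of_nonneg (by linarith), norm_of_nonneg (by linarith)]
    linarith
  have h6 := (h1.add h3).add h4
  refine h6.congr (fun x => by ring) (fun x => rfl)

theorem pi_lower (A : ℝ) : ∀ᶠ n : ℕ in atTop,
    (n : ℝ) ^ (0.95 : ℝ) + A ≤ (Nat.primeCounting n : ℝ) := by
  have h1 := (little_o_aux A).bound (show (0 : ℝ) < log 2 / 1 by
    rw [div_one]; exact log_pos (by norm_num))
  have h2 := tendsto_natCast_atTop_atTop (R := ℝ) |>.eventually h1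
  filter_upwards [h2, eventually_ge_atTop 2] with n hn hn2
  have hn2' : (2 : ℝ) ≤ n := by exact_mod_cast hn2
  have hlog : 0 < log (n : ℝ) := log_pos (by linarith)
  have h3 : ((n : ℝ) ^ (0.95 : ℝ) + A) * log n + log ((n : ℝ) + 1) ≤ n * log 2 := by
    have h4 := (le_norm_self _).trans hn
    rw [norm_of_nonneg (show (0 : ℝ) ≤ n by linarith)] at h4
    linarith
  have h5 := Chebyshev.pi_ge n
  refine le_trans ?_ h5
  rw [le_div_iff₀ hlog]
  linarith

end Pool.Agent.MP_4960c7.AR
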