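import Pool.Agent.Lib.MP_4960c7_ag.AR.Frob

/-!
# ARK-Core: a good prime and irreducibility imply maximal angle rank or a root of unity
-/

namespace Pool.Agent.MP_4960c7.AR

open Polynomial

private theorem Core_monic {g : ℕ} (b : Fin g → ℤ) : (pol b).Monic :=
  monic_X_pow_add (degree_sum_fin_lt b)

/-- the relation argument in the field `K` -/
private theorem Core_K {K : Type} [Field K] [NumberField K] [IsGalois ℚ K] {g q ℓ : ℕ} (hq0 : 0 < q)
    (hℓ : ℓ.Prime) (h2 : ℓ ≠ 2) (hq : ¬ ℓ ∣ q) (b : Fin g → ℤ) (hirr : Irreducible (pol b))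
    (hgood : Good q ℓ (fun i => (b i : ZMod ℓ))) (w : Fin g → K) (hw : ∀ j, w j ≠ 0)
    (hb : (pol b).map (Int.castRingHom K) = ∏ j, (X - C (w j + q / w j)))
    (n : Fin g → ℤ) (hn : n ≠ 0) (hrel : ∏ j, (w j ^ 2 / q) ^ n j = 1) :
    ∃ j, ∃ m : ℕ, 0 < m ∧ (w j ^ 2 / q) ^ m = 1 := by
  obtain ⟨σ, j₀, hσ, hσ'⟩ := exists_sign_change hℓ h2 hq b w hw hb hgood
  obtain ⟨i, hi⟩ := Function.ne_iff.1 hn
  simp only [Pi.zero_apply] at hi
  have hqK : (q : K) ≠ 0 := by exact_mod_cast hq0.ne'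
  set β : Fin g → K := fun j => w j + q / w j with hβ
  set U : Fin g → K := fun j => w j ^ 2 / q with hU
  have hU0 : ∀ j, U j ≠ 0 := fun j => div_ne_zero (pow_ne_zero 2 (hw j)) hqK
  -- the rational polynomial
  set f : ℚ[X] := (pol b).map (algebraMap ℤ ℚ) with hf
  have hfm : f.Monic := (Core_monic b).map _
  have hfi : Irreducible f :=
    ((Core_monic b).irreducible_iff_irreducible_map_fraction_map).1 hirr
  have hfK : f.map (algebraMap ℚ K) = ∏ j, (X - C (β j)) := by
    rw [← hb, hf, Polynomial.map_map]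
    congr 1
    exact RingHom.ext_int _ _
  have hroot : ∀ x : K, aeval x f = 0 ↔ ∃ j, x = β j := by
    intro x
    rw [aeval_def, ← eval_map, hfK, eval_prod, Finset.prod_eq_zero_iff]
    simp [sub_eq_zero]
  have hsep : f.Separable := hfi.separable
  have hβinj : Function.Injective β := by
    have h1 : (f.map (algebraMap ℚ K)).Separable := hsep.map
    rw [hfK] at h1
    exact separable_prod_X_sub_C_iff.1 h1
  -- transitivity
  obtain ⟨τ, hτ⟩ : ∃ τ : K ≃ₐ[ℚ] K, τ (β i) = β j₀ := by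
    have h1 : minpoly ℚ (β j₀) = f := by
      refine (minpoly.eq_of_irreducible_of_monic hfi ((hroot _).2 ⟨j₀, rfl⟩) hfm).symm
    refine minpoly.exists_algEquiv_of_root (Algebra.IsAlgebraic.isAlgebraic (β j₀)) ?_
    rw [h1]
    exact (hroot _).2 ⟨i, rfl⟩
  have hperm : ∀ j, ∃ k, τ (β j) = β k := by
    intro j
    refine (hroot _).1 ?_
    have h1 : aeval (β j) f = 0 := (hroot _).2 ⟨j, rfl⟩
    have h2 := congrArg τ h1
    rw [map_zero, ← Polynomial.aeval_algHom_apply] at h2
    exact h2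
  choose p hp using hperm
  have hpinj : Function.Injective p := by
    intro j k hjk
    apply hβinj
    apply τ.injective
    rw [hp, hp, hjk]
  have hpi : p i = j₀ := hβinj ((hp i).symm.trans hτ)
  have hτU : ∀ j, ∃ ε : ℤ, (ε = 1 ∨ ε = -1) ∧ τ (U j) = U (p j) ^ ε := by
    intro j
    have hx0 : τ (w j) ≠ 0 := by
      rw [Ne, map_eq_zero_iff _ τ.injective]
      exact hw j
    have hy0 := hw (p j)
    have h1 : τ (w j) + q / τ (w j) = w (p j) + q / w (p j) := by
      have h3 := hp j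
      rw [hβ] at h3
      simp only [map_add, map_div₀, map_natCast] at h3
      exact h3
    have h2 : (τ (w j) - w (p j)) * (τ (w j) * w (p j) - q) = 0 := by
      field_simp at h1
      linear_combination h1
    have hUj : τ (U j) = τ (w j) ^ 2 / q := by
      rw [hU]
      simp only [map_div₀, map_pow, map_natCast]
    rcases mul_eq_zero.1 h2 with h3 | h3
    · refine ⟨1, Or.inl rfl, ?_⟩
      rw [hUj, sub_eq_zero.1 h3, zpow_one]
    · refine ⟨-1, Or.inr rfl, ?_⟩
      have h4 : τ (w j) = q / w (p j) := by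
        rw [eq_div_iff hy0]
        exact sub_eq_zero.1 h3
      rw [hUj, h4, zpow_neg_one, hU]
      simp only
      field_simp
  choose ε hε hτε using hτU
  set A : Fin g → K := fun j => U (p j) ^ (ε j * n j) with hA
  have hA1 : ∏ j, A j = 1 := by
    have h1 := congrArg τ hrel
    rw [map_one, map_prod] at h1
    rw [← h1]
    refine Finset.prod_congr rfl fun j _ => ?_
    rw [map_zpow₀]
    have h3 : τ (w j ^ 2 / q) = U (p j) ^ ε j := hτε j
    rw [h3, ← zpow_mul]
  have hσU : ∀ j, j ≠ j₀ → σ (U j) = U j := by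
    intro j hj
    rw [hU]
    simp only [map_div₀, map_pow, map_natCast]
    rw [hσ' j hj]
  have hσU0 : σ (U j₀) = (U j₀)⁻¹ := by
    rw [hU]
    simp only [map_div₀, map_pow, map_natCast]
    rw [hσ]
    have := hw j₀
    field_simp
  have hA2 : ∏ j, σ (A j) = 1 := by
    rw [← map_prod, hA1, map_one]
  have hA0 : ∀ j, A j ≠ 0 := fun j => zpow_ne_zero _ (hU0 _)
  have hAσ : ∀ j, j ≠ i → σ (A j) = A j := by
    intro j hj
    rw [hA]
    simp only [map_zpow₀]
    rw [hσU (p j) (fun h => hj (hpinj (h.trans hpi.symm)))]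
  have hAi : A i = σ (A i) := by
    rw [← Finset.mul_prod_erase Finset.univ A (Finset.mem_univ i)] at hA1
    rw [← Finset.mul_prod_erase Finset.univ (fun j => σ (A j)) (Finset.mem_univ i)] at hA2
    have h1 : ∏ j ∈ Finset.univ.erase i, σ (A j) = ∏ j ∈ Finset.univ.erase i, A j :=
      Finset.prod_congr rfl fun j hj => hAσ j (Finset.ne_of_mem_erase hj)
    rw [h1] at hA2
    have h2 : ∏ j ∈ Finset.univ.erase i, A j ≠ 0 := Finset.prod_ne_zero_iff.2 fun j _ => hA0 j
    exact mul_right_cancel₀ h2 (hA1.trans hA2.symm)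
  have hk : U j₀ ^ (2 * (ε i * n i)) = 1 := by
    have h1 : A i = U j₀ ^ (ε i * n i) := by rw [hA]; simp only; rw [hpi]
    rw [h1, map_zpow₀, hσU0, inv_zpow] at hAi
    have h2 : U j₀ ^ (ε i * n i) ≠ 0 := zpow_ne_zero _ (hU0 _)
    rw [two_mul, zpow_add₀ (hU0 _)]
    nth_rewrite 1 [hAi]
    exact inv_mul_cancel₀ h2
  refine ⟨j₀, (2 * (ε i * n i)).natAbs, ?_, ?_⟩
  · rw [Int.natAbs_pos]
    rcases hε i with h | h <;> rw [h] <;> omega
  · show U j₀ ^ (2 * (ε i * n i)).natAbs = 1
    rcases Int.natAbs_eq (2 * (ε i * n i)) with h | h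
    · rw [h, zpow_natCast] at hk
      exact hk
    · rw [h, zpow_neg, zpow_natCast, inv_eq_one] at hk
      exact hk

theorem core {g q ℓ : ℕ} (hq0 : 0 < q) (hℓ : ℓ.Prime) (h2 : ℓ ≠ 2) (hq : ¬ ℓ ∣ q) (b : Fin g → ℤ)
    (hirr : Irreducible (pol b)) (hgood : Good q ℓ (fun i => (b i : ZMod ℓ))) (w : Fin g → ℂ)
    (hw : ∀ j, w j ≠ 0)
    (hb : (pol b).map (Int.castRingHom ℂ) = ∏ j, (X - C (w j + q / w j)))
    (n : Fin g → ℤ) (hn : n ≠ 0) (hrel : ∏ j, (w j ^ 2 / q) ^ n j = 1) :
    ∃ j, ∃ m : ℕ, 0 < m ∧ (w j ^ 2 / q) ^ m = 1 := by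
  -- the numbers `w j` are integral over `ℚ`
  have hβ : ∀ j, IsIntegral ℚ (w j + q / w j) := by
    intro j
    refine ⟨(pol b).map (algebraMap ℤ ℚ), (Core_monic b).map _, ?_⟩
    rw [← eval_map, Polynomial.map_map]
    have h1 : (algebraMap ℚ ℂ).comp (algebraMap ℤ ℚ) = Int.castRingHom ℂ := RingHom.ext_int _ _
    rw [h1, hb, eval_prod]
    exact Finset.prod_eq_zero (Finset.mem_univ j) (by simp)
  have hint : ∀ j, IsIntegral ℚ (w j) := by
    intro j
    have h3 : IsIntegral ℚ ((2 * w j - (w j + q / w j)) ^ 2) := by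
      have h4 : (2 * w j - (w j + q / w j)) ^ 2 = (w j + q / w j) ^ 2 - algebraMap ℚ ℂ (4 * q) := by
        have := hw j
        rw [map_mul, map_natCast, map_ofNat]
        field_simp
        ring
      rw [h4]
      exact ((hβ j).pow 2).sub isIntegral_algebraMap
    have h5 : IsIntegral ℚ (2 * w j - (w j + q / w j)) := IsIntegral.of_pow two_pos h3
    have h6 : w j = algebraMap ℚ ℂ (1 / 2) * ((2 * w j - (w j + q / w j)) + (w j + q / w j)) := by
      rw [map_div₀, map_one, map_ofNat]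
      ring
    rw [h6]
    exact isIntegral_algebraMap.mul (h5.add (hβ j))
  set P : ℚ[X] := ∏ j, minpoly ℚ (w j) with hP
  have hP0 : P ≠ 0 := Finset.prod_ne_zero_iff.2 fun j _ => minpoly.ne_zero (hint j)
  let K : IntermediateField ℚ ℂ := IntermediateField.adjoin ℚ (P.rootSet ℂ)
  have hsplit : IsSplittingField ℚ K P :=
    IntermediateField.adjoin_rootSet_isSplittingField (IsAlgClosed.splits _)
  have hfin : FiniteDimensional ℚ K := IsSplittingField.finiteDimensional K P
  have hnf : NumberField K := { }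
  have hnorm : Normal ℚ K := Normal.of_isSplittingField P
  have hgal : IsGalois ℚ K := { }
  have hmem : ∀ j, w j ∈ K := by
    intro j
    refine IntermediateField.subset_adjoin ℚ _ ?_
    rw [mem_rootSet]
    refine ⟨hP0, ?_⟩
    rw [hP, map_prod]
    exact Finset.prod_eq_zero (Finset.mem_univ j) (minpoly.aeval ℚ (w j))
  let W : Fin g → K := fun j => ⟨w j, hmem j⟩
  have hWc : ∀ j, (algebraMap K ℂ) (W j) = w j := fun j => rfl
  have hW0 : ∀ j, W j ≠ 0 := by
    intro j h
    apply hw j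
    rw [← hWc, h, map_zero]
  have hbK : (pol b).map (Int.castRingHom K) = ∏ j, (X - C (W j + q / W j)) := by
    apply Polynomial.map_injective (algebraMap K ℂ) (algebraMap K ℂ).injective
    rw [Polynomial.map_map, Polynomial.map_prod]
    have h1 : (algebraMap K ℂ).comp (Int.castRingHom K) = Int.castRingHom ℂ := RingHom.ext_int _ _
    rw [h1, hb]
    refine Finset.prod_congr rfl fun j _ => ?_
    have h2 : (algebraMap K ℂ) (W j + q / W j) = w j + q / w j := by
      rw [map_add, map_div₀, map_natCast, hWc]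
    rw [Polynomial.map_sub, Polynomial.map_X, Polynomial.map_C, h2]
  have hrelK : ∏ j, (W j ^ 2 / q) ^ n j = 1 := by
    apply (algebraMap K ℂ).injective
    rw [map_prod, map_one, ← hrel]
    refine Finset.prod_congr rfl fun j _ => ?_
    rw [map_zpow₀, map_div₀, map_pow, map_natCast, hWc]
  obtain ⟨j, m, hm, hjm⟩ := Core_K hq0 hℓ h2 hq b hirr hgood W hW0 hbK n hn hrelK
  refine ⟨j, m, hm, ?_⟩
  have h1 := congrArg (algebraMap K ℂ) hjm
  rw [map_pow, map_div₀, map_pow, map_natCast, hWc, map_one] at h1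
  exact h1

end Pool.Agent.MP_4960c7.AR
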