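import Mathlib

/-!
# Real Weil polynomials and multiplicative relations between Frobenius eigenvalues
-/

namespace Pool.Agent.MP_4960c7.AR

open Polynomial

/-- The monic integer polynomial `X^g + ∑_{i<g} b_i X^i`. -/
noncomputable def pol {g : ℕ} (b : Fin g → ℤ) : ℤ[X] :=
  X ^ g + ∑ i : Fin g, C (b i) * X ^ (i : ℕ)

/-- All complex roots of `pol b` are real and lie in `[-2√q, 2√q]`; then
`X^g * pol b (X + q / X) = ∏ (X^2 - β_j X + q)` is a `q`-Weil polynomial of degree `2g`. -/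
def IsWeil (q : ℕ) {g : ℕ} (b : Fin g → ℤ) : Prop :=
  ∀ z : ℂ, aeval z (pol b) = 0 → z.im = 0 ∧ z.re ^ 2 ≤ 4 * q

/-- The Frobenius eigenvalues `w_j, q / w_j` (`pol b = ∏ (X - (w_j + q / w_j))`) have maximal angle
rank: the numbers `w_j^2 / q` are multiplicatively independent. -/
def MaxAngleRank (q : ℕ) {g : ℕ} (b : Fin g → ℤ) : Prop :=
  ∀ w : Fin g → ℂ, (∀ j, w j ≠ 0) →
    (pol b).map (Int.castRingHom ℂ) = ∏ j, (X - C (w j + q / w j)) →
    ∀ n : Fin g → ℤ, ∏ j, (w j ^ 2 / q) ^ n j = 1 → n = 0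

/-- `⌊√q⌋ + 1` -/
def tt (q : ℕ) : ℕ := Nat.sqrt q + 1

/-- the size of the box of coefficients -/
noncomputable def V (q g : ℕ) : ℝ := (tt q : ℝ) ^ (g * (g + 1) / 2)

/-- the bound for the coefficient `b_i` -/
def bd (q g : ℕ) (i : Fin g) : ℕ := 4 ^ g * tt q ^ (g - (i : ℕ))

/-- The reduction of `pol b` modulo `ℓ` splits with distinct roots `β_j`, exactly one of the
polynomials `X^2 - β_j X + q` is irreducible and the others have two different roots. -/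
def Good (q ℓ : ℕ) {g : ℕ} (c : Fin g → ZMod ℓ) : Prop :=
  ∃ β : Fin g → ZMod ℓ, Function.Injective β ∧
    (X ^ g + ∑ i : Fin g, C (c i) * X ^ (i : ℕ) : (ZMod ℓ)[X]) = ∏ j, (X - C (β j)) ∧
    ∃ j₀, ¬ IsSquare (β j₀ ^ 2 - 4 * (q : ZMod ℓ)) ∧
      ∀ j, j ≠ j₀ → IsSquare (β j ^ 2 - 4 * (q : ZMod ℓ)) ∧ β j ^ 2 - 4 * (q : ZMod ℓ) ≠ 0

end Pool.Agent.MP_4960c7.AR
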