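import Pool.Agent.Lib.MP_4960c7_ag.AR.CDefs

/-!
# Integers of a number field which behave like ordinary Weil numbers
-/

namespace Pool.Agent.MP_4960c7.AR

open Polynomial NumberField

/-- The algebraic integers `x` of `K` with all absolute values `√q` such that `x` and `q / x` are
coprime. -/
def OrdWeil (q : ℕ) (K : Type) [Field K] [NumberField K] : Set (𝓞 K) :=
  {x | (∃ x' : 𝓞 K, x * x' = (q : 𝓞 K) ∧ IsCoprime x x') ∧
    ∀ φ : K →+* ℂ, ‖φ (x : K)‖ ^ 2 = q}

/-- the bound for the degree of the splitting field -/
def DE (g : ℕ) : ℕ := (2 * g) ^ g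

/-- the bound for the number of polynomials with a given splitting field -/
def CE (g : ℕ) : ℕ := 2 ^ DE g * (2 * DE g).factorial

end Pool.Agent.MP_4960c7.AR
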