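import Pool.Agent.Lib.MP_4960c7_ag.AR.EDefs
import Pool.Agent.Lib.MP_4960c7_ag.AR.CField

/-!
# ARK-EDeg: the degree of the splitting field of the Weil polynomial is at most (2g)^g
-/

namespace Pool.Agent.MP_4960c7.AR

open Polynomial NumberField

private theorem EDeg_monic {g : ℕ} (b : Fin g → ℤ) : (pol b).Monic :=
  monic_X_pow_add (degree_sum_fin_lt b)

private theorem EDeg_natDegree {g : ℕ} (b : Fin g → ℤ) : (pol b).natDegree = g := by
  unfold pol
  rw [natDegree_add_eq_left_of_degree_lt, natDegree_X_pow]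
  rw [degree_X_pow]
  exact degree_sum_fin_lt b

private theorem EDeg_roots {g : ℕ} (b : Fin g → ℤ) : ∃ β : Fin g → ℂ,
    (pol b).map (Int.castRingHom ℂ) = ∏ j, (X - C (β j)) := by
  have hm : ((pol b).map (Int.castRingHom ℂ)).Monic := (EDeg_monic b).map _
  have hs : ((pol b).map (Int.castRingHom ℂ)).Splits := IsAlgClosed.splits _
  have hc : ((pol b).map (Int.castRingHom ℂ)).roots.card = g := by
    rw [← hs.natDegree_eq_card_roots, (EDeg_monic b).natDegree_map, EDeg_natDegree]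
  have hp := hs.eq_prod_roots_of_monic hm
  generalize ((pol b).map (Int.castRingHom ℂ)).roots = r at hc hp
  obtain ⟨l, rfl⟩ := Quot.exists_rep r
  have hl : l.length = g := hc
  subst hl
  refine ⟨fun j => l[j], ?_⟩
  rw [hp]
  exact (Fin.prod_univ_fun_getElem l (fun a => X - C a)).symm

theorem weil_param {g q : ℕ} (hq : 0 < q) (b : Fin g → ℤ) : ∃ w : Fin g → ℂ, (∀ j, w j ≠ 0) ∧
    (pol b).map (Int.castRingHom ℂ) = ∏ j, (X - C (w j + q / w j)) := by
  obtain ⟨β, hβ⟩ := EDeg_roots b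
  have hq' : (q : ℂ) ≠ 0 := Nat.cast_ne_zero.2 hq.ne'
  have h1 : ∀ z : ℂ, ∃ w : ℂ, w ≠ 0 ∧ w + q / w = z := by
    intro z
    obtain ⟨s, hs⟩ := IsAlgClosed.exists_pow_nat_eq (z ^ 2 - 4 * q) two_pos
    have h2 : (z + s) / 2 * (z - (z + s) / 2) = q := by
      linear_combination (-1 / 4 : ℂ) * hs
    have h3 : (z + s) / 2 ≠ 0 := by
      intro h
      rw [h, zero_mul] at h2
      exact hq' h2.symm
    refine ⟨(z + s) / 2, h3, ?_⟩
    rw [← h2, mul_div_cancel_left₀ _ h3]
    ring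
  choose w hw hz using h1
  refine ⟨fun j => w (β j), fun j => hw _, ?_⟩
  rw [hβ]
  exact Finset.prod_congr rfl fun j _ => by rw [hz]

private theorem EDeg_poly {g q : ℕ} (b : Fin g → ℤ) {x : ℂ} (hx : x ≠ 0)
    (h : aeval (x + q / x) (pol b) = 0) : ∃ P : ℚ[X], P.Monic ∧ P.natDegree = 2 * g ∧ aeval x P = 0 := by
  have hd : ∀ k : ℕ, ((X ^ 2 + C (q : ℚ)) ^ k : ℚ[X]).natDegree = 2 * k := by
    intro k
    rw [natDegree_pow, natDegree_X_pow_add_C, mul_comm]
  have hm : ((X ^ 2 + C (q : ℚ)) ^ g : ℚ[X]).Monic := (monic_X_pow_add_C _ two_ne_zero).pow g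
  have hlt : (∑ i : Fin g, C ((b i : ℤ) : ℚ) * X ^ (g - (i : ℕ)) * (X ^ 2 + C (q : ℚ)) ^ (i : ℕ)).degree <
      ((X ^ 2 + C (q : ℚ)) ^ g : ℚ[X]).degree := by
    rw [degree_eq_natDegree hm.ne_zero, hd]
    refine (degree_sum_le _ _).trans_lt ?_
    rw [Finset.sup_lt_iff (WithBot.bot_lt_coe _)]
    intro i _
    refine degree_le_natDegree.trans_lt ?_
    have h1 : (C ((b i : ℤ) : ℚ) * X ^ (g - (i : ℕ)) * (X ^ 2 + C (q : ℚ)) ^ (i : ℕ)).natDegree ≤
        (g - (i : ℕ)) + 2 * (i : ℕ) := by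
      refine natDegree_mul_le.trans ?_
      rw [hd]
      exact Nat.add_le_add_right (natDegree_C_mul_X_pow_le _ _) _
    have h2 := i.2
    exact_mod_cast (lt_of_le_of_lt h1 (by omega) : _ < 2 * g)
  refine ⟨(X ^ 2 + C (q : ℚ)) ^ g + ∑ i : Fin g, C ((b i : ℤ) : ℚ) * X ^ (g - (i : ℕ)) *
    (X ^ 2 + C (q : ℚ)) ^ (i : ℕ), hm.add_of_left hlt, ?_, ?_⟩
  · rw [natDegree_add_eq_left_of_degree_lt hlt, hd]
  · have h1 : x ^ 2 + (q : ℂ) = x * (x + q / x) := by
      field_simp
    have h2 : (x + q / x) ^ g + ∑ i : Fin g, (b i : ℂ) * (x + q / x) ^ (i : ℕ) = 0 := by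
      rw [← h, pol]
      simp
    have h3 : x ^ g * ((x + q / x) ^ g + ∑ i : Fin g, (b i : ℂ) * (x + q / x) ^ (i : ℕ)) = 0 := by
      rw [h2, mul_zero]
    rw [← h3]
    simp only [map_add, map_sum, map_mul, map_pow, aeval_X, aeval_C]
    rw [mul_add, Finset.mul_sum]
    have e1 : (algebraMap ℚ ℂ) (q : ℚ) = (q : ℂ) := map_natCast _ _
    rw [e1, h1, mul_pow]
    congr 1
    refine Finset.sum_congr rfl fun i _ => ?_
    have e2 : (algebraMap ℚ ℂ) ((b i : ℤ) : ℚ) = (b i : ℂ) := map_intCast _ _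
    have e3 : x ^ g = x ^ (g - (i : ℕ)) * x ^ (i : ℕ) := by
      rw [← pow_add, Nat.sub_add_cancel i.2.le]
    rw [e2, mul_pow, e3]
    ring

theorem finrank_weilField {g q : ℕ} (hq : 0 < q) (b : Fin g → ℤ) :
    FiniteDimensional ℚ (weilField q b) ∧ Module.finrank ℚ (weilField q b) ≤ DE g := by
  obtain ⟨w, hw, hb⟩ := weil_param hq b
  rw [weilField_eq hw hb]
  have hroot : ∀ j, aeval (w j + q / w j) (pol b) = 0 := by
    intro j
    have h1 : aeval (w j + q / w j) (pol b) = eval (w j + q / w j) ((pol b).map (Int.castRingHom ℂ)) := by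
      rw [eval_map]
      rfl
    rw [h1, hb, eval_prod]
    exact Finset.prod_eq_zero (Finset.mem_univ j) (by simp)
  have key : ∀ s : Finset (Fin g), FiniteDimensional ℚ (IntermediateField.adjoin ℚ (w '' (s : Set (Fin g)))) ∧
      Module.finrank ℚ (IntermediateField.adjoin ℚ (w '' (s : Set (Fin g)))) ≤ (2 * g) ^ s.card := by
    intro s
    induction s using Finset.induction_on with
    | empty =>
      rw [Finset.coe_empty, Set.image_empty, IntermediateField.adjoin_empty]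
      refine ⟨inferInstance, ?_⟩
      rw [IntermediateField.finrank_bot, Finset.card_empty, pow_zero]
    | insert a s ha ih =>
      obtain ⟨h1, h2⟩ := ih
      rw [Finset.coe_insert, Set.image_insert_eq, ← Set.union_singleton, IntermediateField.adjoin_union]
      obtain ⟨P, hP, hPd, hPz⟩ := EDeg_poly b (hw a) (hroot a)
      have hint : IsIntegral ℚ (w a) := ⟨P, hP, hPz⟩
      have h3 : FiniteDimensional ℚ (IntermediateField.adjoin ℚ {w a}) :=
        IntermediateField.adjoin.finiteDimensional hint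
      have h4 : Module.finrank ℚ (IntermediateField.adjoin ℚ {w a}) ≤ 2 * g := by
        rw [IntermediateField.adjoin.finrank hint, ← hPd]
        exact natDegree_le_natDegree (minpoly.min ℚ (w a) hP hPz)
      refine ⟨inferInstance, ?_⟩
      rw [Finset.card_insert_of_notMem ha, pow_succ]
      exact (IntermediateField.finrank_sup_le _ _).trans (Nat.mul_le_mul h2 h4)
  have h := key Finset.univ
  rw [Finset.coe_univ, Set.image_univ, Finset.card_univ, Fintype.card_fin] at h
  exact h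

end Pool.Agent.MP_4960c7.AR
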