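import Mathlib

/-!
# ARK-ERt: roots of unity in a number field of degree D satisfy u^((2D)!) = 1
-/

namespace Pool.Agent.MP_4960c7.AR

open Polynomial NumberField

theorem pow_factorial {K : Type} [Field K] [NumberField K] {u : K} {n : ℕ} (hn : 0 < n)
    (hu : u ^ n = 1) : u ^ (2 * Module.finrank ℚ K).factorial = 1 := by
  have hfin : IsOfFinOrder u := isOfFinOrder_iff_pow_eq_one.2 ⟨n, hn, hu⟩
  have hpos : 0 < orderOf u := hfin.orderOf_pos
  have hprim : IsPrimitiveRoot u (orderOf u) := IsPrimitiveRoot.orderOf u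
  have hmin : cyclotomic (orderOf u) ℚ = minpoly ℚ u := cyclotomic_eq_minpoly_rat hprim hpos
  have hdeg : (orderOf u).totient ≤ Module.finrank ℚ K := by
    have h1 := minpoly.natDegree_le (A := ℚ) u
    rw [← hmin, natDegree_cyclotomic] at h1
    exact h1
  rw [← orderOf_dvd_iff_pow_eq_one, Nat.dvd_iff_prime_pow_dvd_dvd]
  intro r k hr hdvd
  rcases Nat.eq_zero_or_pos k with rfl | hk
  · simp
  have h2 : (r ^ k).totient ≤ Module.finrank ℚ K :=
    (Nat.le_of_dvd (Nat.totient_pos.2 hpos) (Nat.totient_dvd_of_dvd hdvd)).trans hdeg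
  rw [Nat.totient_prime_pow hr hk] at h2
  have h3 : r ^ k ≤ 2 * Module.finrank ℚ K := by
    obtain ⟨l, rfl⟩ : ∃ l, k = l + 1 := ⟨k - 1, by omega⟩
    rw [Nat.add_sub_cancel] at h2
    have h4 : r ≤ 2 * (r - 1) := by have := hr.two_le; omega
    calc r ^ (l + 1) = r ^ l * r := pow_succ _ _
      _ ≤ r ^ l * (2 * (r - 1)) := Nat.mul_le_mul_left _ h4
      _ = 2 * (r ^ l * (r - 1)) := by ring
      _ ≤ 2 * Module.finrank ℚ K := Nat.mul_le_mul_left _ h2
  exact Nat.dvd_factorial (pow_pos hr.pos _) h3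

end Pool.Agent.MP_4960c7.AR
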