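import Pool.Agent.Lib.MP_4960c7_ag.AR.Defs

/-!
# ARK-Ff: a positive proportion of the residue classes is good
-/

namespace Pool.Agent.MP_4960c7.AR

open Polynomial

section count

open scoped Classical in
/-- `x ^ 2 - 4 q` is a nonzero square -/
private noncomputable def FfS {F : Type} [Field F] [Fintype F] (q : F) : Finset F :=
  Finset.univ.filter fun x => IsSquare (x ^ 2 - 4 * q) ∧ x ^ 2 - 4 * q ≠ 0

open scoped Classical in
/-- `x ^ 2 - 4 q` is not a square -/
private noncomputable def FfN {F : Type} [Field F] [Fintype F] (q : F) : Finset F :=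
  Finset.univ.filter fun x => ¬ IsSquare (x ^ 2 - 4 * q)

open scoped Classical in
/-- `x ^ 2 - 4 q` is zero -/
private noncomputable def FfZ {F : Type} [Field F] [Fintype F] (q : F) : Finset F :=
  Finset.univ.filter fun x => x ^ 2 - 4 * q = 0

variable {F : Type} [Field F] [Fintype F] {q : F}

private theorem Ff_mem_S {x : F} : x ∈ FfS q ↔ IsSquare (x ^ 2 - 4 * q) ∧ x ^ 2 - 4 * q ≠ 0 := by
  simp [FfS]

private theorem Ff_mem_N {x : F} : x ∈ FfN q ↔ ¬ IsSquare (x ^ 2 - 4 * q) := by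
  simp [FfN]

private theorem Ff_mem_Z {x : F} : x ∈ FfZ q ↔ x ^ 2 - 4 * q = 0 := by
  simp [FfZ]

private theorem Ff_card_Z : (FfZ q).card ≤ 2 := by
  classical
  rcases (FfZ q).eq_empty_or_nonempty with h | ⟨x, hx⟩
  · rw [h]; simp
  · have hsub : FfZ q ⊆ {x, -x} := by
      intro y hy
      rw [Ff_mem_Z] at hx hy
      have h1 : y ^ 2 = x ^ 2 := by linear_combination hy - hx
      rw [Finset.mem_insert, Finset.mem_singleton]
      exact sq_eq_sq_iff_eq_or_eq_neg.1 h1
    exact (Finset.card_le_card hsub).trans Finset.card_le_two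

open scoped Classical in
private theorem Ff_maps {x : F} (hx : x ≠ 0) : x + q / x ∈ FfS q ∪ FfZ q := by
  have h1 : (x + q / x) ^ 2 - 4 * q = (x - q / x) * (x - q / x) := by
    field_simp
    ring
  rw [Finset.mem_union, Ff_mem_S, Ff_mem_Z]
  by_cases h : (x + q / x) ^ 2 - 4 * q = 0
  · exact Or.inr h
  · exact Or.inl ⟨⟨_, h1⟩, h⟩

open scoped Classical in
private theorem Ff_fib_le (hq : q ≠ 0) (s : F) :
    ((Finset.univ.filter fun x : F => x ≠ 0).filter fun x => x + q / x = s).card ≤ 2 := by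
  rcases ((Finset.univ.filter fun x : F => x ≠ 0).filter fun x => x + q / x = s).eq_empty_or_nonempty with h | ⟨x, hx⟩
  · rw [h]; simp
  · have hsub : ((Finset.univ.filter fun x : F => x ≠ 0).filter fun x => x + q / x = s) ⊆ {x, q / x} := by
      intro y hy
      simp only [Finset.mem_filter, Finset.mem_univ, true_and] at hx hy
      obtain ⟨hx0, hx⟩ := hx
      obtain ⟨hy0, hy⟩ := hy
      rw [Finset.mem_insert, Finset.mem_singleton]
      have h1 : (y - x) * (y - q / x) = 0 := by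
        have h2 : y + q / y = x + q / x := hy.trans hx.symm
        have h3 : q / y = x + q / x - y := by linear_combination h2
        have h4 : q = (x + q / x - y) * y := by rw [← h3]; field_simp
        have h5 : x * (q / x) = q := by field_simp
        linear_combination h4 + h5
      rcases mul_eq_zero.1 h1 with h | h
      · exact Or.inl (sub_eq_zero.1 h)
      · exact Or.inr (sub_eq_zero.1 h)
    exact (Finset.card_le_card hsub).trans Finset.card_le_two

open scoped Classical in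
private theorem Ff_fib_ge (h2 : (2 : F) ≠ 0) (hq : q ≠ 0) {s : F} (hs : s ∈ FfS q) :
    2 ≤ ((Finset.univ.filter fun x : F => x ≠ 0).filter fun x => x + q / x = s).card := by
  rw [Ff_mem_S] at hs
  obtain ⟨⟨r, hr⟩, h0⟩ := hs
  have hr0 : r ≠ 0 := by
    rintro rfl
    exact h0 (by rw [hr, mul_zero])
  have hprod : ((s + r) / 2) * ((s - r) / 2) = q := by
    field_simp
    linear_combination hr
  have h1 : (s + r) / 2 ≠ 0 := fun h => hq (by rw [← hprod, h, zero_mul])
  have h3 : (s - r) / 2 ≠ 0 := fun h => hq (by rw [← hprod, h, mul_zero])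
  have hne : (s + r) / 2 ≠ (s - r) / 2 := by
    intro h
    apply hr0
    field_simp at h
    have h5 : 2 * r = 0 := by linear_combination h
    exact (mul_eq_zero.1 h5).resolve_left h2
  have hsub : ({(s + r) / 2, (s - r) / 2} : Finset F) ⊆
      ((Finset.univ.filter fun x : F => x ≠ 0).filter fun x => x + q / x = s) := by
    intro y hy
    rw [Finset.mem_insert, Finset.mem_singleton] at hy
    simp only [Finset.mem_filter, Finset.mem_univ, true_and]
    rcases hy with rfl | rfl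
    · refine ⟨h1, ?_⟩
      have : q / ((s + r) / 2) = (s - r) / 2 := by
        rw [div_eq_iff h1, ← hprod]
        ring
      rw [this]
      field_simp
      ring
    · refine ⟨h3, ?_⟩
      have : q / ((s - r) / 2) = (s + r) / 2 := by
        rw [div_eq_iff h3, ← hprod]
      rw [this]
      field_simp
      ring
  have hc : ({(s + r) / 2, (s - r) / 2} : Finset F).card = 2 := Finset.card_pair hne
  rw [← hc]
  exact Finset.card_le_card hsub

private theorem Ff_bounds (h2 : (2 : F) ≠ 0) (hq : q ≠ 0) :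
    Fintype.card F ≤ 2 * (FfS q).card + 5 ∧ Fintype.card F ≤ 2 * (FfN q).card + 3 := by
  classical
  have hcard : (Finset.univ.filter fun x : F => x ≠ 0).card + 1 = Fintype.card F := by
    have h := Finset.filter_ne' (Finset.univ : Finset F) 0
    rw [h, Finset.card_erase_of_mem (Finset.mem_univ _), Finset.card_univ]
    have : 0 < Fintype.card F := Fintype.card_pos
    omega
  have hfib := Finset.card_eq_sum_card_fiberwise (f := fun x : F => x + q / x)
    (s := Finset.univ.filter fun x : F => x ≠ 0) (t := FfS q ∪ FfZ q) (by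
      intro x hx
      rw [Finset.mem_coe, Finset.mem_filter] at hx
      exact Ff_maps hx.2)
  have hZ := Ff_card_Z (q := q)
  have hu : (FfS q ∪ FfZ q).card ≤ (FfS q).card + 2 := (Finset.card_union_le _ _).trans (by omega)
  have hup : (Finset.univ.filter fun x : F => x ≠ 0).card ≤ (FfS q ∪ FfZ q).card * 2 := by
    rw [hfib]
    refine (Finset.sum_le_card_nsmul _ _ 2 fun s _ => Ff_fib_le hq s).trans ?_
    rw [smul_eq_mul]
  have hlow : (FfS q).card * 2 ≤ (Finset.univ.filter fun x : F => x ≠ 0).card := by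
    rw [hfib]
    refine le_trans ?_ (Finset.sum_le_sum_of_subset (Finset.subset_union_left (s₁ := FfS q) (s₂ := FfZ q)))
    have h := Finset.card_nsmul_le_sum (FfS q)
      (fun s => ((Finset.univ.filter fun x : F => x ≠ 0).filter fun x => x + q / x = s).card) 2
      (fun s hs => Ff_fib_ge h2 hq hs)
    rw [smul_eq_mul] at h
    exact h
  have hall : Fintype.card F ≤ (FfN q).card + (FfS q ∪ FfZ q).card := by
    rw [← Finset.card_univ]
    refine (Finset.card_le_card (t := FfN q ∪ (FfS q ∪ FfZ q)) ?_).trans (Finset.card_union_le _ _)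
    intro x _
    rw [Finset.mem_union, Finset.mem_union, Ff_mem_N, Ff_mem_S, Ff_mem_Z]
    tauto
  omega

end count

section poly

variable {F : Type} [Field F]

/-- the coefficients of the monic polynomial with the roots `B` -/
private noncomputable def FfC (g : ℕ) (B : Finset F) : Fin g → F := fun i => (∏ b ∈ B, (X - C b)).coeff i

private theorem Ff_poly {g : ℕ} {B : Finset F} (hB : B.card = g) :
    (X ^ g + ∑ i : Fin g, C (FfC g B i) * X ^ (i : ℕ) : F[X]) = ∏ b ∈ B, (X - C b) := by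
  have hm : (∏ b ∈ B, (X - C b)).Monic := monic_prod_X_sub_C (fun b => b) B
  have hd : (∏ b ∈ B, (X - C b)).natDegree = g := by
    rw [natDegree_finsetProd_X_sub_C_eq_card B (fun b => b), hB]
  have h := hm.as_sum
  rw [hd, Finset.sum_range] at h
  exact h.symm

private theorem Ff_inj {g : ℕ} {B B' : Finset F} (hB : B.card = g) (hB' : B'.card = g) (h : FfC g B = FfC g B') : B = B' := by
  have h1 := Ff_poly hB
  have h2 := Ff_poly hB'
  rw [h, h2] at h1
  have h3 := congrArg Polynomial.roots h1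
  rw [roots_prod_X_sub_C, roots_prod_X_sub_C] at h3
  exact (Finset.val_inj.1 h3).symm

variable [Fintype F]

open scoped Classical in
/-- the sets `{x} ∪ A` with `x ∈ N` and `A` a set of `g - 1` elements of `S` -/
private noncomputable def FfB (g : ℕ) (q : F) : Finset (Finset F) :=
  ((FfN q) ×ˢ (FfS q).powersetCard (g - 1)).image fun p => insert p.1 p.2

private theorem Ff_notMem {q x : F} {A : Finset F} {k : ℕ} (hx : x ∈ FfN q) (hA : A ∈ (FfS q).powersetCard k) : x ∉ A := by
  intro h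
  have h1 := (Finset.mem_powersetCard.1 hA).1 h
  rw [Ff_mem_N] at hx
  rw [Ff_mem_S] at h1
  exact hx h1.1

private theorem Ff_card_B (g : ℕ) (q : F) : (FfB g q).card = (FfN q).card * ((FfS q).card).choose (g - 1) := by
  classical
  unfold FfB
  rw [Finset.card_image_of_injOn, Finset.card_product, Finset.card_powersetCard]
  rintro ⟨x, A⟩ hp ⟨y, B⟩ hp' h
  rw [Finset.mem_coe, Finset.mem_product] at hp hp'
  obtain ⟨hx, hA⟩ := hp
  obtain ⟨hy, hB⟩ := hp'
  change insert x A = insert y B at h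
  change x ∈ FfN q at hx
  change y ∈ FfN q at hy
  change A ∈ (FfS q).powersetCard (g - 1) at hA
  change B ∈ (FfS q).powersetCard (g - 1) at hB
  have hxy : x = y := by
    have h1 : x ∈ insert y B := by rw [← h]; exact Finset.mem_insert_self _ _
    rcases Finset.mem_insert.1 h1 with h2 | h2
    · exact h2
    · exact absurd h2 (Ff_notMem hx hB)
  subst hxy
  have h1 : (insert x A).erase x = (insert x B).erase x := by rw [h]
  rw [Finset.erase_insert (Ff_notMem hx hA), Finset.erase_insert (Ff_notMem hx hB)] at h1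
  rw [h1]

private theorem Ff_mem_B {g : ℕ} (hg : 0 < g) {q : F} {B : Finset F} (hB : B ∈ FfB g q) :
    B.card = g ∧ ∃ x ∈ B, ¬ IsSquare (x ^ 2 - 4 * q) ∧ ∀ y ∈ B, y ≠ x → IsSquare (y ^ 2 - 4 * q) ∧ y ^ 2 - 4 * q ≠ 0 := by
  classical
  unfold FfB at hB
  obtain ⟨⟨x, A⟩, hp, rfl⟩ := Finset.mem_image.1 hB
  rw [Finset.mem_product] at hp
  obtain ⟨hx, hA⟩ := hp
  change x ∈ FfN q at hx
  change A ∈ (FfS q).powersetCard (g - 1) at hA
  refine ⟨?_, x, Finset.mem_insert_self _ _, Ff_mem_N.1 hx, fun y hy hyx => ?_⟩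
  · show (insert x A).card = g
    rw [Finset.card_insert_of_notMem (Ff_notMem hx hA), (Finset.mem_powersetCard.1 hA).2]
    omega
  · have h1 : y ∈ A := (Finset.mem_insert.1 hy).resolve_left hyx
    exact Ff_mem_S.1 ((Finset.mem_powersetCard.1 hA).1 h1)

end poly

private theorem Ff_good {g ℓ q : ℕ} [Fact ℓ.Prime] (hg : 0 < g) {B : Finset (ZMod ℓ)} (hB : B ∈ FfB g (q : ZMod ℓ)) :
    Good q ℓ (FfC g B) := by
  classical
  obtain ⟨hc, x, hx, hN, hS⟩ := Ff_mem_B hg hB
  have e : Fin g ≃ B := (Fintype.equivFinOfCardEq (by rw [Fintype.card_coe, hc])).symm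
  refine ⟨fun j => (e j : ZMod ℓ), fun i j h => e.injective (Subtype.ext h), ?_, e.symm ⟨x, hx⟩, ?_, fun j hj => ?_⟩
  · rw [Ff_poly hc, ← Finset.prod_coe_sort B (fun b => (X - C b : (ZMod ℓ)[X])), ← Equiv.prod_comp e]
  · show ¬ IsSquare (((e (e.symm ⟨x, hx⟩) : B) : ZMod ℓ) ^ 2 - 4 * (q : ZMod ℓ))
    rw [Equiv.apply_symm_apply]
    exact hN
  · refine hS _ (e j).2 fun h => hj ?_
    rw [Equiv.eq_symm_apply]
    exact Subtype.ext h

private theorem Ff_count {g ℓ q : ℕ} [Fact ℓ.Prime] (hg : 0 < g) :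
    (FfN (q : ZMod ℓ)).card * ((FfS (q : ZMod ℓ)).card).choose (g - 1) ≤ {c : Fin g → ZMod ℓ | Good q ℓ c}.ncard := by
  classical
  have h1 : ((FfB g (q : ZMod ℓ)).image (FfC g)).card = (FfB g (q : ZMod ℓ)).card := by
    refine Finset.card_image_of_injOn fun B hB B' hB' h => ?_
    exact Ff_inj (Ff_mem_B hg hB).1 (Ff_mem_B hg hB').1 h
  rw [← Ff_card_B, ← h1, ← Set.ncard_coe_finset]
  refine Set.ncard_le_ncard ?_ (Set.toFinite _)
  intro c hc
  rw [Finset.mem_coe] at hc
  obtain ⟨B, hB, rfl⟩ := Finset.mem_image.1 hc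
  exact Ff_good hg hB

theorem good_count (g : ℕ) (hg : 0 < g) : ∃ δ : ℝ, 0 < δ ∧ δ < 1 ∧ ∃ L : ℕ, ∀ ℓ : ℕ, ℓ.Prime → L ≤ ℓ →
    ∀ q : ℕ, ¬ ℓ ∣ q → δ * (ℓ : ℝ) ^ g ≤ ({c : Fin g → ZMod ℓ | Good q ℓ c}.ncard : ℝ) := by
  have hfac : (1 : ℝ) ≤ ((g - 1).factorial : ℝ) := by exact_mod_cast Nat.factorial_pos (g - 1)
  refine ⟨(1 / 4) ^ g / ((g - 1).factorial : ℝ), by positivity, ?_, 4 * g + 10, fun ℓ hℓ hL q hq => ?_⟩
  · rw [div_lt_one (by positivity)]
    exact lt_of_lt_of_le (pow_lt_one₀ (by norm_num) (by norm_num) hg.ne') hfac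
  · have : Fact ℓ.Prime := ⟨hℓ⟩
    have h2 : (2 : ZMod ℓ) ≠ 0 := by
      intro h
      have h3 : ((2 : ℕ) : ZMod ℓ) = 0 := by exact_mod_cast h
      rw [ZMod.natCast_eq_zero_iff] at h3
      have := Nat.le_of_dvd (by norm_num) h3
      omega
    have hq0 : (q : ZMod ℓ) ≠ 0 := by
      intro h
      rw [ZMod.natCast_eq_zero_iff] at h
      exact hq h
    obtain ⟨hS, hN⟩ := Ff_bounds h2 hq0
    rw [ZMod.card] at hS hN
    have h4 := Ff_count (ℓ := ℓ) (q := q) hg
    have h5 : ((ℓ : ℝ) / 4) ≤ (FfN (q : ZMod ℓ)).card := by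
      have h6 : (ℓ : ℝ) ≤ 2 * ((FfN (q : ZMod ℓ)).card : ℝ) + 3 := by exact_mod_cast hN
      have h7 : (4 * (g : ℝ) + 10) ≤ ℓ := by exact_mod_cast hL
      have h8 : (0 : ℝ) ≤ g := Nat.cast_nonneg g
      linarith
    have h6 : ((ℓ : ℝ) / 4) ≤ (((FfS (q : ZMod ℓ)).card + 1 - (g - 1) : ℕ) : ℝ) := by
      have h7 : ℓ ≤ 4 * ((FfS (q : ZMod ℓ)).card + 1 - (g - 1)) := by omega
      have h8 : (ℓ : ℝ) ≤ 4 * (((FfS (q : ZMod ℓ)).card + 1 - (g - 1) : ℕ) : ℝ) := by exact_mod_cast h7
      linarith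
    have h7 := Nat.pow_le_choose (α := ℝ) (g - 1) (FfS (q : ZMod ℓ)).card
    have h8 : ((ℓ : ℝ) / 4) ^ (g - 1) / ((g - 1).factorial : ℝ) ≤ (((FfS (q : ZMod ℓ)).card).choose (g - 1) : ℝ) := by
      refine le_trans ?_ h7
      have h9 : ((ℓ : ℝ) / 4) ^ (g - 1) ≤ (((FfS (q : ZMod ℓ)).card + 1 - (g - 1) : ℕ) : ℝ) ^ (g - 1) := by
        gcongr
      gcongr
    calc (1 / 4 : ℝ) ^ g / ((g - 1).factorial : ℝ) * (ℓ : ℝ) ^ g
        = ((ℓ : ℝ) / 4) * (((ℓ : ℝ) / 4) ^ (g - 1) / ((g - 1).factorial : ℝ)) := by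
          obtain ⟨k, rfl⟩ : ∃ k, g = k + 1 := ⟨g - 1, by omega⟩
          rw [Nat.add_sub_cancel, pow_succ, pow_succ, div_pow, div_pow]
          ring
      _ ≤ ((FfN (q : ZMod ℓ)).card : ℝ) * (((FfS (q : ZMod ℓ)).card).choose (g - 1) : ℝ) := by
          gcongr
      _ ≤ ({c : Fin g → ZMod ℓ | Good q ℓ c}.ncard : ℝ) := by exact_mod_cast h4

end Pool.Agent.MP_4960c7.AR
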