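import Pool.Agent.Lib.MP_4960c7_ag.AR.Up

/-!
# ARK-Low: a positive proportion of the box consists of (ordinary) real Weil polynomials
-/

namespace Pool.Agent.MP_4960c7.AR

open Polynomial

/-- the points between the roots -/
private noncomputable def sp (g k : ℕ) : ℝ := -1 + 2 * (k : ℝ) / g

/-- the roots -/
private noncomputable def rt (g j : ℕ) : ℝ := -1 + (2 * (j : ℝ) + 1) / g

private theorem sp_rt {g : ℕ} (hg : 0 < g) {k j : ℕ} (h : k ≤ j) : sp g k < rt g j := by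
  unfold sp rt
  have h0 : (0 : ℝ) < g := by exact_mod_cast hg
  have h1 : (k : ℝ) ≤ j := by exact_mod_cast h
  have h2 : 2 * (k : ℝ) / g < (2 * (j : ℝ) + 1) / g := by
    apply div_lt_div_of_pos_right _ h0
    linarith
  linarith

private theorem rt_sp {g : ℕ} (hg : 0 < g) {k j : ℕ} (h : j < k) : rt g j < sp g k := by
  unfold sp rt
  have h0 : (0 : ℝ) < g := by exact_mod_cast hg
  have h1 : (j : ℝ) + 1 ≤ k := by exact_mod_cast h
  have h2 : (2 * (j : ℝ) + 1) / g < 2 * (k : ℝ) / g := by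
    apply div_lt_div_of_pos_right _ h0
    linarith
  linarith

private theorem sp_mono {g : ℕ} {k l : ℕ} (h : k ≤ l) : sp g k ≤ sp g l := by
  unfold sp
  have h1 : (k : ℝ) ≤ l := by exact_mod_cast h
  have h2 : 2 * (k : ℝ) / g ≤ 2 * (l : ℝ) / g := by
    apply div_le_div_of_nonneg_right _ (Nat.cast_nonneg g)
    linarith
  linarith

private theorem sp_abs {g : ℕ} (hg : 0 < g) {k : ℕ} (h : k ≤ g) : |sp g k| ≤ 1 := by
  have h0 : (0 : ℝ) < g := by exact_mod_cast hg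
  have h1 : sp g 0 = -1 := by simp [sp]
  have h2 : sp g g = 1 := by
    unfold sp
    field_simp
    ring
  rw [_root_.abs_le]
  constructor
  · rw [← h1]; exact sp_mono (Nat.zero_le k)
  · rw [← h2]; exact sp_mono h

/-- the model polynomial -/
private noncomputable def H0 (g : ℕ) : ℝ[X] := ∏ j : Fin g, (X - C (rt g j))

private theorem H0_monic (g : ℕ) : (H0 g).Monic := monic_prod_of_monic _ _ fun _ _ => monic_X_sub_C _

private theorem H0_deg (g : ℕ) : (H0 g).natDegree = g := by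
  unfold H0
  rw [natDegree_prod_of_monic _ _ fun _ _ => monic_X_sub_C _]
  simp

private theorem H0_eval (g : ℕ) (x : ℝ) : (H0 g).eval x = ∏ j : Fin g, (x - rt g j) := by
  unfold H0
  rw [eval_prod]
  simp

private theorem H0_eval' (g : ℕ) (x : ℝ) : (H0 g).eval x = (∑ i : Fin g, (H0 g).coeff i * x ^ (i : ℕ)) + x ^ g := by
  rw [eval_eq_sum_range, H0_deg, Finset.sum_range_succ, ← Fin.sum_univ_eq_sum_range (fun i => (H0 g).coeff i * x ^ i) g]
  congr 1
  have h1 : (H0 g).coeff g = 1 := by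
    have := (H0_monic g).coeff_natDegree
    rwa [H0_deg] at this
  rw [h1, one_mul]

private theorem H0_ne {g : ℕ} (hg : 0 < g) (k : ℕ) : (H0 g).eval (sp g k) ≠ 0 := by
  rw [H0_eval]
  refine Finset.prod_ne_zero_iff.2 fun j _ => ?_
  rcases le_or_gt k (j : ℕ) with h | h
  · exact (sub_neg.2 (sp_rt hg h)).ne
  · exact (sub_pos.2 (rt_sp hg h)).ne'

private theorem H0_neg {g : ℕ} (hg : 0 < g) (k : Fin g) :
    (H0 g).eval (sp g k) * (H0 g).eval (sp g (k + 1)) < 0 := by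
  rw [H0_eval, H0_eval, ← Finset.prod_mul_distrib, ← Finset.mul_prod_erase Finset.univ _ (Finset.mem_univ k)]
  refine mul_neg_of_neg_of_pos ?_ ?_
  · exact mul_neg_of_neg_of_pos (sub_neg.2 (sp_rt hg le_rfl)) (sub_pos.2 (rt_sp hg (Nat.lt_succ_self _)))
  · refine Finset.prod_pos fun j hj => ?_
    have hne : (j : ℕ) ≠ (k : ℕ) := fun h => (Finset.mem_erase.1 hj).1 (Fin.ext h)
    rcases lt_or_gt_of_ne hne with h | h
    · exact mul_pos (sub_pos.2 (rt_sp hg h)) (sub_pos.2 (rt_sp hg (by omega)))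
    · exact mul_pos_of_neg_of_neg (sub_neg.2 (sp_rt hg (by omega))) (sub_neg.2 (sp_rt hg (by omega)))

private theorem exists_eta {g : ℕ} (hg : 0 < g) : ∃ η : ℝ, 0 < η ∧ ∀ k, k ≤ g → η ≤ |(H0 g).eval (sp g k)| := by
  obtain ⟨k0, -, h⟩ := Finset.exists_min_image (Finset.range (g + 1)) (fun k => |(H0 g).eval (sp g k)|)
    ⟨0, Finset.mem_range.2 (Nat.succ_pos g)⟩
  refine ⟨|(H0 g).eval (sp g k0)|, abs_pos.2 (H0_ne hg k0), fun k hk => ?_⟩
  exact h k (Finset.mem_range.2 (Nat.lt_succ_of_le hk))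

/-- `pol b` at the real number `y` -/
private noncomputable def Fv {g : ℕ} (b : Fin g → ℤ) (y : ℝ) : ℝ := y ^ g + ∑ i : Fin g, (b i : ℝ) * y ^ (i : ℕ)

private theorem Fv_cont {g : ℕ} (b : Fin g → ℤ) : Continuous (Fv b) := by
  unfold Fv
  fun_prop

private theorem pol_monic {g : ℕ} (b : Fin g → ℤ) : (pol b).Monic ∧ (pol b).natDegree = g := by
  have h1 : (∑ i : Fin g, C (b i) * X ^ (i : ℕ)).degree < (g : WithBot ℕ) := by
    refine (degree_sum_le _ _).trans_lt ?_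
    refine (Finset.sup_lt_iff (WithBot.bot_lt_coe g)).2 ?_
    intro i _
    exact (degree_C_mul_X_pow_le _ _).trans_lt (WithBot.coe_lt_coe.2 i.2)
  have h2 : (pol b).Monic := monic_X_pow_add h1
  refine ⟨h2, ?_⟩
  have h3 : (pol b).degree = g := by
    unfold pol
    rw [degree_add_eq_left_of_degree_lt (by rwa [degree_X_pow]), degree_X_pow]
  exact natDegree_eq_of_degree_eq_some h3

private theorem aeval_pol {g : ℕ} (b : Fin g → ℤ) (y : ℝ) : aeval (y : ℂ) (pol b) = ((Fv b y : ℝ) : ℂ) := by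
  unfold pol Fv
  simp

private theorem sign_lem {a b : ℝ} (h : |a - b| < |b|) : 0 < a * b := by
  rcases lt_trichotomy b 0 with hb | hb | hb
  · rw [abs_of_neg hb, abs_lt] at h
    exact mul_pos_of_neg_of_neg (by linarith) hb
  · rw [hb, abs_zero] at h
    exact absurd h (not_lt.2 (abs_nonneg _))
  · rw [abs_of_pos hb, abs_lt] at h
    exact mul_pos (by linarith) hb

private theorem root_lem {f : ℝ → ℝ} (hf : Continuous f) {u v : ℝ} (huv : u ≤ v) (h : f u * f v < 0) :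
    ∃ x, u < x ∧ x < v ∧ f x = 0 := by
  have hu : f u ≠ 0 := fun h0 => by rw [h0, zero_mul] at h; exact lt_irrefl _ h
  have hv : f v ≠ 0 := fun h0 => by rw [h0, mul_zero] at h; exact lt_irrefl _ h
  have key : ∃ x ∈ Set.Icc u v, f x = 0 := by
    rcases lt_or_gt_of_ne hu with h1 | h1
    · have h2 : 0 < f v := by
        by_contra hc
        exact absurd h (not_lt.2 (mul_nonneg_of_nonpos_of_nonpos h1.le (not_lt.1 hc)))
      exact intermediate_value_Icc huv hf.continuousOn ⟨h1.le, h2.le⟩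
    · have h2 : f v < 0 := by
        by_contra hc
        exact absurd h (not_lt.2 (mul_nonneg h1.le (not_lt.1 hc)))
      exact intermediate_value_Icc' huv hf.continuousOn ⟨h2.le, h1.le⟩
  obtain ⟨x, ⟨hx1, hx2⟩, hx⟩ := key
  refine ⟨x, lt_of_le_of_ne hx1 ?_, lt_of_le_of_ne hx2 ?_, hx⟩
  · rintro rfl; exact hu hx
  · rintro rfl; exact hv hx

/-- the polynomials near to the model are real Weil polynomials -/
private theorem weil_of_near {g : ℕ} (hg : 0 < g) {η : ℝ} (hη0 : 0 < η)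
    (hη : ∀ k, k ≤ g → η ≤ |(H0 g).eval (sp g k)|) {q : ℕ} (hq : 0 < q) (b : Fin g → ℤ)
    (hb : ∀ i : Fin g, |(b i : ℝ) - (H0 g).coeff i * Real.sqrt q ^ (g - (i : ℕ))| ≤
      η / (2 * g) * Real.sqrt q ^ (g - (i : ℕ))) : IsWeil q b := by
  have hg0 : (0 : ℝ) < g := by exact_mod_cast hg
  have hs0 : 0 < Real.sqrt q := Real.sqrt_pos.2 (by exact_mod_cast hq)
  obtain ⟨s, hs⟩ : ∃ s : ℝ, s = Real.sqrt q := ⟨_, rfl⟩
  have hss : s ^ 2 = q := by rw [hs]; exact Real.sq_sqrt (Nat.cast_nonneg q)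
  rw [← hs] at hs0 hb
  -- the values at the points `s_k`
  have hval : ∀ k, k ≤ g → |Fv b (s * sp g k) - s ^ g * (H0 g).eval (sp g k)| < |s ^ g * (H0 g).eval (sp g k)| := by
    intro k hk
    have h1 : Fv b (s * sp g k) - s ^ g * (H0 g).eval (sp g k) =
        ∑ i : Fin g, ((b i : ℝ) - (H0 g).coeff i * s ^ (g - (i : ℕ))) * (s ^ (i : ℕ) * sp g k ^ (i : ℕ)) := by
      unfold Fv
      rw [H0_eval' g, mul_add, Finset.mul_sum]
      have h2 : ∀ i : Fin g, s ^ g * ((H0 g).coeff i * sp g k ^ (i : ℕ)) =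
          (H0 g).coeff i * s ^ (g - (i : ℕ)) * (s ^ (i : ℕ) * sp g k ^ (i : ℕ)) := by
        intro i
        have h3 : s ^ g = s ^ (g - (i : ℕ)) * s ^ (i : ℕ) := by
          rw [← pow_add, Nat.sub_add_cancel i.2.le]
        rw [h3]
        ring
      simp only [h2, sub_mul, Finset.sum_sub_distrib, mul_pow]
      ring
    have h4 : |Fv b (s * sp g k) - s ^ g * (H0 g).eval (sp g k)| ≤ ∑ i : Fin g, η / (2 * g) * s ^ g := by
      rw [h1]
      refine (Finset.abs_sum_le_sum_abs _ _).trans (Finset.sum_le_sum fun i _ => ?_)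
      rw [abs_mul, abs_mul, abs_pow, abs_pow, abs_of_pos hs0]
      have h5 : |sp g k| ^ (i : ℕ) ≤ 1 := pow_le_one₀ (abs_nonneg _) (sp_abs hg hk)
      have h3 : s ^ g = s ^ (g - (i : ℕ)) * s ^ (i : ℕ) := by
        rw [← pow_add, Nat.sub_add_cancel i.2.le]
      calc |(b i : ℝ) - (H0 g).coeff i * s ^ (g - (i : ℕ))| * (s ^ (i : ℕ) * |sp g k| ^ (i : ℕ))
          ≤ (η / (2 * g) * s ^ (g - (i : ℕ))) * (s ^ (i : ℕ) * 1) := by
            refine mul_le_mul (hb i) ?_ (by positivity) (by positivity)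
            exact mul_le_mul_of_nonneg_left h5 (by positivity)
        _ = η / (2 * g) * s ^ g := by rw [h3]; ring
    rw [Finset.sum_const, Finset.card_univ, Fintype.card_fin, nsmul_eq_mul] at h4
    have h6 : (g : ℝ) * (η / (2 * g) * s ^ g) = η / 2 * s ^ g := by field_simp
    rw [h6] at h4
    have h7 : |s ^ g * (H0 g).eval (sp g k)| = s ^ g * |(H0 g).eval (sp g k)| := by
      rw [abs_mul, abs_of_pos (pow_pos hs0 g)]
    rw [h7]
    have h8 : s ^ g * η ≤ s ^ g * |(H0 g).eval (sp g k)| := mul_le_mul_of_nonneg_left (hη k hk) (pow_pos hs0 g).le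
    have h9 : 0 < s ^ g * η := mul_pos (pow_pos hs0 g) hη0
    linarith
  have hsgn : ∀ k : Fin g, Fv b (s * sp g k) * Fv b (s * sp g (k + 1)) < 0 := by
    intro k
    have h1 := sign_lem (hval k k.2.le)
    have h2 := sign_lem (hval (k + 1) k.2)
    have h3 := H0_neg hg k
    by_contra hc
    rw [not_lt] at hc
    have h4 := mul_pos h1 h2
    have h5 : Fv b (s * sp g k) * (s ^ g * (H0 g).eval (sp g k)) * (Fv b (s * sp g (k + 1)) *
        (s ^ g * (H0 g).eval (sp g (k + 1)))) =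
        (Fv b (s * sp g k) * Fv b (s * sp g (k + 1))) * ((s ^ g * s ^ g) * ((H0 g).eval (sp g k) * (H0 g).eval (sp g (k + 1)))) := by
      ring
    rw [h5] at h4
    have h6 : (s ^ g * s ^ g) * ((H0 g).eval (sp g k) * (H0 g).eval (sp g (k + 1))) ≤ 0 :=
      mul_nonpos_of_nonneg_of_nonpos (by positivity) h3.le
    exact absurd h4 (not_lt.2 (mul_nonpos_of_nonneg_of_nonpos hc h6))
  have hex : ∀ k : Fin g, ∃ x, sp g k < x ∧ x < sp g (k + 1) ∧ Fv b (s * x) = 0 := fun k =>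
    root_lem (f := fun x => Fv b (s * x)) ((Fv_cont b).comp (continuous_const.mul continuous_id)) (sp_mono (Nat.le_succ _))
      (hsgn k)
  choose x hx1 hx2 hx3 using hex
  have hinj : Function.Injective x := by
    intro k l hkl
    by_contra hne
    rcases lt_or_gt_of_ne hne with h | h
    · have h1 : sp g (k + 1) ≤ sp g l := sp_mono h
      have := hx2 k
      have := hx1 l
      linarith
    · have h1 : sp g (l + 1) ≤ sp g k := sp_mono h
      have := hx2 l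
      have := hx1 k
      linarith
  have hxa : ∀ k, |x k| ≤ 1 := by
    intro k
    have h1 := sp_abs hg k.2.le
    have h2 := sp_abs (k := k + 1) hg k.2
    rw [_root_.abs_le] at h1 h2 ⊢
    have h3 := hx1 k
    have h4 := hx2 k
    constructor <;> linarith [h1.1, h2.2]
  -- all the roots
  intro z hz
  obtain ⟨hmon, hdeg⟩ := pol_monic b
  have hinjC : Function.Injective fun k : Fin g => (((s * x k : ℝ)) : ℂ) := by
    intro k l hkl
    have h1 : s * x k = s * x l := Complex.ofReal_injective hkl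
    exact hinj (mul_left_cancel₀ hs0.ne' h1)
  have hmem : ∃ k, z = ((s * x k : ℝ) : ℂ) := by
    by_contra hcon
    rw [not_exists] at hcon
    obtain ⟨Z, hZ⟩ : ∃ Z : Finset ℂ, Z = insert z (Finset.univ.image fun k : Fin g => (((s * x k : ℝ)) : ℂ)) := ⟨_, rfl⟩
    have hcard : Z.card = g + 1 := by
      rw [hZ, Finset.card_insert_of_notMem, Finset.card_image_of_injective _ hinjC, Finset.card_univ, Fintype.card_fin]
      intro h
      obtain ⟨k, -, hk⟩ := Finset.mem_image.1 h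
      exact hcon k hk.symm
    have hP0 : (pol b).map (Int.castRingHom ℂ) ≠ 0 := (hmon.map _).ne_zero
    have haev : ∀ w : ℂ, ((pol b).map (Int.castRingHom ℂ)).eval w = aeval w (pol b) := fun w => by
      rw [eval_map, aeval_def, algebraMap_int_eq]
    have hsub : Z.val ⊆ ((pol b).map (Int.castRingHom ℂ)).roots := by
      intro w hw
      rw [mem_roots hP0, IsRoot.def, haev]
      rw [Finset.mem_val, hZ, Finset.mem_insert] at hw
      rcases hw with rfl | hw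
      · exact hz
      · obtain ⟨k, -, rfl⟩ := Finset.mem_image.1 hw
        rw [aeval_pol, hx3 k, Complex.ofReal_zero]
    have h1 := card_le_degree_of_subset_roots hsub
    rw [hcard, (hmon.natDegree_map _), hdeg] at h1
    omega
  obtain ⟨k, rfl⟩ := hmem
  refine ⟨Complex.ofReal_im _, ?_⟩
  rw [Complex.ofReal_re, mul_pow, hss]
  have h1 : x k ^ 2 ≤ 1 := by
    rw [← sq_abs]
    exact pow_le_one₀ (abs_nonneg _) (hxa k)
  have h2 : (0 : ℝ) ≤ q := Nat.cast_nonneg q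
  nlinarith

/-- the integers in an interval which are not divisible by `p` -/
private noncomputable def Jv (p : ℕ) (u v : ℝ) : Finset ℤ := (Finset.Icc ⌈u⌉ ⌊v⌋).filter fun a => ¬ (p : ℤ) ∣ a

private theorem Jv_mem {p : ℕ} {u v : ℝ} {a : ℤ} (h : a ∈ Jv p u v) : u ≤ a ∧ (a : ℝ) ≤ v ∧ ¬ (p : ℤ) ∣ a := by
  unfold Jv at h
  rw [Finset.mem_filter, Finset.mem_Icc] at h
  exact ⟨Int.ceil_le.1 h.1.1, Int.le_floor.1 h.1.2, h.2⟩

private theorem Jv_card {p : ℕ} (hp : 2 ≤ p) (u v : ℝ) : (v - u - 2) / 2 ≤ ((Jv p u v).card : ℝ) := by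
  classical
  obtain ⟨I, hI⟩ : ∃ I : Finset ℤ, I = Finset.Icc ⌈u⌉ ⌊v⌋ := ⟨_, rfl⟩
  have hsplit : (I.filter fun a => (p : ℤ) ∣ a).card + (Jv p u v).card = I.card := by
    unfold Jv
    rw [← hI]
    exact Finset.card_filter_add_card_filter_not (s := I) (fun a : ℤ => (p : ℤ) ∣ a)
  have hle : ((I.filter fun a => (p : ℤ) ∣ a).erase ⌊v⌋).card ≤ (Jv p u v).card := by
    refine Finset.card_le_card_of_injOn (fun a => a + 1) ?_ ?_
    · intro a ha
      rw [Finset.mem_coe, Finset.mem_erase, Finset.mem_filter, hI, Finset.mem_Icc] at ha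
      rw [Finset.mem_coe]
      unfold Jv
      rw [Finset.mem_filter, Finset.mem_Icc]
      obtain ⟨h1, ⟨h2, h3⟩, h4⟩ := ha
      change (⌈u⌉ ≤ a + 1 ∧ a + 1 ≤ ⌊v⌋) ∧ ¬ (p : ℤ) ∣ a + 1
      refine ⟨⟨by omega, by omega⟩, ?_⟩
      intro h5
      have h6 : (p : ℤ) ∣ 1 := by
        have := dvd_sub h5 h4
        simpa using this
      have h7 := Int.le_of_dvd one_pos h6
      omega
    · intro a _ b _ hab
      simpa using hab
  have herase : (I.filter fun a => (p : ℤ) ∣ a).card ≤ ((I.filter fun a => (p : ℤ) ∣ a).erase ⌊v⌋).card + 1 :=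
    Nat.sub_le_iff_le_add.1 Finset.pred_card_le_card_erase
  have hcard : (v - u - 1 : ℝ) ≤ (I.card : ℝ) := by
    rw [hI, Int.card_Icc]
    have h1 : ((⌊v⌋ + 1 - ⌈u⌉ : ℤ) : ℝ) ≤ (((⌊v⌋ + 1 - ⌈u⌉).toNat : ℤ) : ℝ) := by
      exact_mod_cast Int.self_le_toNat _
    have h2 : v < ⌊v⌋ + 1 := Int.lt_floor_add_one v
    have h3 : (⌈u⌉ : ℝ) < u + 1 := Int.ceil_lt_add_one u
    push_cast at h1
    have h4 : (((⌊v⌋ + 1 - ⌈u⌉).toNat : ℤ) : ℝ) = ((⌊v⌋ + 1 - ⌈u⌉).toNat : ℝ) := by norm_cast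
    push_cast at h4
    linarith
  have h5 : (I.card : ℝ) ≤ 2 * ((Jv p u v).card : ℝ) + 1 := by
    have : I.card ≤ 2 * (Jv p u v).card + 1 := by omega
    exact_mod_cast this
  linarith

private theorem sum_sub (g : ℕ) : ∑ i : Fin g, (g - (i : ℕ)) = g * (g + 1) / 2 := by
  rw [Fin.sum_univ_eq_sum_range (fun i => g - i) g]
  have h1 : ∑ i ∈ Finset.range g, (g - i) = ∑ i ∈ Finset.range g, (i + 1) := by
    rw [← Finset.sum_range_reflect (fun i => i + 1) g]
    refine Finset.sum_congr rfl fun i hi => ?_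
    rw [Finset.mem_range] at hi
    omega
  have h2 := Finset.sum_range_id (g + 1)
  rw [Finset.sum_range_succ'] at h2
  rw [h1]
  simp only [add_zero, Nat.add_sub_cancel] at h2
  rw [h2, mul_comm]

theorem ordinary (g : ℕ) (hg : 0 < g) : ∃ c : ℝ, 0 < c ∧ ∃ q₁ : ℕ, ∀ q : ℕ, q₁ ≤ q → ∀ p : ℕ, 2 ≤ p →
    c * V q g ≤ ({b : Fin g → ℤ | IsWeil q b ∧ ¬ (p : ℤ) ∣ b ⟨0, hg⟩}.ncard : ℝ) := by
  classical
  obtain ⟨η, hη0, hη⟩ := exists_eta hg
  have hg0 : (0 : ℝ) < g := by exact_mod_cast hg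
  obtain ⟨e, he⟩ : ∃ e : ℝ, e = η / (2 * g) := ⟨_, rfl⟩
  have he0 : 0 < e := by rw [he]; positivity
  refine ⟨(e / 2) ^ g / 2 ^ (g * (g + 1) / 2), by positivity, ⌈(2 / e) ^ 2⌉₊ + 1, fun q hq p hp => ?_⟩
  have hq0 : 0 < q := by omega
  have hq1 : (2 / e) ^ 2 ≤ (q : ℝ) := by
    have h1 := Nat.le_ceil ((2 / e) ^ 2)
    have h2 : ((⌈(2 / e) ^ 2⌉₊ : ℕ) : ℝ) ≤ q := by exact_mod_cast (by omega : ⌈(2 / e) ^ 2⌉₊ ≤ q)
    linarith
  obtain ⟨s, hs⟩ : ∃ s : ℝ, s = Real.sqrt q := ⟨_, rfl⟩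
  have hs1 : 1 ≤ s := by
    rw [hs, Real.one_le_sqrt]
    exact_mod_cast hq0
  have hs0 : 0 < s := by linarith
  have hes : 2 ≤ e * s := by
    have h1 : 2 / e ≤ s := by
      rw [hs]
      exact Real.le_sqrt_of_sq_le hq1
    rw [div_le_iff₀ he0] at h1
    linarith
  obtain ⟨J, hJ⟩ : ∃ J : Fin g → Finset ℤ, J = fun i : Fin g =>
      Jv p ((H0 g).coeff i * s ^ (g - (i : ℕ)) - e * s ^ (g - (i : ℕ)))
        ((H0 g).coeff i * s ^ (g - (i : ℕ)) + e * s ^ (g - (i : ℕ))) := ⟨_, rfl⟩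
  have hJc : ∀ i : Fin g, e / 2 * s ^ (g - (i : ℕ)) ≤ ((J i).card : ℝ) := by
    intro i
    rw [hJ]
    refine le_trans ?_ (Jv_card hp _ _)
    have h1 : s ≤ s ^ (g - (i : ℕ)) := le_self_pow₀ hs1 (by have := i.2; omega)
    have h2 : e * s ≤ e * s ^ (g - (i : ℕ)) := mul_le_mul_of_nonneg_left h1 he0.le
    linarith
  have hfin : {b : Fin g → ℤ | IsWeil q b ∧ ¬ (p : ℤ) ∣ b ⟨0, hg⟩}.Finite := by
    refine (Set.finite_Icc (fun i => -(bd q g i : ℤ)) (fun i => (bd q g i : ℤ))).subset ?_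
    intro b hb
    exact ⟨fun i => (_root_.abs_le.1 (abs_le hb.1 i)).1, fun i => (_root_.abs_le.1 (abs_le hb.1 i)).2⟩
  have hsub : (↑(Fintype.piFinset J) : Set (Fin g → ℤ)) ⊆ {b : Fin g → ℤ | IsWeil q b ∧ ¬ (p : ℤ) ∣ b ⟨0, hg⟩} := by
    intro b hb
    rw [Finset.mem_coe, Fintype.mem_piFinset] at hb
    have hb' : ∀ i, _ := fun i => Jv_mem (by have := hb i; rw [hJ] at this; exact this)
    refine ⟨weil_of_near hg hη0 hη hq0 b fun i => ?_, (hb' ⟨0, hg⟩).2.2⟩
    rw [← hs, ← he, _root_.abs_le]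
    have h1 := (hb' i).1
    have h2 := (hb' i).2.1
    constructor <;> linarith
  have h1 := Set.ncard_le_ncard hsub hfin
  rw [Set.ncard_coe_finset, Fintype.card_piFinset] at h1
  have h2 : (∏ i, ((J i).card : ℝ)) ≤ ({b : Fin g → ℤ | IsWeil q b ∧ ¬ (p : ℤ) ∣ b ⟨0, hg⟩}.ncard : ℝ) := by
    exact_mod_cast h1
  refine le_trans ?_ h2
  have h3 : ∏ i : Fin g, (e / 2 * s ^ (g - (i : ℕ))) ≤ ∏ i, ((J i).card : ℝ) :=
    Finset.prod_le_prod (fun i _ => by positivity) fun i _ => hJc i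
  refine le_trans ?_ h3
  rw [Finset.prod_mul_distrib, Finset.prod_const, Finset.card_univ, Fintype.card_fin, Finset.prod_pow_eq_pow_sum,
    sum_sub g]
  have h4 : (tt q : ℝ) ≤ 2 * s := by
    unfold tt
    push_cast
    have h5 : (Nat.sqrt q : ℝ) ≤ s := by
      rw [hs]
      exact Real.nat_sqrt_le_real_sqrt
    linarith
  have h6 : V q g ≤ 2 ^ (g * (g + 1) / 2) * s ^ (g * (g + 1) / 2) := by
    unfold V
    rw [← mul_pow]
    exact pow_le_pow_left₀ (Nat.cast_nonneg _) h4 _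
  calc (e / 2) ^ g / 2 ^ (g * (g + 1) / 2) * V q g
      ≤ (e / 2) ^ g / 2 ^ (g * (g + 1) / 2) * (2 ^ (g * (g + 1) / 2) * s ^ (g * (g + 1) / 2)) :=
        mul_le_mul_of_nonneg_left h6 (by positivity)
    _ = (e / 2) ^ g * s ^ (g * (g + 1) / 2) := by field_simp

end Pool.Agent.MP_4960c7.AR
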