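import Pool.Agent.Lib.MP_4960c7_ag.AR.SivA

/-!
# A second moment sieve in a box
-/

namespace Pool.Agent.MP_4960c7.AR

open Polynomial

open Classical in
/-- the indicator function of the residue classes `G ℓ` -/
noncomputable def ind {g : ℕ} (G : ∀ ℓ : ℕ, Set (Fin g → ZMod ℓ)) (ℓ : ℕ) (b : Fin g → ℤ) : ℝ :=
  if (fun i => (b i : ZMod ℓ)) ∈ G ℓ then 1 else 0

/-- the density of `G ℓ` -/
noncomputable def den {g : ℕ} (G : ∀ ℓ : ℕ, Set (Fin g → ZMod ℓ)) (ℓ : ℕ) : ℝ :=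
  ((G ℓ).ncard : ℝ) / (ℓ : ℝ) ^ g

theorem ind_nonneg {g : ℕ} (G : ∀ ℓ : ℕ, Set (Fin g → ZMod ℓ)) (ℓ : ℕ) (b : Fin g → ℤ) :
    0 ≤ ind G ℓ b := by
  unfold ind; split_ifs <;> norm_num

theorem ind_sq {g : ℕ} (G : ∀ ℓ : ℕ, Set (Fin g → ZMod ℓ)) (ℓ : ℕ) (b : Fin g → ℤ) :
    ind G ℓ b * ind G ℓ b = ind G ℓ b := by
  unfold ind; split_ifs <;> norm_num

theorem ind_le_one {g : ℕ} (G : ∀ ℓ : ℕ, Set (Fin g → ZMod ℓ)) (ℓ : ℕ) (b : Fin g → ℤ) :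
    ind G ℓ b ≤ 1 := by
  unfold ind; split_ifs <;> norm_num

theorem den_nonneg {g : ℕ} (G : ∀ ℓ : ℕ, Set (Fin g → ZMod ℓ)) (ℓ : ℕ) : 0 ≤ den G ℓ := by
  unfold den; positivity

/-- first moment, lower bound -/
theorem first {g : ℕ} (G : ∀ ℓ : ℕ, Set (Fin g → ZMod ℓ)) (K : Fin g → ℕ) (ℓ M : ℕ) (hℓ : 0 < ℓ)
    (hM : ∀ i, M ≤ 2 * K i + 1) (hlM : ℓ ≤ M) :
    den G ℓ * (∏ i, (2 * (K i : ℝ) + 1)) * (1 - 2 ^ g * (ℓ / M)) ≤ ∑ b ∈ bx K, ind G ℓ b := by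
  classical
  have : NeZero ℓ := ⟨hℓ.ne'⟩
  have hfin : (G ℓ).Finite := Set.toFinite _
  have h1 : ∀ b, ind G ℓ b = ∑ r ∈ hfin.toFinset, if (fun i => (b i : ZMod ℓ)) = r then (1 : ℝ) else 0 := by
    intro b
    rw [Finset.sum_ite_eq]
    unfold ind
    simp only [Set.Finite.mem_toFinset]
  have h2 : ∑ b ∈ bx K, ind G ℓ b =
      ∑ r ∈ hfin.toFinset, (((bx K).filter fun b => (fun i => (b i : ZMod ℓ)) = r).card : ℝ) := by
    rw [Finset.sum_congr rfl fun b _ => h1 b, Finset.sum_comm]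
    refine Finset.sum_congr rfl fun r _ => ?_
    rw [Finset.sum_boole]
  rw [h2]
  calc den G ℓ * (∏ i, (2 * (K i : ℝ) + 1)) * (1 - 2 ^ g * (ℓ / M))
      = ∑ _r ∈ hfin.toFinset, (∏ i, (2 * (K i : ℝ) + 1)) / (ℓ : ℝ) ^ g * (1 - 2 ^ g * (ℓ / M)) := by
        rw [Finset.sum_const, nsmul_eq_mul, den, Set.ncard_eq_toFinset_card _ hfin]
        ring
    _ ≤ _ := Finset.sum_le_sum fun r _ => (cnt_box K ℓ M hℓ hlM hM r).2

/-- second moment, upper bound -/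
theorem second {g : ℕ} (G : ∀ ℓ : ℕ, Set (Fin g → ZMod ℓ)) (K : Fin g → ℕ) (ℓ ℓ' M : ℕ)
    (hℓ : 0 < ℓ) (hℓ' : 0 < ℓ') (hc : ℓ.Coprime ℓ')
    (hM : ∀ i, M ≤ 2 * K i + 1) (hlM : ℓ * ℓ' ≤ M) :
    ∑ b ∈ bx K, ind G ℓ b * ind G ℓ' b ≤
      den G ℓ * den G ℓ' * (∏ i, (2 * (K i : ℝ) + 1)) * (1 + 2 ^ g * (((ℓ * ℓ' : ℕ) : ℝ) / M)) := by
  classical
  have : NeZero ℓ := ⟨hℓ.ne'⟩
  have : NeZero ℓ' := ⟨hℓ'.ne'⟩
  have hfin : (G ℓ).Finite := Set.toFinite _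
  have hfin' : (G ℓ').Finite := Set.toFinite _
  have h1 : ∀ b, ind G ℓ b * ind G ℓ' b = ∑ r ∈ hfin.toFinset ×ˢ hfin'.toFinset,
      if (fun i => (b i : ZMod (ℓ * ℓ'))) = (fun i => (ZMod.chineseRemainder hc).symm (r.1 i, r.2 i))
      then (1 : ℝ) else 0 := by
    intro b
    have key : ∀ r : (Fin g → ZMod ℓ) × (Fin g → ZMod ℓ'),
        ((fun i => (b i : ZMod (ℓ * ℓ'))) =
          (fun i => (ZMod.chineseRemainder hc).symm (r.1 i, r.2 i))) ↔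
        (((fun i => (b i : ZMod ℓ)), (fun i => (b i : ZMod ℓ'))) = r) := by
      intro r
      rw [funext_iff, Prod.ext_iff]
      constructor
      · intro h
        have h3 : ∀ i, ((b i : ZMod ℓ), (b i : ZMod ℓ')) = (r.1 i, r.2 i) := by
          intro i
          have h4 := congrArg (ZMod.chineseRemainder hc) (h i)
          rw [RingEquiv.apply_symm_apply, map_intCast] at h4
          exact h4
        exact ⟨funext fun i => (Prod.ext_iff.1 (h3 i)).1, funext fun i => (Prod.ext_iff.1 (h3 i)).2⟩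
      · rintro ⟨h3, h4⟩ i
        rw [← h3, ← h4]
        apply (ZMod.chineseRemainder hc).injective
        rw [RingEquiv.apply_symm_apply, map_intCast]
        rfl
    rw [Finset.sum_congr rfl fun r _ => if_congr (key r) rfl rfl, Finset.sum_ite_eq]
    unfold ind
    simp only [Finset.mem_product, Set.Finite.mem_toFinset]
    by_cases h5 : (fun i => (b i : ZMod ℓ)) ∈ G ℓ <;> by_cases h6 : (fun i => (b i : ZMod ℓ')) ∈ G ℓ' <;>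
      simp [h5, h6]
  have h2 : ∑ b ∈ bx K, ind G ℓ b * ind G ℓ' b =
      ∑ r ∈ hfin.toFinset ×ˢ hfin'.toFinset, (((bx K).filter fun b =>
        (fun i => (b i : ZMod (ℓ * ℓ'))) =
          (fun i => (ZMod.chineseRemainder hc).symm (r.1 i, r.2 i))).card : ℝ) := by
    rw [Finset.sum_congr rfl fun b _ => h1 b, Finset.sum_comm]
    refine Finset.sum_congr rfl fun r _ => ?_
    rw [Finset.sum_boole]
  rw [h2]
  calc _ ≤ ∑ _r ∈ hfin.toFinset ×ˢ hfin'.toFinset,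
        (∏ i, (2 * (K i : ℝ) + 1)) / ((ℓ * ℓ' : ℕ) : ℝ) ^ g * (1 + 2 ^ g * (((ℓ * ℓ' : ℕ) : ℝ) / M)) :=
        Finset.sum_le_sum fun r _ => (cnt_box K (ℓ * ℓ') M (Nat.mul_pos hℓ hℓ') hlM hM _).1
    _ = den G ℓ * den G ℓ' * (∏ i, (2 * (K i : ℝ) + 1)) *
        (1 + 2 ^ g * (((ℓ * ℓ' : ℕ) : ℝ) / M)) := by
        rw [Finset.sum_const, nsmul_eq_mul, Finset.card_product, den, den,
          Set.ncard_eq_toFinset_card _ hfin, Set.ncard_eq_toFinset_card _ hfin']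
        push_cast
        rw [mul_pow]
        field_simp

theorem sieve2 {g : ℕ} (T : Finset ℕ) (hT0 : T.Nonempty) (hT : ∀ ℓ ∈ T, ℓ.Prime) (Q : ℕ)
    (hQ : ∀ ℓ ∈ T, ℓ ≤ Q) (δ : ℝ) (h0 : 0 < δ)
    (G : ∀ ℓ : ℕ, Set (Fin g → ZMod ℓ)) (hG : ∀ ℓ ∈ T, δ * (ℓ : ℝ) ^ g ≤ ((G ℓ).ncard : ℝ))
    (K : Fin g → ℕ) (hK : ∀ i, Q ^ 3 ≤ 2 * K i + 1) :
    ({b : Fin g → ℤ | (∀ i, |b i| ≤ K i) ∧ ∀ ℓ ∈ T, (fun i => (b i : ZMod ℓ)) ∉ G ℓ}.ncard : ℝ) ≤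
      (1 / (δ ^ 2 * T.card) + 3 * 2 ^ g / Q) * ∏ i, (2 * (K i : ℝ) + 1) := by
  classical
  set N : ℝ := ∏ i, (2 * (K i : ℝ) + 1) with hN
  have hN0 : 0 < N := Finset.prod_pos fun i _ => by positivity
  obtain ⟨ℓ₀, hℓ₀⟩ := hT0
  have hQ2 : 2 ≤ Q := le_trans (hT ℓ₀ hℓ₀).two_le (hQ ℓ₀ hℓ₀)
  have hQ1 : 0 < Q := by omega
  have hQr : (0 : ℝ) < Q := by exact_mod_cast hQ1
  set η : ℝ := 2 ^ g / (Q : ℝ) with hη
  have hη0 : 0 < η := by positivity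
  set μ : ℝ := ∑ ℓ ∈ T, den G ℓ with hμ
  have hTc : (0 : ℝ) < T.card := by
    have : 0 < T.card := Finset.card_pos.2 ⟨ℓ₀, hℓ₀⟩
    exact_mod_cast this
  have hden : ∀ ℓ ∈ T, δ ≤ den G ℓ := by
    intro ℓ hℓ
    have h1 : (0 : ℝ) < (ℓ : ℝ) ^ g := by
      have : (0 : ℝ) < ℓ := by exact_mod_cast (hT ℓ hℓ).pos
      positivity
    rw [den, le_div_iff₀ h1]
    exact hG ℓ hℓ
  have hμδ : δ * T.card ≤ μ := by
    calc δ * T.card = ∑ _ℓ ∈ T, δ := by rw [Finset.sum_const, nsmul_eq_mul, mul_comm]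
      _ ≤ μ := Finset.sum_le_sum hden
  have hμ0 : 0 < μ := lt_of_lt_of_le (by positivity) hμδ
  -- first moment
  have hfirst : μ * N * (1 - η) ≤ ∑ b ∈ bx K, ∑ ℓ ∈ T, ind G ℓ b := by
    rw [Finset.sum_comm, hμ, Finset.sum_mul, Finset.sum_mul]
    refine Finset.sum_le_sum fun ℓ hℓ => ?_
    have h1 := first G K ℓ (Q ^ 3) (hT ℓ hℓ).pos hK
      (le_trans (hQ ℓ hℓ) (by
        calc Q = Q ^ 1 := (pow_one Q).symm
          _ ≤ Q ^ 3 := Nat.pow_le_pow_right hQ1 (by norm_num)))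
    refine le_trans ?_ h1
    refine mul_le_mul_of_nonneg_left ?_ (mul_nonneg (den_nonneg G ℓ) hN0.le)
    have h2 : ((ℓ : ℝ) / ((Q ^ 3 : ℕ) : ℝ)) ≤ 1 / Q := by
      have h3 : (ℓ : ℝ) ≤ Q := by exact_mod_cast hQ ℓ hℓ
      have h4 : (1 : ℝ) ≤ Q := by exact_mod_cast hQ1
      push_cast
      rw [div_le_div_iff₀ (by positivity) hQr]
      nlinarith [mul_le_mul h3 (le_refl (Q : ℝ)) hQr.le hQr.le, mul_pos hQr hQr,
        mul_le_mul_of_nonneg_left h4 (mul_pos hQr hQr).le]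
    have h5 : (2 : ℝ) ^ g * ((ℓ : ℝ) / ((Q ^ 3 : ℕ) : ℝ)) ≤ η := by
      rw [hη, div_eq_mul_one_div ((2 : ℝ) ^ g)]
      exact mul_le_mul_of_nonneg_left h2 (by positivity)
    linarith
  -- second moment
  have hsecond : ∑ b ∈ bx K, (∑ ℓ ∈ T, ind G ℓ b) ^ 2 ≤ T.card * N + μ ^ 2 * N * (1 + η) := by
    have h1 : ∑ b ∈ bx K, (∑ ℓ ∈ T, ind G ℓ b) ^ 2 =
        ∑ ℓ ∈ T, ∑ ℓ' ∈ T, ∑ b ∈ bx K, ind G ℓ b * ind G ℓ' b := by
      rw [Finset.sum_congr rfl fun b _ => by rw [sq, Finset.sum_mul_sum]]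
      rw [Finset.sum_comm]
      refine Finset.sum_congr rfl fun ℓ _ => ?_
      rw [Finset.sum_comm]
    rw [h1]
    have h2 : ∀ ℓ ∈ T, ∑ ℓ' ∈ T, ∑ b ∈ bx K, ind G ℓ b * ind G ℓ' b ≤
        N + den G ℓ * μ * N * (1 + η) := by
      intro ℓ hℓ
      rw [← Finset.add_sum_erase T _ hℓ]
      refine add_le_add ?_ ?_
      · calc ∑ b ∈ bx K, ind G ℓ b * ind G ℓ b ≤ ∑ _b ∈ bx K, (1 : ℝ) :=
              Finset.sum_le_sum fun b _ => by rw [ind_sq]; exact ind_le_one G ℓ b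
          _ = N := by rw [Finset.sum_const, nsmul_eq_mul, mul_one, card_bx]
      · have h3 : ∀ ℓ' ∈ T.erase ℓ, ∑ b ∈ bx K, ind G ℓ b * ind G ℓ' b ≤
            den G ℓ * den G ℓ' * N * (1 + η) := by
          intro ℓ' hℓ'
          obtain ⟨hne, hℓ'T⟩ := Finset.mem_erase.1 hℓ'
          have hc : ℓ.Coprime ℓ' := (Nat.coprime_primes (hT ℓ hℓ) (hT ℓ' hℓ'T)).2 (Ne.symm hne)
          have hle2 : ℓ * ℓ' ≤ Q ^ 2 := by
            rw [sq]; exact Nat.mul_le_mul (hQ ℓ hℓ) (hQ ℓ' hℓ'T)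
          have h4 := second G K ℓ ℓ' (Q ^ 3) (hT ℓ hℓ).pos (hT ℓ' hℓ'T).pos hc hK
            (le_trans hle2 (Nat.pow_le_pow_right hQ1 (by norm_num)))
          refine le_trans h4 ?_
          refine mul_le_mul_of_nonneg_left ?_
            (mul_nonneg (mul_nonneg (den_nonneg G ℓ) (den_nonneg G ℓ')) hN0.le)
          have h6 : (((ℓ * ℓ' : ℕ) : ℝ) / ((Q ^ 3 : ℕ) : ℝ)) ≤ 1 / Q := by
            have h7 : ((ℓ * ℓ' : ℕ) : ℝ) ≤ (Q : ℝ) ^ 2 := by exact_mod_cast hle2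
            push_cast at h7 ⊢
            rw [div_le_div_iff₀ (by positivity) hQr]
            nlinarith
          have h8 : (2 : ℝ) ^ g * (((ℓ * ℓ' : ℕ) : ℝ) / ((Q ^ 3 : ℕ) : ℝ)) ≤ η := by
            rw [hη, div_eq_mul_one_div ((2 : ℝ) ^ g)]
            exact mul_le_mul_of_nonneg_left h6 (by positivity)
          linarith
        calc ∑ ℓ' ∈ T.erase ℓ, ∑ b ∈ bx K, ind G ℓ b * ind G ℓ' b
            ≤ ∑ ℓ' ∈ T.erase ℓ, den G ℓ * den G ℓ' * N * (1 + η) := Finset.sum_le_sum h3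
          _ ≤ ∑ ℓ' ∈ T, den G ℓ * den G ℓ' * N * (1 + η) :=
              Finset.sum_le_sum_of_subset_of_nonneg (Finset.erase_subset _ _) fun ℓ' _ _ =>
                mul_nonneg (mul_nonneg (mul_nonneg (den_nonneg G ℓ) (den_nonneg G ℓ')) hN0.le)
                  (by linarith)
          _ = den G ℓ * μ * N * (1 + η) := by
              rw [hμ, Finset.mul_sum, Finset.sum_mul, Finset.sum_mul]
    calc ∑ ℓ ∈ T, ∑ ℓ' ∈ T, ∑ b ∈ bx K, ind G ℓ b * ind G ℓ' b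
        ≤ ∑ ℓ ∈ T, (N + den G ℓ * μ * N * (1 + η)) := Finset.sum_le_sum h2
      _ = T.card * N + μ ^ 2 * N * (1 + η) := by
          rw [Finset.sum_add_distrib, Finset.sum_const, nsmul_eq_mul]
          congr 1
          rw [← Finset.sum_mul, ← Finset.sum_mul, ← Finset.sum_mul, ← hμ]
          ring
  -- the sifted set
  set Z : Finset (Fin g → ℤ) := (bx K).filter fun b => ∀ ℓ ∈ T, (fun i => (b i : ZMod ℓ)) ∉ G ℓ
    with hZ
  have hZset : {b : Fin g → ℤ | (∀ i, |b i| ≤ K i) ∧ ∀ ℓ ∈ T, (fun i => (b i : ZMod ℓ)) ∉ G ℓ} =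
      (Z : Set (Fin g → ℤ)) := by
    ext b
    simp only [hZ, Finset.coe_filter, mem_bx]
  rw [hZset, Set.ncard_coe_finset]
  have hvar : (Z.card : ℝ) * μ ^ 2 ≤ ∑ b ∈ bx K, (∑ ℓ ∈ T, ind G ℓ b - μ) ^ 2 := by
    calc (Z.card : ℝ) * μ ^ 2 = ∑ b ∈ Z, (∑ ℓ ∈ T, ind G ℓ b - μ) ^ 2 := by
          rw [← nsmul_eq_mul, ← Finset.sum_const]
          refine Finset.sum_congr rfl fun b hb => ?_
          have h1 : ∑ ℓ ∈ T, ind G ℓ b = 0 := by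
            refine Finset.sum_eq_zero fun ℓ hℓ => ?_
            unfold ind
            exact if_neg ((Finset.mem_filter.1 hb).2 ℓ hℓ)
          rw [h1]; ring
      _ ≤ ∑ b ∈ bx K, (∑ ℓ ∈ T, ind G ℓ b - μ) ^ 2 :=
          Finset.sum_le_sum_of_subset_of_nonneg (Finset.filter_subset _ _) fun b _ _ => sq_nonneg _
  have hexp : ∑ b ∈ bx K, (∑ ℓ ∈ T, ind G ℓ b - μ) ^ 2 =
      ∑ b ∈ bx K, (∑ ℓ ∈ T, ind G ℓ b) ^ 2 - 2 * μ * ∑ b ∈ bx K, ∑ ℓ ∈ T, ind G ℓ b + μ ^ 2 * N := by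
    rw [Finset.mul_sum, ← Finset.sum_sub_distrib]
    have : μ ^ 2 * N = ∑ _b ∈ bx K, μ ^ 2 := by
      rw [Finset.sum_const, nsmul_eq_mul, card_bx, mul_comm]
    rw [this, ← Finset.sum_add_distrib]
    refine Finset.sum_congr rfl fun b _ => by ring
  have hmain : (Z.card : ℝ) * μ ^ 2 ≤ T.card * N + 3 * η * μ ^ 2 * N := by
    have h1 : 2 * μ * (μ * N * (1 - η)) ≤ 2 * μ * ∑ b ∈ bx K, ∑ ℓ ∈ T, ind G ℓ b :=
      mul_le_mul_of_nonneg_left hfirst (by positivity)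
    nlinarith [hvar, hexp, hsecond, h1]
  have hfin : (Z.card : ℝ) ≤ (T.card / μ ^ 2 + 3 * η) * N := by
    have h1 : (T.card / μ ^ 2 + 3 * η) * N = (T.card * N + 3 * η * μ ^ 2 * N) / μ ^ 2 := by
      field_simp
    rw [h1, le_div_iff₀ (by positivity)]
    exact hmain
  refine hfin.trans (mul_le_mul_of_nonneg_right ?_ hN0.le)
  have h2 : (T.card : ℝ) / μ ^ 2 ≤ 1 / (δ ^ 2 * T.card) := by
    rw [div_le_div_iff₀ (by positivity) (by positivity)]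
    have h3 : (δ * T.card) ^ 2 ≤ μ ^ 2 := pow_le_pow_left₀ (by positivity) hμδ 2
    nlinarith
  have h4 : 3 * η = 3 * 2 ^ g / Q := by rw [hη]; ring
  linarith

end Pool.Agent.MP_4960c7.AR
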