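import Pool.Agent.Lib.MP_4960c7_ag.AR.Defs

/-!
# ARK-Sq: few b with q^g | b_0^2
-/

namespace Pool.Agent.MP_4960c7.AR

open Polynomial

private theorem Sq_tt {q : ℕ} (hq : 0 < q) : tt q ^ 2 ≤ 4 * q := by
  unfold tt
  have h1 : 1 ≤ Nat.sqrt q := Nat.sqrt_pos.2 hq
  have h2 : Nat.sqrt q * Nat.sqrt q ≤ q := Nat.sqrt_le q
  nlinarith

private theorem Sq_sum (g : ℕ) : ∑ i : Fin g, (g - (i : ℕ)) = g * (g + 1) / 2 := by
  rw [Fin.sum_univ_eq_sum_range (fun i => g - i) g]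
  have h1 : ∑ i ∈ Finset.range g, (g - i) = ∑ i ∈ Finset.range g, (i + 1) := by
    rw [← Finset.sum_range_reflect (fun i => i + 1) g]
    refine Finset.sum_congr rfl fun i hi => ?_
    have := Finset.mem_range.1 hi
    omega
  have h2 : ∑ i ∈ Finset.range (g + 1), i = ∑ i ∈ Finset.range g, (i + 1) := by
    rw [Finset.sum_range_succ']
    simp
  rw [h1, ← h2, Finset.sum_range_id]
  congr 1
  rw [Nat.add_sub_cancel, mul_comm]

private theorem Sq_card (q g t : ℕ) (hq : 0 < q) (ht : t ^ 2 ≤ 4 * q) :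
    ((Finset.Icc (-((4 ^ g * t ^ g : ℕ) : ℤ)) ((4 ^ g * t ^ g : ℕ) : ℤ)).filter
      (fun x : ℤ => (q : ℤ) ^ g ∣ x ^ 2)).card ≤ 2 * (64 ^ g + 1) := by
  classical
  have hqg : (0 : ℤ) < (q : ℤ) ^ g := by positivity
  have h1 : Set.InjOn (fun x : ℤ => (decide (0 ≤ x), (x ^ 2 / (q : ℤ) ^ g).toNat))
      ((Finset.Icc (-((4 ^ g * t ^ g : ℕ) : ℤ)) ((4 ^ g * t ^ g : ℕ) : ℤ)).filter
      (fun x : ℤ => (q : ℤ) ^ g ∣ x ^ 2)) := by
    intro x hx y hy hxy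
    rw [Finset.mem_coe, Finset.mem_filter] at hx hy
    simp only [Prod.mk.injEq, decide_eq_decide] at hxy
    obtain ⟨hs, hm⟩ := hxy
    have hx0 : 0 ≤ x ^ 2 / (q : ℤ) ^ g := Int.ediv_nonneg (sq_nonneg x) hqg.le
    have hy0 : 0 ≤ y ^ 2 / (q : ℤ) ^ g := Int.ediv_nonneg (sq_nonneg y) hqg.le
    have h2 : x ^ 2 / (q : ℤ) ^ g = y ^ 2 / (q : ℤ) ^ g := by
      rw [← Int.toNat_of_nonneg hx0, ← Int.toNat_of_nonneg hy0, hm]
    have h3 : x ^ 2 = y ^ 2 := by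
      rw [← Int.ediv_mul_cancel hx.2, ← Int.ediv_mul_cancel hy.2, h2]
    rcases sq_eq_sq_iff_eq_or_eq_neg.1 h3 with h4 | h4
    · exact h4
    · by_cases h5 : 0 ≤ x
      · have h6 := hs.1 h5
        omega
      · have h6 : ¬ 0 ≤ y := fun h => h5 (hs.2 h)
        omega
  have h2 : ∀ x ∈ ((Finset.Icc (-((4 ^ g * t ^ g : ℕ) : ℤ)) ((4 ^ g * t ^ g : ℕ) : ℤ)).filter
      (fun x : ℤ => (q : ℤ) ^ g ∣ x ^ 2)), (fun x : ℤ => (decide (0 ≤ x), (x ^ 2 / (q : ℤ) ^ g).toNat)) x ∈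
      (Finset.univ : Finset Bool) ×ˢ Finset.range (64 ^ g + 1) := by
    intro x hx
    rw [Finset.mem_filter, Finset.mem_Icc] at hx
    obtain ⟨⟨hx1, hx2⟩, -⟩ := hx
    rw [Finset.mem_product]
    refine ⟨Finset.mem_univ _, ?_⟩
    rw [Finset.mem_range, Nat.lt_succ_iff, Int.toNat_le]
    have h3 : x ^ 2 ≤ (((4 ^ g * t ^ g : ℕ) : ℤ)) ^ 2 := by
      rw [← sq_abs x]
      exact pow_le_pow_left₀ (abs_nonneg x) (abs_le.2 ⟨hx1, hx2⟩) 2
    have h4 : (4 ^ g * t ^ g) ^ 2 ≤ 64 ^ g * q ^ g := by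
      calc (4 ^ g * t ^ g) ^ 2 = 16 ^ g * (t ^ 2) ^ g := by
            rw [mul_pow, ← pow_mul, ← pow_mul, ← pow_mul, mul_comm g 2, pow_mul 4 2 g]
            norm_num
        _ ≤ 16 ^ g * (4 * q) ^ g := Nat.mul_le_mul_left _ (Nat.pow_le_pow_left ht g)
        _ = 64 ^ g * q ^ g := by
            rw [mul_pow, ← mul_assoc, ← mul_pow]
            norm_num
    have h5 : x ^ 2 ≤ (64 ^ g : ℤ) * (q : ℤ) ^ g := by
      refine h3.trans ?_
      exact_mod_cast h4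
    push_cast
    exact Int.ediv_le_of_le_mul hqg h5
  have h3 := Finset.card_le_card_of_injOn _ h2 h1
  rw [Finset.card_product, Finset.card_range] at h3
  simpa using h3

theorem square_div (g : ℕ) (hg : 0 < g) : ∃ C : ℝ, ∀ q : ℕ, 0 < q →
    ({b : Fin g → ℤ | (∀ i, |b i| ≤ bd q g i) ∧ (q : ℤ) ^ g ∣ b ⟨0, hg⟩ ^ 2}.ncard : ℝ) * tt q ≤
      C * V q g := by
  classical
  refine ⟨(((2 * (64 ^ g + 1) * (3 * 4 ^ g)) ^ g : ℕ) : ℝ), fun q hq => ?_⟩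
  obtain ⟨t, htdef⟩ : ∃ t, t = tt q := ⟨_, rfl⟩
  have ht2 : t ^ 2 ≤ 4 * q := by rw [htdef]; exact Sq_tt hq
  have ht1 : 1 ≤ t := by rw [htdef]; unfold tt; omega
  have hV : V q g = ((t ^ (g * (g + 1) / 2) : ℕ) : ℝ) := by
    unfold V
    rw [← htdef]
    push_cast
    rfl
  let F : Fin g → Finset ℤ := fun i => if i = ⟨0, hg⟩ then
    (Finset.Icc (-((4 ^ g * t ^ g : ℕ) : ℤ)) ((4 ^ g * t ^ g : ℕ) : ℤ)).filter (fun x : ℤ => (q : ℤ) ^ g ∣ x ^ 2)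
    else Finset.Icc (-(bd q g i : ℤ)) (bd q g i)
  have hsub : {b : Fin g → ℤ | (∀ i, |b i| ≤ bd q g i) ∧ (q : ℤ) ^ g ∣ b ⟨0, hg⟩ ^ 2} ⊆
      ((Fintype.piFinset F : Finset (Fin g → ℤ)) : Set (Fin g → ℤ)) := by
    rintro b ⟨hb, hb0⟩
    rw [Finset.mem_coe, Fintype.mem_piFinset]
    intro i
    simp only [F]
    split_ifs with hi
    · rw [hi, Finset.mem_filter, Finset.mem_Icc]
      have h1 := abs_le.1 (hb ⟨0, hg⟩)
      have h2 : bd q g ⟨0, hg⟩ = 4 ^ g * t ^ g := by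
        unfold bd
        rw [htdef]
        rfl
      rw [h2] at h1
      exact ⟨h1, hb0⟩
    · rw [Finset.mem_Icc]
      exact abs_le.1 (hb i)
  have hcard : ({b : Fin g → ℤ | (∀ i, |b i| ≤ bd q g i) ∧ (q : ℤ) ^ g ∣ b ⟨0, hg⟩ ^ 2}.ncard) ≤ ∏ i, (F i).card := by
    refine (Set.ncard_le_ncard hsub (Finset.finite_toSet _)).trans ?_
    rw [Set.ncard_coe_finset, Fintype.card_piFinset]
  have hprod : (∏ i, (F i).card) * t ≤ (2 * (64 ^ g + 1) * (3 * 4 ^ g)) ^ g * t ^ (g * (g + 1) / 2) := by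
    have h1 : t = ∏ i : Fin g, (if i = ⟨0, hg⟩ then t else 1) := by
      rw [Finset.prod_ite_eq' Finset.univ (⟨0, hg⟩ : Fin g) (fun _ => t), if_pos (Finset.mem_univ _)]
    have h2 : (2 * (64 ^ g + 1) * (3 * 4 ^ g)) ^ g * t ^ (g * (g + 1) / 2) =
        ∏ i : Fin g, ((2 * (64 ^ g + 1) * (3 * 4 ^ g)) * t ^ (g - (i : ℕ))) := by
      rw [Finset.prod_mul_distrib, Finset.prod_const, Finset.card_univ, Fintype.card_fin,
        Finset.prod_pow_eq_pow_sum, Sq_sum]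
    have h3 : (∏ i, (F i).card) * t = ∏ i : Fin g, ((F i).card * (if i = ⟨0, hg⟩ then t else 1)) := by
      rw [Finset.prod_mul_distrib, ← h1]
    rw [h2, h3]
    refine Finset.prod_le_prod' fun i _ => ?_
    simp only [F]
    split_ifs with hi
    · have h4 := Sq_card q g t hq ht2
      have h5 : t ≤ t ^ (g - (i : ℕ)) := by
        rw [hi]
        exact Nat.le_self_pow (by simp; omega) t
      calc _ ≤ (2 * (64 ^ g + 1)) * t ^ (g - (i : ℕ)) := Nat.mul_le_mul h4 h5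
        _ ≤ _ := Nat.mul_le_mul_right _ (Nat.le_mul_of_pos_right _ (by positivity))
    · rw [mul_one, Int.card_Icc]
      have h4 : bd q g i = 4 ^ g * t ^ (g - (i : ℕ)) := by
        unfold bd
        rw [htdef]
      have h5 : 1 ≤ bd q g i := by
        rw [h4]
        exact Nat.one_le_iff_ne_zero.2 (by positivity)
      have h6 : ((bd q g i : ℤ) + 1 - (-(bd q g i : ℤ))).toNat = 2 * bd q g i + 1 := by omega
      rw [h6]
      calc 2 * bd q g i + 1 ≤ 3 * bd q g i := by omega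
        _ = (3 * 4 ^ g) * t ^ (g - (i : ℕ)) := by rw [h4]; ring
        _ ≤ _ := Nat.mul_le_mul_right _ (Nat.le_mul_of_pos_left _ (by positivity))
  rw [hV, ← htdef]
  exact_mod_cast (Nat.mul_le_mul_right t hcard).trans hprod

end Pool.Agent.MP_4960c7.AR
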