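import Pool.Agent.Lib.MP_4960c7_ag.AR.Up
import Pool.Agent.Lib.MP_4960c7_ag.AR.Sq
import Pool.Agent.Lib.MP_4960c7_ag.AR.Low
import Pool.Agent.Lib.MP_4960c7_ag.AR.Ff
import Pool.Agent.Lib.MP_4960c7_ag.AR.SivB
import Pool.Agent.Lib.MP_4960c7_ag.AR.Cheb
import Pool.Agent.Lib.MP_4960c7_ag.AR.Core
import Pool.Agent.Lib.MP_4960c7_ag.AR.Int

/-!
# The exceptional real Weil polynomials: a power saving bound
-/

namespace Pool.Agent.MP_4960c7.AR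

open Polynomial

theorem fin_box (q g : ℕ) : {b : Fin g → ℤ | ∀ i, |b i| ≤ bd q g i}.Finite := by
  refine (Set.Finite.pi' (fun i : Fin g => Set.finite_Icc (-(bd q g i : ℤ)) (bd q g i))).subset fun b hb i => ?_
  have h := _root_.abs_le.mp (hb i)
  exact ⟨h.1, h.2⟩

theorem finite_weil (q g : ℕ) : {b : Fin g → ℤ | IsWeil q b}.Finite :=
  (fin_box q g).subset fun _ hb i => AR.abs_le hb i

/-- a polynomial with a relation is reducible, or its constant term is divisible, or it is bad at all primes of `T` -/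
theorem fin_cover {g q p a : ℕ} (hg : 0 < g) (hp : p.Prime) (hq : q = p ^ a) (hq0 : 0 < q) (T : Finset ℕ)
    (hT : ∀ ℓ ∈ T, ℓ.Prime ∧ 3 ≤ ℓ ∧ ℓ ≠ p) :
    {b : Fin g → ℤ | IsWeil q b ∧ ¬ MaxAngleRank q b} ⊆
      ({b : Fin g → ℤ | IsWeil q b ∧ ¬ Irreducible (pol b)} ∪
        {b : Fin g → ℤ | (∀ i, |b i| ≤ bd q g i) ∧ (q : ℤ) ^ g ∣ b ⟨0, hg⟩ ^ 2}) ∪
      {b : Fin g → ℤ | (∀ i, |b i| ≤ bd q g i) ∧ ∀ ℓ ∈ T, (fun i => (b i : ZMod ℓ)) ∉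
        {c : Fin g → ZMod ℓ | Good q ℓ c}} := by
  rintro b ⟨hW, hM⟩
  by_contra hcon
  rw [Set.mem_union, Set.mem_union] at hcon
  push Not at hcon
  obtain ⟨⟨h1, h2⟩, h3⟩ := hcon
  have hbox : ∀ i, |b i| ≤ bd q g i := fun i => AR.abs_le hW i
  have hirr : Irreducible (pol b) := by
    by_contra hi
    exact h1 ⟨hW, hi⟩
  have hnd : ¬ (q : ℤ) ^ g ∣ b ⟨0, hg⟩ ^ 2 := fun hd => h2 ⟨hbox, hd⟩
  obtain ⟨ℓ, hℓ, hgood⟩ : ∃ ℓ ∈ T, Good q ℓ (fun i => (b i : ZMod ℓ)) := by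
    by_contra hno
    push Not at hno
    exact h3 ⟨hbox, fun ℓ hℓ => hno ℓ hℓ⟩
  obtain ⟨hℓp, hℓ3, hℓne⟩ := hT ℓ hℓ
  have hℓq : ¬ ℓ ∣ q := by
    rw [hq]
    intro hd
    exact hℓne ((Nat.prime_dvd_prime_iff_eq hℓp hp).mp (hℓp.dvd_of_dvd_pow hd))
  unfold MaxAngleRank at hM
  push Not at hM
  obtain ⟨w, hw, hb, n, hrel, hn⟩ := hM
  obtain ⟨j, m, hm, hu⟩ := core hq0 hℓp (by omega) hℓq b hirr hgood w hw hb n hn hrel
  exact hnd (dvd_of_root_of_unity hg hq0 b hirr w hw hb j m hm hu)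


theorem exists_primes (S Q p : ℕ) : ∃ T : Finset ℕ,
    (∀ ℓ ∈ T, ℓ.Prime ∧ S ≤ ℓ ∧ ℓ ≠ p ∧ ℓ ≤ Q) ∧ Nat.primeCounting Q ≤ T.card + S + 1 := by
  classical
  refine ⟨((Nat.primesLE Q).filter fun ℓ => S ≤ ℓ).erase p, ?_, ?_⟩
  · intro ℓ hℓ
    rw [Finset.mem_erase, Finset.mem_filter, Nat.mem_primesLE] at hℓ
    exact ⟨hℓ.2.1.2, hℓ.2.2, hℓ.1, hℓ.2.1.1⟩
  · rw [← Nat.primesLE_card_eq_primeCounting,
      ← Finset.card_filter_add_card_filter_not (s := Nat.primesLE Q) fun ℓ => S ≤ ℓ]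
    have h1 : ((Nat.primesLE Q).filter fun ℓ => ¬ S ≤ ℓ).card ≤ S := by
      calc _ ≤ (Finset.range S).card := Finset.card_le_card fun ℓ hℓ => by
            rw [Finset.mem_filter] at hℓ
            exact Finset.mem_range.2 (not_le.1 hℓ.2)
        _ = S := Finset.card_range S
    have h2 := Finset.pred_card_le_card_erase (s := (Nat.primesLE Q).filter fun ℓ => S ≤ ℓ) (a := p)
    omega

/-- conditions which hold for all large `x` -/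
theorem large_aux (N C : ℝ) : ∀ᶠ x : ℝ in Filter.atTop,
    1 ≤ x ∧ x ^ (0.16 : ℝ) + 1 ≤ x ^ (1 / 6 : ℝ) ∧ N ≤ x ^ (0.16 : ℝ) ∧
      C ≤ x ^ (0.15 - 1 / 7 : ℝ) := by
  have h1 := tendsto_rpow_atTop (show (0 : ℝ) < 1 / 6 - 0.16 by norm_num)
  have h2 := tendsto_rpow_atTop (show (0 : ℝ) < 0.16 by norm_num)
  have h3 := tendsto_rpow_atTop (show (0 : ℝ) < 0.15 - 1 / 7 by norm_num)
  filter_upwards [Filter.eventually_ge_atTop 1, h1.eventually_ge_atTop 2, h2.eventually_ge_atTop N,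
    h3.eventually_ge_atTop C] with x hx hx1 hx2 hx3
  refine ⟨hx, ?_, hx2, hx3⟩
  have h4 : x ^ (1 / 6 : ℝ) = x ^ (0.16 : ℝ) * x ^ (1 / 6 - 0.16 : ℝ) := by
    rw [← Real.rpow_add (by linarith)]
    norm_num
  have h5 : (1 : ℝ) ≤ x ^ (0.16 : ℝ) := Real.one_le_rpow hx (by norm_num)
  rw [h4]
  nlinarith

theorem rate (g : ℕ) (hg : 0 < g) : ∃ q₀ : ℕ, ∀ q : ℕ, q₀ ≤ q → ∀ p a : ℕ, p.Prime → q = p ^ a →
    ({b : Fin g → ℤ | IsWeil q b ∧ ¬ MaxAngleRank q b}.ncard : ℝ) ≤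
      (q : ℝ) ^ (-(1 / 7) : ℝ) *
        ({b : Fin g → ℤ | IsWeil q b ∧ ¬ (p : ℤ) ∣ b ⟨0, hg⟩}.ncard : ℝ) := by
  obtain ⟨c, hc, q₁, hord⟩ := ordinary g hg
  obtain ⟨C₁, hC₁⟩ := reducible g hg
  obtain ⟨C₂, hC₂⟩ := square_div g hg
  obtain ⟨δ, hδ0, hδ1, L, hgood⟩ := good_count g hg
  obtain ⟨S, hS⟩ : ∃ S : ℕ, S = max L 3 := ⟨_, rfl⟩
  obtain ⟨N₀, hN₀⟩ := Filter.eventually_atTop.1 (pi_lower ((S : ℝ) + 1))
  obtain ⟨B, hBdef⟩ : ∃ B : ℝ, B = (3 * 4 ^ g) ^ g := ⟨_, rfl⟩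
  have hB : 0 < B := by rw [hBdef]; positivity
  obtain ⟨C₃, hC₃⟩ : ∃ C₃ : ℝ, C₃ = |C₁| + |C₂| + (1 / δ ^ 2 + 3 * 2 ^ g) * B := ⟨_, rfl⟩
  obtain ⟨x₀, hx₀⟩ := Filter.eventually_atTop.1 (large_aux N₀ (C₃ / c))
  obtain ⟨q₂, hq₂⟩ := exists_nat_ge x₀
  refine ⟨max q₁ q₂, fun q hq p a hp hqp => ?_⟩
  have hq1 : q₁ ≤ q := (le_max_left _ _).trans hq
  have hqx : x₀ ≤ (q : ℝ) := hq₂.trans (by exact_mod_cast (le_max_right _ _).trans hq)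
  obtain ⟨hx1, hx2, hx3, hx4⟩ := hx₀ q hqx
  have hq0 : 0 < q := by
    have : (0 : ℝ) < q := by linarith
    exact_mod_cast this
  have hqr : (0 : ℝ) < q := by exact_mod_cast hq0
  set x : ℝ := (q : ℝ) with hxdef
  -- the parameter `Q`
  have htt : (0 : ℝ) < tt q := by
    unfold tt
    positivity
  have htq : x ^ (1 / 2 : ℝ) ≤ tt q := by
    rw [← Real.sqrt_eq_rpow, hxdef]
    have h1 : q < tt q ^ 2 := by
      unfold tt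
      exact Nat.lt_succ_sqrt' q
    rw [Real.sqrt_le_left htt.le]
    exact_mod_cast h1.le
  obtain ⟨Q, hQdef⟩ : ∃ Q : ℕ, Q = ⌊(tt q : ℝ) ^ (1 / 3 : ℝ)⌋₊ := ⟨_, rfl⟩
  have hQle : (Q : ℝ) ≤ (tt q : ℝ) ^ (1 / 3 : ℝ) := by
    rw [hQdef]
    exact Nat.floor_le (by positivity)
  have hQ3 : Q ^ 3 ≤ tt q := by
    have h1 : (Q : ℝ) ^ 3 ≤ ((tt q : ℝ) ^ (1 / 3 : ℝ)) ^ 3 := pow_le_pow_left₀ (by positivity) hQle 3
    have h2 : ((tt q : ℝ) ^ (1 / 3 : ℝ)) ^ 3 = tt q := by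
      rw [← Real.rpow_natCast, ← Real.rpow_mul htt.le]
      norm_num
    rw [h2] at h1
    exact_mod_cast h1
  have hQge : x ^ (0.16 : ℝ) ≤ Q := by
    have h1 : (tt q : ℝ) ^ (1 / 3 : ℝ) < Q + 1 := by
      rw [hQdef]
      exact Nat.lt_floor_add_one _
    have h2 : x ^ (1 / 6 : ℝ) ≤ (tt q : ℝ) ^ (1 / 3 : ℝ) := by
      calc x ^ (1 / 6 : ℝ) = (x ^ (1 / 2 : ℝ)) ^ (1 / 3 : ℝ) := by
            rw [← Real.rpow_mul hqr.le]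
            norm_num
        _ ≤ (tt q : ℝ) ^ (1 / 3 : ℝ) := Real.rpow_le_rpow (by positivity) htq (by norm_num)
    linarith
  have hQN : N₀ ≤ Q := by
    have : (N₀ : ℝ) ≤ Q := hx3.trans hQge
    exact_mod_cast this
  have hpow : x ^ (0.15 : ℝ) ≤ x ^ (0.16 : ℝ) := Real.rpow_le_rpow_of_exponent_le hx1 (by norm_num)
  have hQ15 : x ^ (0.15 : ℝ) ≤ Q := hpow.trans hQge
  have ht15 : x ^ (0.15 : ℝ) ≤ tt q :=
    (Real.rpow_le_rpow_of_exponent_le hx1 (by norm_num)).trans htq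
  obtain ⟨T, hT, hTc⟩ := exists_primes S Q p
  have hT15 : x ^ (0.15 : ℝ) ≤ T.card := by
    have h1 := hN₀ Q hQN
    have h2 : (Nat.primeCounting Q : ℝ) ≤ T.card + S + 1 := by exact_mod_cast hTc
    have h3 : x ^ (0.15 : ℝ) ≤ (Q : ℝ) ^ (0.95 : ℝ) := by
      calc x ^ (0.15 : ℝ) ≤ x ^ (0.16 * 0.95 : ℝ) :=
            Real.rpow_le_rpow_of_exponent_le hx1 (by norm_num)
        _ = (x ^ (0.16 : ℝ)) ^ (0.95 : ℝ) := by rw [← Real.rpow_mul hqr.le]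
        _ ≤ (Q : ℝ) ^ (0.95 : ℝ) := Real.rpow_le_rpow (by positivity) hQge (by norm_num)
    linarith
  have hx15 : 0 < x ^ (0.15 : ℝ) := by positivity
  have hTpos : (0 : ℝ) < T.card := lt_of_lt_of_le hx15 hT15
  have hT0 : T.Nonempty := by
    rw [← Finset.card_pos]
    exact_mod_cast hTpos
  have hV : 0 < V q g := pow_pos htt _
  have hK : ∀ i : Fin g, Q ^ 3 ≤ 2 * bd q g i + 1 := by
    intro i
    have h1 : tt q ≤ bd q g i := by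
      unfold bd
      have h2 : tt q ^ 1 ≤ tt q ^ (g - (i : ℕ)) :=
        Nat.pow_le_pow_right (by unfold tt; omega) (by have := i.2; omega)
      rw [pow_one] at h2
      exact h2.trans (Nat.le_mul_of_pos_left _ (by positivity))
    omega
  have hT' : ∀ ℓ ∈ T, ℓ.Prime ∧ 3 ≤ ℓ ∧ ℓ ≠ p := fun ℓ hℓ =>
    ⟨(hT ℓ hℓ).1, (by rw [hS] at hT; exact (le_max_right _ _).trans (hT ℓ hℓ).2.1), (hT ℓ hℓ).2.2.1⟩
  have hTL : ∀ ℓ ∈ T, L ≤ ℓ := fun ℓ hℓ => by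
    rw [hS] at hT
    exact (le_max_left _ _).trans (hT ℓ hℓ).2.1
  have hcov := fin_cover hg hp hqp hq0 T hT'
  have hsv := sieve2 T hT0 (fun ℓ hℓ => (hT ℓ hℓ).1) Q (fun ℓ hℓ => (hT ℓ hℓ).2.2.2) δ hδ0
    (fun ℓ => {c : Fin g → ZMod ℓ | Good q ℓ c})
    (fun ℓ hℓ => hgood ℓ (hT ℓ hℓ).1 (hTL ℓ hℓ) q (by
      rw [hqp]
      intro hd
      exact (hT' ℓ hℓ).2.2 ((Nat.prime_dvd_prime_iff_eq (hT ℓ hℓ).1 hp).mp
        ((hT ℓ hℓ).1.dvd_of_dvd_pow hd))))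
    (bd q g) hK
  have hfin1 : {b : Fin g → ℤ | IsWeil q b ∧ ¬ Irreducible (pol b)}.Finite :=
    (finite_weil q g).subset fun _ hb => hb.1
  have hfin2 : {b : Fin g → ℤ | (∀ i, |b i| ≤ bd q g i) ∧ (q : ℤ) ^ g ∣ b ⟨0, hg⟩ ^ 2}.Finite :=
    (fin_box q g).subset fun _ hb => hb.1
  have hfin3 : {b : Fin g → ℤ | (∀ i, |b i| ≤ bd q g i) ∧ ∀ ℓ ∈ T, (fun i => (b i : ZMod ℓ)) ∉
        {c : Fin g → ZMod ℓ | Good q ℓ c}}.Finite :=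
    (fin_box q g).subset fun _ hb => hb.1
  have hcard := Set.ncard_le_ncard hcov ((hfin1.union hfin2).union hfin3)
  have hcard2 := hcard.trans ((Set.ncard_union_le _ _).trans (Nat.add_le_add_right (Set.ncard_union_le _ _) _))
  have h1 := hC₁ q
  have h2 := hC₂ q hq0
  have h4 := card_box q g
  rw [← hBdef] at h4
  have h5 := hord q hq1 p hp.two_le
  generalize hn1 : ({b : Fin g → ℤ | IsWeil q b ∧ ¬ Irreducible (pol b)}.ncard) = n1 at h1 hcard2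
  generalize hn2 : ({b : Fin g → ℤ | (∀ i, |b i| ≤ bd q g i) ∧ (q : ℤ) ^ g ∣ b ⟨0, hg⟩ ^ 2}.ncard) = n2 at h2 hcard2
  generalize hn3 : ({b : Fin g → ℤ | (∀ i, |b i| ≤ bd q g i) ∧ ∀ ℓ ∈ T, (fun i => (b i : ZMod ℓ)) ∉
        {c : Fin g → ZMod ℓ | Good q ℓ c}}.ncard) = n3 at hsv hcard2
  have hcard3 : ({b : Fin g → ℤ | IsWeil q b ∧ ¬ MaxAngleRank q b}.ncard : ℝ) ≤ (n1 : ℝ) + n2 + n3 := by
    exact_mod_cast hcard2
  -- all three terms are at most a constant times `V / x ^ 0.15`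
  have hsmall : (n1 : ℝ) + n2 ≤ (|C₁| + |C₂|) * V q g / x ^ (0.15 : ℝ) := by
    rw [le_div_iff₀ hx15]
    have e1 : C₁ * V q g ≤ |C₁| * V q g := mul_le_mul_of_nonneg_right (le_abs_self _) hV.le
    have e2 : C₂ * V q g ≤ |C₂| * V q g := mul_le_mul_of_nonneg_right (le_abs_self _) hV.le
    have e3 : ((n1 : ℝ) + n2) * x ^ (0.15 : ℝ) ≤ ((n1 : ℝ) + n2) * tt q :=
      mul_le_mul_of_nonneg_left ht15 (by positivity)
    linarith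
  have hbig : (n3 : ℝ) ≤ (1 / δ ^ 2 + 3 * 2 ^ g) * B * V q g / x ^ (0.15 : ℝ) := by
    have hQpos : (0 : ℝ) < Q := lt_of_lt_of_le hx15 hQ15
    have e1 : 1 / (δ ^ 2 * T.card) ≤ 1 / δ ^ 2 / x ^ (0.15 : ℝ) := by
      rw [div_div]
      exact one_div_le_one_div_of_le (by positivity)
        (mul_le_mul_of_nonneg_left hT15 (by positivity))
    have e2 : 3 * 2 ^ g / (Q : ℝ) ≤ 3 * 2 ^ g / x ^ (0.15 : ℝ) :=
      div_le_div_of_nonneg_left (by positivity) hx15 hQ15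
    have hp0 : (0 : ℝ) ≤ ∏ i : Fin g, (2 * (bd q g i : ℝ) + 1) := Finset.prod_nonneg fun i _ => by positivity
    calc (n3 : ℝ) ≤ (1 / (δ ^ 2 * T.card) + 3 * 2 ^ g / Q) * ∏ i : Fin g, (2 * (bd q g i : ℝ) + 1) := hsv
      _ ≤ (1 / δ ^ 2 / x ^ (0.15 : ℝ) + 3 * 2 ^ g / x ^ (0.15 : ℝ)) * (B * V q g) :=
          mul_le_mul (add_le_add e1 e2) h4 hp0 (by positivity)
      _ = (1 / δ ^ 2 + 3 * 2 ^ g) * B * V q g / x ^ (0.15 : ℝ) := by ring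
  have htotal : ({b : Fin g → ℤ | IsWeil q b ∧ ¬ MaxAngleRank q b}.ncard : ℝ) ≤
      C₃ * V q g / x ^ (0.15 : ℝ) := by
    have e1 : C₃ * V q g / x ^ (0.15 : ℝ) = (|C₁| + |C₂|) * V q g / x ^ (0.15 : ℝ) +
        (1 / δ ^ 2 + 3 * 2 ^ g) * B * V q g / x ^ (0.15 : ℝ) := by
      rw [hC₃]; ring
    rw [e1]
    linarith
  refine htotal.trans ?_
  have hx7 : x ^ (0.15 : ℝ) = x ^ (0.15 - 1 / 7 : ℝ) * x ^ (1 / 7 : ℝ) := by
    rw [← Real.rpow_add hqr]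
    norm_num
  have hC3 : C₃ ≤ c * x ^ (0.15 - 1 / 7 : ℝ) := by
    rw [div_le_iff₀ hc] at hx4
    linarith
  have hx7pos : 0 < x ^ (1 / 7 : ℝ) := by positivity
  have hx8pos : 0 < x ^ (0.15 - 1 / 7 : ℝ) := by positivity
  calc C₃ * V q g / x ^ (0.15 : ℝ) ≤ (c * x ^ (0.15 - 1 / 7 : ℝ)) * V q g / x ^ (0.15 : ℝ) := by
        gcongr
    _ = x ^ (-(1 / 7) : ℝ) * (c * V q g) := by
        rw [hx7, Real.rpow_neg hqr.le]
        field_simp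
    _ ≤ _ := mul_le_mul_of_nonneg_left h5 (by positivity)

end Pool.Agent.MP_4960c7.AR
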