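import Pool.Agent.Lib.MP_4960c7_ag.AR.SivB

/-!
# The second moment sieve in a box of vectors with divisible coordinates
-/

namespace Pool.Agent.MP_4960c7.AR

open Polynomial

/-- the sieve for integer vectors `b` with `p ^ e i ∣ b i` -/
theorem sieve_strat {g : ℕ} (T : Finset ℕ) (hT0 : T.Nonempty) (hT : ∀ ℓ ∈ T, ℓ.Prime) (Q : ℕ)
    (hQ : ∀ ℓ ∈ T, ℓ ≤ Q) (δ : ℝ) (h0 : 0 < δ)
    (G : ∀ ℓ : ℕ, Set (Fin g → ZMod ℓ)) (hG : ∀ ℓ ∈ T, δ * (ℓ : ℝ) ^ g ≤ ((G ℓ).ncard : ℝ))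
    (p : ℕ) (hp : p.Prime) (hTp : ∀ ℓ ∈ T, ℓ ≠ p) (e : Fin g → ℕ)
    (B : Fin g → ℕ) (hB : ∀ i, Q ^ 3 * p ^ e i ≤ B i) :
    ({b : Fin g → ℤ | (∀ i, |b i| ≤ B i) ∧ (∀ i, (p : ℤ) ^ e i ∣ b i) ∧
        ∀ ℓ ∈ T, (fun i => (b i : ZMod ℓ)) ∉ G ℓ}.ncard : ℝ) ≤
      (1 / (δ ^ 2 * T.card) + 3 * 2 ^ g / Q) * ∏ i, (2 * ((B i / p ^ e i : ℕ) : ℝ) + 1) := by
  classical
  have hpe : ∀ i, 0 < p ^ e i := fun i => pow_pos hp.pos _
  have hpz : ∀ i, (p : ℤ) ^ e i ≠ 0 := fun i => by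
    have := hpe i
    exact_mod_cast this.ne'
  let G' : ∀ ℓ : ℕ, Set (Fin g → ZMod ℓ) := fun ℓ => {c | (fun i => ((p : ZMod ℓ) ^ e i) * c i) ∈ G ℓ}
  have hG' : ∀ ℓ ∈ T, δ * (ℓ : ℝ) ^ g ≤ ((G' ℓ).ncard : ℝ) := by
    intro ℓ hℓ
    refine (hG ℓ hℓ).trans ?_
    have hpr : Fact ℓ.Prime := ⟨hT ℓ hℓ⟩
    have hpne : (p : ZMod ℓ) ≠ 0 := by
      intro h
      rw [ZMod.natCast_eq_zero_iff] at h
      exact hTp ℓ hℓ ((Nat.prime_dvd_prime_iff_eq (hT ℓ hℓ) hp).1 h)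
    have hu : ∀ i, (p : ZMod ℓ) ^ e i ≠ 0 := fun i => pow_ne_zero _ hpne
    have h1 : (G ℓ).ncard ≤ (G' ℓ).ncard := by
      have h2 : G ℓ ⊆ (fun c : Fin g → ZMod ℓ => fun i => ((p : ZMod ℓ) ^ e i) * c i) '' (G' ℓ) := by
        intro c hc
        refine ⟨fun i => ((p : ZMod ℓ) ^ e i)⁻¹ * c i, ?_, ?_⟩
        · show (fun i => ((p : ZMod ℓ) ^ e i) * (((p : ZMod ℓ) ^ e i)⁻¹ * c i)) ∈ G ℓ
          have h3 : (fun i => ((p : ZMod ℓ) ^ e i) * (((p : ZMod ℓ) ^ e i)⁻¹ * c i)) = c := by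
            funext i
            rw [mul_inv_cancel_left₀ (hu i)]
          rw [h3]
          exact hc
        · funext i
          show ((p : ZMod ℓ) ^ e i) * (((p : ZMod ℓ) ^ e i)⁻¹ * c i) = c i
          rw [mul_inv_cancel_left₀ (hu i)]
      exact (Set.ncard_le_ncard h2 (Set.toFinite _)).trans (Set.ncard_image_le (Set.toFinite _))
    exact_mod_cast h1
  let K : Fin g → ℕ := fun i => B i / p ^ e i
  have hK : ∀ i, Q ^ 3 ≤ 2 * K i + 1 := by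
    intro i
    have h1 : Q ^ 3 ≤ K i := by
      show Q ^ 3 ≤ B i / p ^ e i
      rw [Nat.le_div_iff_mul_le (hpe i)]
      exact hB i
    omega
  have hsv := sieve2 T hT0 hT Q hQ δ h0 G' hG' K hK
  refine le_trans ?_ hsv
  have hfin : {b : Fin g → ℤ | (∀ i, |b i| ≤ K i) ∧ ∀ ℓ ∈ T, (fun i => (b i : ZMod ℓ)) ∉ G' ℓ}.Finite := by
    refine (Set.Finite.pi' (fun i : Fin g => Set.finite_Icc (-(K i : ℤ)) (K i))).subset fun b hb i => ?_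
    have h := _root_.abs_le.mp (hb.1 i)
    exact ⟨h.1, h.2⟩
  have hle : {b : Fin g → ℤ | (∀ i, |b i| ≤ B i) ∧ (∀ i, (p : ℤ) ^ e i ∣ b i) ∧
        ∀ ℓ ∈ T, (fun i => (b i : ZMod ℓ)) ∉ G ℓ}.ncard ≤
      {b : Fin g → ℤ | (∀ i, |b i| ≤ K i) ∧ ∀ ℓ ∈ T, (fun i => (b i : ZMod ℓ)) ∉ G' ℓ}.ncard := by
    refine Set.ncard_le_ncard_of_injOn (fun b i => b i / (p : ℤ) ^ e i) ?_ ?_ hfin
    · rintro b ⟨h1, h2, h3⟩
      refine ⟨fun i => ?_, fun ℓ hℓ hmem => ?_⟩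
      · obtain ⟨c, hc⟩ := h2 i
        have h4 : b i / (p : ℤ) ^ e i = c := by
          rw [hc, Int.mul_ediv_cancel_left _ (hpz i)]
        show |b i / (p : ℤ) ^ e i| ≤ ((B i / p ^ e i : ℕ) : ℤ)
        rw [h4]
        have h5 := h1 i
        rw [hc, abs_mul] at h5
        have h6 : |(p : ℤ) ^ e i| = ((p ^ e i : ℕ) : ℤ) := by
          rw [abs_of_nonneg (by positivity)]
          push_cast
          rfl
        rw [h6] at h5
        have h7 : c.natAbs ≤ B i / p ^ e i := by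
          rw [Nat.le_div_iff_mul_le (hpe i), mul_comm]
          have h8 : ((p ^ e i * c.natAbs : ℕ) : ℤ) ≤ (B i : ℤ) := by
            rw [Nat.cast_mul, Int.natCast_natAbs]
            exact h5
          exact_mod_cast h8
        rw [← Int.natCast_natAbs]
        exact_mod_cast h7
      · refine h3 ℓ hℓ ?_
        have h4 : (fun i => ((p : ZMod ℓ) ^ e i) * ((b i / (p : ℤ) ^ e i : ℤ) : ZMod ℓ)) ∈ G ℓ := hmem
        have h5 : (fun i => ((p : ZMod ℓ) ^ e i) * ((b i / (p : ℤ) ^ e i : ℤ) : ZMod ℓ)) =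
            fun i => (b i : ZMod ℓ) := by
          funext i
          obtain ⟨c, hc⟩ := h2 i
          have h6 : b i / (p : ℤ) ^ e i = c := by
            rw [hc, Int.mul_ediv_cancel_left _ (hpz i)]
          rw [h6, hc]
          push_cast
          rfl
        rw [h5] at h4
        exact h4
    · rintro b ⟨_, h2, _⟩ b' ⟨_, h2', _⟩ h
      funext i
      have h3 : b i / (p : ℤ) ^ e i = b' i / (p : ℤ) ^ e i := congrFun h i
      rw [← Int.ediv_mul_cancel (h2 i), ← Int.ediv_mul_cancel (h2' i), h3]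
  exact_mod_cast hle

end Pool.Agent.MP_4960c7.AR
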