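import Pool.Agent.Lib.MP_4960c7_ag.AR.Defs

/-!
# Counting integer vectors in a box and in residue classes
-/

namespace Pool.Agent.MP_4960c7.AR

open Polynomial

/-- the number of elements of a residue class in `[-K, K]` -/
theorem cnt_int (d : ℕ) (hd : 0 < d) (K : ℕ) (r : ZMod d) :
    |((((Finset.Icc (-(K : ℤ)) K).filter fun x : ℤ => (x : ZMod d) = r).card : ℕ) : ℝ) -
      (2 * (K : ℝ) + 1) / d| ≤ 1 := by
  obtain ⟨v, rfl⟩ := ZMod.intCast_surjective r
  have h1 : (Finset.Icc (-(K : ℤ)) K).filter (fun x : ℤ => (x : ZMod d) = (v : ZMod d)) =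
      (Finset.Ioc (-(K : ℤ) - 1) K).filter (fun x : ℤ => x ≡ v [ZMOD (d : ℤ)]) := by
    ext x
    simp only [Finset.mem_filter, Finset.mem_Icc, Finset.mem_Ioc, ZMod.intCast_eq_intCast_iff]
    constructor
    · rintro ⟨h, h'⟩
      exact ⟨by omega, h'⟩
    · rintro ⟨h, h'⟩
      exact ⟨by omega, h'⟩
  rw [h1]
  have hd' : (0 : ℤ) < (d : ℤ) := by exact_mod_cast hd
  have h2 := Int.Ioc_filter_modEq_card (-(K : ℤ) - 1) K hd' v
  set c : ℕ := ((Finset.Ioc (-(K : ℤ) - 1) (K : ℤ)).filter (fun x : ℤ => x ≡ v [ZMOD (d : ℤ)])).card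
    with hc
  have h3 : ((c : ℤ) : ℝ) = (c : ℝ) := by norm_num
  set A : ℚ := ((K : ℤ) - v : ℚ) / ((d : ℤ) : ℚ) with hA
  set B : ℚ := (((-(K : ℤ) - 1 : ℤ) : ℚ) - v) / ((d : ℤ) : ℚ) with hB
  have hdq : (0 : ℚ) < ((d : ℤ) : ℚ) := by exact_mod_cast hd'
  have hAB : A - B = (2 * (K : ℚ) + 1) / d := by
    rw [hA, hB, ← sub_div]
    push_cast
    ring
  have hle : ⌊B⌋ ≤ ⌊A⌋ := by
    apply Int.floor_le_floor
    have : (0 : ℚ) ≤ A - B := by rw [hAB]; positivity
    linarith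
  have h4 : (c : ℤ) = ⌊A⌋ - ⌊B⌋ := by
    rw [hc, h2, max_eq_left (by linarith)]
  have h5 : |((c : ℚ)) - (2 * (K : ℚ) + 1) / d| ≤ 1 := by
    have h6 : (c : ℚ) = (⌊A⌋ : ℚ) - (⌊B⌋ : ℚ) := by
      exact_mod_cast congrArg (fun z : ℤ => (z : ℚ)) h4
    rw [h6, ← hAB, abs_le]
    have a1 := Int.floor_le A
    have a2 := Int.lt_floor_add_one A
    have b1 := Int.floor_le B
    have b2 := Int.lt_floor_add_one B
    constructor <;> linarith
  have h7 := (Rat.cast_le (K := ℝ)).2 h5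
  push_cast at h7
  exact_mod_cast h7

theorem pow_le_aux (g : ℕ) (x : ℝ) (h0 : 0 ≤ x) (h1 : x ≤ 1) :
    (1 + x) ^ g ≤ 1 + (2 ^ g - 1) * x := by
  induction g with
  | zero => simp
  | succ g ih =>
    have h2 : (1 : ℝ) ≤ 2 ^ g := one_le_pow₀ (by norm_num)
    calc (1 + x) ^ (g + 1) = (1 + x) ^ g * (1 + x) := pow_succ _ _
      _ ≤ (1 + (2 ^ g - 1) * x) * (1 + x) := mul_le_mul_of_nonneg_right ih (by linarith)
      _ = 1 + (2 ^ g) * x + (2 ^ g - 1) * (x * x) := by ring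
      _ ≤ 1 + (2 ^ g) * x + (2 ^ g - 1) * (1 * x) := by
          have : x * x ≤ 1 * x := mul_le_mul_of_nonneg_right h1 h0
          have h3 : (0 : ℝ) ≤ 2 ^ g - 1 := by linarith
          nlinarith
      _ = 1 + (2 ^ (g + 1) - 1) * x := by ring

/-- the box -/
noncomputable def bx {g : ℕ} (K : Fin g → ℕ) : Finset (Fin g → ℤ) :=
  Fintype.piFinset fun i => Finset.Icc (-(K i : ℤ)) (K i)

theorem mem_bx {g : ℕ} (K : Fin g → ℕ) (b : Fin g → ℤ) : b ∈ bx K ↔ ∀ i, |b i| ≤ K i := by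
  simp only [bx, Fintype.mem_piFinset, Finset.mem_Icc, abs_le]

theorem card_bx {g : ℕ} (K : Fin g → ℕ) : ((bx K).card : ℝ) = ∏ i, (2 * (K i : ℝ) + 1) := by
  rw [bx, Fintype.card_piFinset, Nat.cast_prod]
  refine Finset.prod_congr rfl fun i _ => ?_
  rw [Int.card_Icc]
  have : ((K i : ℤ) + 1 - -(K i : ℤ)).toNat = 2 * K i + 1 := by omega
  rw [this]
  push_cast
  ring

/-- the number of vectors of a residue class in the box -/
theorem cnt_box {g : ℕ} (K : Fin g → ℕ) (d M : ℕ) (hd : 0 < d) (hdM : d ≤ M)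
    (hM : ∀ i, M ≤ 2 * K i + 1) (r : Fin g → ZMod d) :
    (((bx K).filter fun b => (fun i => (b i : ZMod d)) = r).card : ℝ) ≤
        (∏ i, (2 * (K i : ℝ) + 1)) / (d : ℝ) ^ g * (1 + 2 ^ g * (d / M)) ∧
      (∏ i, (2 * (K i : ℝ) + 1)) / (d : ℝ) ^ g * (1 - 2 ^ g * (d / M)) ≤
        (((bx K).filter fun b => (fun i => (b i : ZMod d)) = r).card : ℝ) := by
  have hMpos : 0 < M := lt_of_lt_of_le hd hdM
  have hdr : (0 : ℝ) < d := by exact_mod_cast hd
  have hMr : (0 : ℝ) < M := by exact_mod_cast hMpos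
  have hset : (bx K).filter (fun b => (fun i => (b i : ZMod d)) = r) =
      Fintype.piFinset fun i => (Finset.Icc (-(K i : ℤ)) (K i)).filter
        fun x : ℤ => (x : ZMod d) = r i := by
    ext b
    simp only [bx, Finset.mem_filter, Fintype.mem_piFinset, funext_iff]
    constructor
    · rintro ⟨h, h'⟩ i
      exact ⟨h i, h' i⟩
    · intro h
      exact ⟨fun i => (h i).1, fun i => (h i).2⟩
  set x : ℝ := (d : ℝ) / M with hx
  have hx0 : 0 ≤ x := by positivity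
  have hx1 : x ≤ 1 := by
    rw [hx, div_le_one hMr]
    exact_mod_cast hdM
  have hone : ∀ i, (1 : ℝ) ≤ x * ((2 * (K i : ℝ) + 1) / d) := by
    intro i
    have h1 : (M : ℝ) ≤ 2 * (K i : ℝ) + 1 := by exact_mod_cast hM i
    rw [hx, div_mul_div_comm, mul_comm (d : ℝ), mul_div_mul_right _ _ hdr.ne', le_div_iff₀ hMr]
    linarith
  have hprod : (∏ i, (2 * (K i : ℝ) + 1)) / (d : ℝ) ^ g = ∏ i, ((2 * (K i : ℝ) + 1) / d) := by
    rw [Finset.prod_div_distrib, Finset.prod_const, Finset.card_univ, Fintype.card_fin]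
  have hP : 0 ≤ ∏ i, ((2 * (K i : ℝ) + 1) / (d : ℝ)) := Finset.prod_nonneg fun i _ => by positivity
  have habs : ∀ i, |((((Finset.Icc (-(K i : ℤ)) (K i)).filter
      fun x : ℤ => (x : ZMod d) = r i).card : ℕ) : ℝ) - (2 * (K i : ℝ) + 1) / d| ≤ 1 :=
    fun i => cnt_int d hd (K i) (r i)
  rw [hset, Fintype.card_piFinset, Nat.cast_prod, hprod]
  constructor
  · calc ∏ i, ((((Finset.Icc (-(K i : ℤ)) (K i)).filter
        fun x : ℤ => (x : ZMod d) = r i).card : ℕ) : ℝ)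
        ≤ ∏ i, (((2 * (K i : ℝ) + 1) / d) * (1 + x)) := by
          refine Finset.prod_le_prod (fun i _ => Nat.cast_nonneg _) fun i _ => ?_
          have h1 := (abs_le.1 (habs i)).2
          have h2 := hone i
          nlinarith
      _ = (∏ i, ((2 * (K i : ℝ) + 1) / d)) * (1 + x) ^ g := by
          rw [Finset.prod_mul_distrib, Finset.prod_const, Finset.card_univ, Fintype.card_fin]
      _ ≤ (∏ i, ((2 * (K i : ℝ) + 1) / d)) * (1 + 2 ^ g * x) := by
          refine mul_le_mul_of_nonneg_left ?_ hP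
          have h3 := pow_le_aux g x hx0 hx1
          nlinarith
  · have hbern : 1 - 2 ^ g * x ≤ (1 - x) ^ g := by
      have h1 := one_add_mul_le_pow (a := -x) (by linarith) g
      have h2 : (g : ℝ) ≤ 2 ^ g := by
        exact_mod_cast (Nat.lt_two_pow_self (n := g)).le
      have h3 : 1 + (g : ℝ) * -x ≤ (1 + -x) ^ g := h1
      have h4 : (1 - x) ^ g = (1 + -x) ^ g := by ring
      rw [h4]
      nlinarith
    calc (∏ i, ((2 * (K i : ℝ) + 1) / d)) * (1 - 2 ^ g * x)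
        ≤ (∏ i, ((2 * (K i : ℝ) + 1) / d)) * (1 - x) ^ g :=
          mul_le_mul_of_nonneg_left hbern hP
      _ = ∏ i, (((2 * (K i : ℝ) + 1) / d) * (1 - x)) := by
          rw [Finset.prod_mul_distrib, Finset.prod_const, Finset.card_univ, Fintype.card_fin]
      _ ≤ ∏ i, ((((Finset.Icc (-(K i : ℤ)) (K i)).filter
        fun x : ℤ => (x : ZMod d) = r i).card : ℕ) : ℝ) := by
          refine Finset.prod_le_prod (fun i _ => ?_) fun i _ => ?_
          · exact mul_nonneg (by positivity) (by linarith)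
          · have h1 := (abs_le.1 (habs i)).1
            have h2 := hone i
            nlinarith

end Pool.Agent.MP_4960c7.AR
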