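import Pool.Agent.Lib.MP_4960c7_ag.AR.Defs

/-!
# Tuples of real Weil polynomials: joint multiplicative independence
-/

namespace Pool.Agent.MP_4960c7.AR

open Polynomial

/-- The Frobenius eigenvalues `w i j, q / w i j` of all members of the tuple
(`pol (b i) = ∏ (X - (w i j + q / w i j))`) together have maximal angle rank: all the numbers
`w i j ^ 2 / q` are multiplicatively independent. -/
def JointMaxAngleRank (q : ℕ) {k : ℕ} {g : Fin k → ℕ} (b : ∀ i, Fin (g i) → ℤ) : Prop :=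
  ∀ w : ∀ i, Fin (g i) → ℂ, (∀ i j, w i j ≠ 0) →
    (∀ i, (pol (b i)).map (Int.castRingHom ℂ) = ∏ j, (X - C (w i j + q / w i j))) →
    ∀ n : ∀ i, Fin (g i) → ℤ, ∏ i, ∏ j, (w i j ^ 2 / q) ^ n i j = 1 → n = 0

/-- The reduction of `pol b` modulo `ℓ` splits with distinct roots `β_j`, and all the polynomials
`X^2 - β_j X + q` have two different roots. -/
def Split (q ℓ : ℕ) {g : ℕ} (c : Fin g → ZMod ℓ) : Prop :=
  ∃ β : Fin g → ZMod ℓ, Function.Injective β ∧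
    (X ^ g + ∑ i : Fin g, C (c i) * X ^ (i : ℕ) : (ZMod ℓ)[X]) = ∏ j, (X - C (β j)) ∧
      ∀ j, IsSquare (β j ^ 2 - 4 * (q : ZMod ℓ)) ∧ β j ^ 2 - 4 * (q : ZMod ℓ) ≠ 0

end Pool.Agent.MP_4960c7.AR
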