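import Pool.Agent.Lib.MP_4960c7_ag.AR.TDefs

/-!
# One Frobenius element for all members of a tuple
-/

namespace Pool.Agent.MP_4960c7.AR

open Polynomial

open NumberField in
private theorem exists_frob (K : Type) [Field K] [NumberField K] [IsGalois ℚ K] {ℓ : ℕ} (hℓ : ℓ.Prime) :
    ∃ (F : Type) (_ : Field F) (_ : CharP F ℓ) (r : 𝓞 K →+* F) (σ : K ≃ₐ[ℚ] K),
      ∀ x y : 𝓞 K, (y : K) = σ (x : K) → r y = (r x) ^ ℓ := by
  have hmax : (Ideal.span {(ℓ : ℤ)}).IsMaximal :=
    PrincipalIdealRing.isMaximal_of_irreducible (Nat.prime_iff_prime_int.mp hℓ).irreducible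
  obtain ⟨Q, hQ, hover⟩ := Ideal.exists_maximal_ideal_liesOver_of_isIntegral
    (Ideal.span {(ℓ : ℤ)}) (S := 𝓞 K)
  have hund : Q.under ℤ = Ideal.span {(ℓ : ℤ)} := hover.over.symm
  have hinv : Algebra.IsInvariant ℤ (𝓞 K) (K ≃ₐ[ℚ] K) := IsGaloisGroup.isInvariant
  obtain ⟨σ, hσ⟩ := IsArithFrobAt.exists_of_isInvariant ℤ (K ≃ₐ[ℚ] K) Q
  have hcard : Nat.card (ℤ ⧸ Q.under ℤ) = ℓ := by
    rw [hund, Nat.card_congr (Int.quotientSpanNatEquivZMod ℓ).toEquiv, Nat.card_zmod]
  let _ : Field (𝓞 K ⧸ Q) := Ideal.Quotient.field Q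
  have hℓQ : (ℓ : 𝓞 K) ∈ Q := by
    have : (ℓ : ℤ) ∈ Q.under ℤ := by
      rw [hund]
      exact Ideal.mem_span_singleton_self _
    have h2 := Ideal.mem_comap.mp this
    simpa using h2
  have hz : ((ℓ : ℕ) : 𝓞 K ⧸ Q) = 0 := by
    have := Ideal.Quotient.eq_zero_iff_mem.mpr hℓQ
    simpa using this
  have hch : CharP (𝓞 K ⧸ Q) ℓ := by
    obtain ⟨p, hp⟩ := CharP.exists (𝓞 K ⧸ Q)
    have hd : p ∣ ℓ := (CharP.cast_eq_zero_iff (𝓞 K ⧸ Q) p ℓ).mp hz
    rcases (Nat.dvd_prime hℓ).mp hd with h | h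
    · subst h
      exact absurd hp (fun _ => CharP.ringChar_ne_one (R := 𝓞 K ⧸ Q) (ringChar.eq (𝓞 K ⧸ Q) 1))
    · subst h
      exact hp
  refine ⟨𝓞 K ⧸ Q, inferInstance, hch, Ideal.Quotient.mk Q, σ, fun x y hxy => ?_⟩
  have h1 := AlgHom.IsArithFrobAt.mk_apply hσ x
  rw [hcard] at h1
  have h2 : (MulSemiringAction.toAlgHom ℤ (𝓞 K) σ) x = y := by
    apply RingOfIntegers.coe_injective
    exact (show _ = σ (x : K) from rfl).trans hxy.symm
  rw [h2] at h1
  exact h1

private theorem int_of_sum_mul {K : Type} [Field K] {a c : K} (hs : IsIntegral ℤ (a + c)) (hp : IsIntegral ℤ (a * c)) :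
    IsIntegral ℤ a := by
  let A := integralClosure ℤ K
  have h : IsIntegral A a := by
    refine ⟨X ^ 2 - C (⟨a + c, hs⟩ : A) * X + C (⟨a * c, hp⟩ : A), ?_, ?_⟩
    · monicity!
    · simp only [eval₂_add, eval₂_sub, eval₂_pow, eval₂_X, eval₂_mul, eval₂_C]
      have e1 : algebraMap A K (⟨a + c, hs⟩ : A) = a + c := rfl
      have e2 : algebraMap A K (⟨a * c, hp⟩ : A) = a * c := rfl
      rw [e1, e2]
      ring
  exact isIntegral_trans a h

private theorem map_pol {R : Type} [CommRing R] {g : ℕ} (b : Fin g → ℤ) (f : ℤ →+* R) :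
    (pol b).map f = X ^ g + ∑ i : Fin g, C ((b i : ℤ) : R) * X ^ (i : ℕ) := by
  simp [pol, Polynomial.map_sum]

private theorem range_of_pow {F : Type} [Field F] {ℓ : ℕ} [Fact ℓ.Prime] [CharP F ℓ] (ι : ZMod ℓ →+* F) {x : F}
    (hx : x ^ ℓ = x) : ∃ c, ι c = x := by
  have h := (Subfield.mem_bot_iff_pow_eq_self (F := F) ℓ).mpr hx
  have h2 : (⊥ : Subfield F) ≤ ι.fieldRange := bot_le
  exact h2 h

open NumberField in
/-- one Frobenius element at `ℓ`; it acts on every polynomial which splits modulo `ℓ` with distinct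
roots -/
theorem exists_frobenius (K : Type) [Field K] [NumberField K] [IsGalois ℚ K] (q : ℕ) {ℓ : ℕ}
    (hℓ : ℓ.Prime) (h2 : ℓ ≠ 2) :
    ∃ σ : K ≃ₐ[ℚ] K, ∀ (g : ℕ) (b : Fin g → ℤ) (w : Fin g → K), (∀ j, w j ≠ 0) →
      (pol b).map (Int.castRingHom K) = ∏ j, (X - C (w j + q / w j)) →
      ∀ β : Fin g → ZMod ℓ, Function.Injective β →
      (X ^ g + ∑ i : Fin g, C ((b i : ℤ) : ZMod ℓ) * X ^ (i : ℕ) : (ZMod ℓ)[X]) = ∏ j, (X - C (β j)) →
      ∃ f : Fin g → Fin g, Function.Injective f ∧ Function.Surjective f ∧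
        (∀ i, ¬ IsSquare (β i ^ 2 - 4 * (q : ZMod ℓ)) →
          σ (w (f i)) = q / w (f i) ∧ σ (w (f i)) ≠ w (f i)) ∧
        (∀ i, IsSquare (β i ^ 2 - 4 * (q : ZMod ℓ)) ∧ β i ^ 2 - 4 * (q : ZMod ℓ) ≠ 0 →
          σ (w (f i)) = w (f i)) := by
  obtain ⟨F, hF, hch, r, σ, hσ⟩ := exists_frob K hℓ
  refine ⟨σ, fun g b w hw hb β hβ hpol => ?_⟩
  have : Fact ℓ.Prime := ⟨hℓ⟩
  let ι : ZMod ℓ →+* F := ZMod.castHom (dvd_refl ℓ) F
  have hι : Function.Injective ι := ι.injective
  -- integrality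
  have hpm : (pol b).Monic := by
    refine monic_of_injective (f := Int.castRingHom K) (Int.castRingHom K).injective_int ?_
    rw [hb]
    exact monic_prod_of_monic _ _ fun j _ => monic_X_sub_C _
  have hbi : ∀ j, IsIntegral ℤ (w j + q / w j) := fun j => by
    refine ⟨pol b, hpm, ?_⟩
    have e : eval₂ (algebraMap ℤ K) (w j + q / w j) (pol b) =
        ((pol b).map (Int.castRingHom K)).eval (w j + q / w j) := by
      rw [eval_map]
      rfl
    rw [e, hb, eval_prod]
    exact Finset.prod_eq_zero (Finset.mem_univ j) (by simp)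
  have hwq : ∀ j, w j * (q / w j) = q := fun j => by
    field_simp [hw j]
  have hqi : IsIntegral ℤ (q : K) := by
    have := isIntegral_algebraMap (R := ℤ) (A := K) (x := (q : ℤ))
    simpa using this
  have hwi : ∀ j, IsIntegral ℤ (w j) := fun j =>
    int_of_sum_mul (hbi j) (by rw [hwq j]; exact hqi)
  have hvi : ∀ j, IsIntegral ℤ (q / w j) := fun j =>
    int_of_sum_mul (c := w j) (by rw [add_comm]; exact hbi j) (by rw [mul_comm, hwq j]; exact hqi)
  let B : Fin g → 𝓞 K := fun j => ⟨w j + q / w j, hbi j⟩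
  let W : Fin g → 𝓞 K := fun j => ⟨w j, hwi j⟩
  let V : Fin g → 𝓞 K := fun j => ⟨q / w j, hvi j⟩
  have hWV : ∀ j, W j + V j = B j := fun j => by
    apply RingOfIntegers.coe_injective
    rfl
  have hWVm : ∀ j, W j * V j = (q : 𝓞 K) := fun j => by
    apply RingOfIntegers.coe_injective
    rw [map_mul, map_natCast]
    exact hwq j
  have hinj : Function.Injective (algebraMap (𝓞 K) K) := RingOfIntegers.coe_injective
  have hbO : (pol b).map (Int.castRingHom (𝓞 K)) = ∏ j, (X - C (B j)) := by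
    apply Polynomial.map_injective _ hinj
    rw [Polynomial.map_map, Polynomial.map_prod]
    have e : (algebraMap (𝓞 K) K).comp (Int.castRingHom (𝓞 K)) = Int.castRingHom K := RingHom.ext_int _ _
    rw [e, hb]
    refine Finset.prod_congr rfl fun j _ => ?_
    rw [Polynomial.map_sub, Polynomial.map_X, Polynomial.map_C]
    rfl
  have hbF : (pol b).map (Int.castRingHom F) = ∏ j, (X - C (r (B j))) := by
    have e : r.comp (Int.castRingHom (𝓞 K)) = Int.castRingHom F := RingHom.ext_int _ _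
    rw [← e, ← Polynomial.map_map, hbO, Polynomial.map_prod]
    refine Finset.prod_congr rfl fun j _ => ?_
    rw [Polynomial.map_sub, Polynomial.map_X, Polynomial.map_C]
  have hbF2 : (pol b).map (Int.castRingHom F) = ∏ j, (X - C (ι (β j))) := by
    have e : ι.comp (Int.castRingHom (ZMod ℓ)) = Int.castRingHom F := RingHom.ext_int _ _
    rw [← e, ← Polynomial.map_map, map_pol, hpol, Polynomial.map_prod]
    refine Finset.prod_congr rfl fun j _ => ?_
    rw [Polynomial.map_sub, Polynomial.map_X, Polynomial.map_C]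
  have hprod : ∏ j, (X - C (r (B j))) = ∏ j, (X - C (ι (β j))) := hbF.symm.trans hbF2
  have hex : ∀ i, ∃ j, r (B j) = ι (β i) := fun i => by
    have := congrArg (Polynomial.eval (ι (β i))) hprod
    have e0 : ∏ j, eval (ι (β i)) (X - C (ι (β j))) = 0 := Finset.prod_eq_zero (Finset.mem_univ i) (by simp)
    rw [eval_prod, eval_prod, e0] at this
    obtain ⟨j, _, hj⟩ := Finset.prod_eq_zero_iff.mp this
    refine ⟨j, ?_⟩
    rw [eval_sub, eval_X, eval_C, sub_eq_zero] at hj
    exact hj.symm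
  choose f hf using hex
  have hfi : Function.Injective f := fun i i' h => by
    apply hβ
    apply hι
    rw [← hf i, ← hf i', h]
  have hfs : Function.Surjective f := Finite.surjective_of_injective hfi
  have hrB : ∀ j j', r (B j) = r (B j') → j = j' := fun j j' h => by
    obtain ⟨i, rfl⟩ := hfs j
    obtain ⟨i', rfl⟩ := hfs j'
    rw [hf i, hf i'] at h
    rw [hβ (hι h)]
  -- the Frobenius fixes the B j
  have hιp : ∀ c : ZMod ℓ, (ι c) ^ ℓ = ι c := fun c => by
    rw [← map_pow, ZMod.pow_card]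
  have hσB : ∀ j, σ (w j + q / w j) = w j + q / w j := fun j => by
    have h0 : ((pol b).map (Int.castRingHom K)).eval (σ (w j + q / w j)) = 0 := by
      have e : ((pol b).map (Int.castRingHom K)).eval (w j + q / w j) = 0 := by
        rw [hb, eval_prod]
        exact Finset.prod_eq_zero (Finset.mem_univ j) (by simp)
      have e2 := congrArg σ e
      rw [map_zero] at e2
      rw [← e2, eval_map, eval_map]
      have := Polynomial.hom_eval₂ (pol b) (Int.castRingHom K) (σ : K →+* K) (w j + q / w j)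
      have e3 : (σ : K →+* K).comp (Int.castRingHom K) = Int.castRingHom K := RingHom.ext_int _ _
      rw [e3] at this
      exact this.symm
    rw [hb, eval_prod] at h0
    obtain ⟨i, _, hi⟩ := Finset.prod_eq_zero_iff.mp h0
    rw [eval_sub, eval_X, eval_C, sub_eq_zero] at hi
    have h3 : r (B i) = (r (B j)) ^ ℓ := hσ (B j) (B i) hi.symm
    have h4 : r (B i) = r (B j) := by
      obtain ⟨k, rfl⟩ := hfs j
      rw [h3, hf k, hιp]
    rw [hi, hrB i j h4]
  have hσW : ∀ j, σ (w j) = w j ∨ σ (w j) = q / w j := fun j => by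
    have e1 := hσB j
    have e2 := congrArg σ (hwq j)
    rw [map_mul, map_natCast] at e2
    rw [map_add] at e1
    have e3 : σ (q / w j) = w j + q / w j - σ (w j) := by rw [← e1]; ring
    rw [e3] at e2
    have e4 : (σ (w j) - w j) * (σ (w j) - q / w j) = 0 := by
      linear_combination -e2 + hwq j
    rcases mul_eq_zero.mp e4 with h | h
    · exact Or.inl (sub_eq_zero.mp h)
    · exact Or.inr (sub_eq_zero.mp h)
  have hrs : ∀ i, r (W (f i)) + r (V (f i)) = ι (β i) := fun i => by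
    rw [← map_add, hWV, hf]
  have hrm : ∀ i, r (W (f i)) * r (V (f i)) = (q : F) := fun i => by
    rw [← map_mul, hWVm, map_natCast]
  have hιq : ι (q : ZMod ℓ) = (q : F) := map_natCast ι q
  have h2F : (2 : ZMod ℓ) ≠ 0 := by
    intro h
    have h' : ((2 : ℕ) : ZMod ℓ) = 0 := by exact_mod_cast h
    rw [ZMod.natCast_eq_zero_iff] at h'
    exact h2 ((Nat.prime_dvd_prime_iff_eq hℓ Nat.prime_two).mp h')
  refine ⟨f, hfi, hfs, ?_, ?_⟩
  · intro i₀ hns
    have hne0 : σ (w (f i₀)) ≠ w (f i₀) := by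
      intro h
      have h3 : r (W (f i₀)) = (r (W (f i₀))) ^ ℓ := hσ (W (f i₀)) (W (f i₀)) h.symm
      obtain ⟨c, hc⟩ := range_of_pow ι h3.symm
      refine hns ⟨β i₀ - 2 * c, ?_⟩
      apply hι
      have a1 := hrs i₀
      have a2 := hrm i₀
      rw [← hc] at a1 a2
      rw [map_sub, map_pow, map_mul, map_mul, map_sub, map_mul, hιq, ← a2]
      have a3 : r (V (f i₀)) = ι (β i₀) - ι c := by rw [← a1]; ring
      rw [a3]
      simp only [map_ofNat]
      ring
    exact ⟨(hσW (f i₀)).resolve_left hne0, hne0⟩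
  · rintro i ⟨⟨s, hs⟩, hne⟩
    rcases hσW (f i) with h | h
    · exact h
    · exfalso
      have hd : (r (W (f i)) - r (V (f i))) ^ 2 = ι s ^ 2 := by
        have : ι s ^ 2 = ι (β i) ^ 2 - 4 * (q : F) := by
          rw [← map_pow, sq, ← hs, map_sub, map_pow, map_mul, hιq]
          simp only [map_ofNat]
        rw [this, ← hrs i, ← hrm i]
        ring
      have hd0 : ι s ^ 2 ≠ 0 := by
        rw [← map_pow, sq, ← hs]
        exact (map_ne_zero ι).mpr hne
      have hrW : (r (W (f i))) ^ ℓ = r (W (f i)) := by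
        have hc : ∃ c, r (W (f i)) = ι c := by
          have h22 : ι 2⁻¹ * 2 = 1 := by
            have : ι 2⁻¹ * ι 2 = 1 := by rw [← map_mul, inv_mul_cancel₀ h2F, map_one]
            simpa only [map_ofNat] using this
          rcases sq_eq_sq_iff_eq_or_eq_neg.mp hd with h5 | h5
          · refine ⟨2⁻¹ * (β i + s), ?_⟩
            rw [map_mul, map_add]
            linear_combination (-1) * r (W (f i)) * h22 + ι 2⁻¹ * hrs i + ι 2⁻¹ * h5
          · refine ⟨2⁻¹ * (β i - s), ?_⟩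
            rw [map_mul, map_sub]
            linear_combination (-1) * r (W (f i)) * h22 + ι 2⁻¹ * hrs i + ι 2⁻¹ * h5
        obtain ⟨c, hc⟩ := hc
        rw [hc, hιp]
      have h3 : r (V (f i)) = (r (W (f i))) ^ ℓ := hσ (W (f i)) (V (f i)) h.symm
      rw [hrW] at h3
      apply hd0
      rw [← hd, h3]
      ring

end Pool.Agent.MP_4960c7.AR
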