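import Pool.Agent.Lib.MP_4960c7_ag.AR.Defs

/-!
# ARK-Up: the coefficients of a real Weil polynomial; the reducible ones are few
-/

namespace Pool.Agent.MP_4960c7.AR

open Polynomial

private theorem Up_degree {g : ℕ} (b : Fin g → ℤ) : (∑ i : Fin g, C (b i) * X ^ (i : ℕ) : ℤ[X]).degree < (g : WithBot ℕ) := by
  exact degree_sum_fin_lt b

private theorem Up_monic {g : ℕ} (b : Fin g → ℤ) : (pol b).Monic :=
  monic_X_pow_add (Up_degree b)

private theorem Up_natDegree {g : ℕ} (b : Fin g → ℤ) : (pol b).natDegree = g := by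
  unfold pol
  rw [natDegree_add_eq_left_of_degree_lt (by rw [degree_X_pow]; exact Up_degree b), natDegree_X_pow]

private theorem Up_coeff {g : ℕ} (b : Fin g → ℤ) (i : Fin g) : (pol b).coeff (i : ℕ) = b i := by
  unfold pol
  rw [coeff_add, coeff_X_pow, if_neg i.2.ne, zero_add, finsetSum_coeff]
  rw [Finset.sum_eq_single i]
  · rw [coeff_C_mul, coeff_X_pow, if_pos rfl, mul_one]
  · intro j _ hj
    rw [coeff_C_mul, coeff_X_pow, if_neg (fun h => hj (Fin.ext h.symm)), mul_zero]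
  · intro h
    exact absurd (Finset.mem_univ i) h

private theorem Up_eq_pol {f : ℤ[X]} (hf : f.Monic) {k : ℕ} (hk : f.natDegree = k) :
    f = pol (fun i : Fin k => f.coeff i) := by
  subst hk
  unfold pol
  conv_lhs => rw [hf.as_sum]
  rw [Finset.sum_range]

private theorem Up_weil_left {q g k : ℕ} {b : Fin g → ℤ} (h : IsWeil q b) {c : Fin k → ℤ} {f : ℤ[X]} (e : pol c * f = pol b) :
    IsWeil q c := by
  intro z hz
  apply h z
  rw [← e, map_mul, hz, zero_mul]

private theorem Up_weil_right {q g k : ℕ} {b : Fin g → ℤ} (h : IsWeil q b) {c : Fin k → ℤ} {f : ℤ[X]} (e : f * pol c = pol b) :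
    IsWeil q c := by
  intro z hz
  apply h z
  rw [← e, map_mul, hz, mul_zero]

private theorem Up_tt (q : ℕ) : Real.sqrt q ≤ (tt q : ℝ) := by
  rw [Real.sqrt_le_left (by positivity)]
  have h := Nat.lt_succ_sqrt q
  have h2 : q ≤ tt q ^ 2 := by
    unfold tt
    rw [sq]
    exact h.le
  exact_mod_cast h2

theorem abs_le {q g : ℕ} {b : Fin g → ℤ} (h : IsWeil q b) (i : Fin g) : |b i| ≤ bd q g i := by
  have hB : ∀ z ∈ ((pol b).map (Int.castRingHom ℂ)).roots, ‖z‖ ≤ 2 * Real.sqrt q := by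
    intro z hz
    have hz2 := (mem_roots'.1 hz).2
    have hz3 : aeval z (pol b) = 0 := by
      rw [IsRoot.def, eval_map] at hz2
      rw [aeval_def]
      exact hz2
    obtain ⟨h1, h2⟩ := h z hz3
    have h3 : ‖z‖ ^ 2 ≤ (2 * Real.sqrt q) ^ 2 := by
      rw [← Complex.normSq_eq_norm_sq, Complex.normSq_apply, h1, mul_pow, Real.sq_sqrt (by positivity)]
      nlinarith
    exact abs_le_of_sq_le_sq' h3 (by positivity) |>.2
  have h1 := coeff_le_of_roots_le (f := Int.castRingHom ℂ) (i : ℕ) (Up_monic b) (IsAlgClosed.splits _) hB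
  rw [Up_natDegree, coeff_map, Up_coeff] at h1
  have h2 : ‖(Int.castRingHom ℂ) (b i)‖ = ((|b i| : ℤ) : ℝ) := by
    rw [eq_intCast, Complex.norm_intCast, Int.cast_abs]
  rw [h2] at h1
  have ht : (0 : ℝ) ≤ tt q := by positivity
  have h3 : (2 * Real.sqrt q) ^ (g - (i : ℕ)) ≤ 2 ^ g * (tt q : ℝ) ^ (g - (i : ℕ)) := by
    rw [mul_pow]
    apply mul_le_mul _ _ (by positivity) (by positivity)
    · exact pow_le_pow_right₀ (by norm_num) (Nat.sub_le _ _)
    · exact pow_le_pow_left₀ (Real.sqrt_nonneg _) (Up_tt q) _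
  have h4 : ((g.choose (i : ℕ) : ℕ) : ℝ) ≤ 2 ^ g := by
    have := Nat.choose_le_two_pow g (i : ℕ)
    exact_mod_cast this
  have h5 : ((|b i| : ℤ) : ℝ) ≤ ((bd q g i : ℕ) : ℝ) := by
    refine h1.trans ?_
    refine (mul_le_mul h3 h4 (by positivity) (by positivity)).trans ?_
    unfold bd
    push_cast
    have e4 : (4 : ℝ) ^ g = 2 ^ g * 2 ^ g := by rw [← mul_pow]; norm_num
    rw [e4]
    apply le_of_eq
    ring
  exact_mod_cast h5

private theorem Up_sum (g : ℕ) : ∑ i : Fin g, (g - (i : ℕ)) = g * (g + 1) / 2 := by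
  rw [Fin.sum_univ_eq_sum_range (fun i => g - i) g]
  have h2 : ∑ i ∈ Finset.range g, (g - i) = ∑ i ∈ Finset.range g, (i + 1) := by
    rw [← Finset.sum_range_reflect]
    refine Finset.sum_congr rfl fun i hi => ?_
    have := Finset.mem_range.1 hi
    omega
  have h3 := Finset.sum_range_succ' (fun i => i) g
  rw [h2, ← add_zero (∑ i ∈ Finset.range g, (i + 1)), ← h3, Finset.sum_range_id, Nat.add_sub_cancel, mul_comm]

theorem card_box (q g : ℕ) :
    ∏ i : Fin g, (2 * (bd q g i : ℝ) + 1) ≤ (3 * 4 ^ g) ^ g * V q g := by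
  have ht : (1 : ℝ) ≤ tt q := by
    unfold tt
    push_cast
    have : (0 : ℝ) ≤ (Nat.sqrt q : ℝ) := by positivity
    linarith
  have h1 : ∀ i : Fin g, 2 * (bd q g i : ℝ) + 1 ≤ (3 * 4 ^ g) * (tt q : ℝ) ^ (g - (i : ℕ)) := by
    intro i
    unfold bd
    push_cast
    have h2 : (1 : ℝ) ≤ (tt q : ℝ) ^ (g - (i : ℕ)) := one_le_pow₀ ht
    have h3 : (1 : ℝ) ≤ 4 ^ g := one_le_pow₀ (by norm_num)
    nlinarith [mul_le_mul h3 h2 (by norm_num) (by positivity)]
  calc ∏ i : Fin g, (2 * (bd q g i : ℝ) + 1) ≤ ∏ i : Fin g, (3 * 4 ^ g) * (tt q : ℝ) ^ (g - (i : ℕ)) :=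
        Finset.prod_le_prod (fun i _ => by positivity) (fun i _ => h1 i)
    _ = (3 * 4 ^ g) ^ g * V q g := by
        rw [Finset.prod_mul_distrib, Finset.prod_const, Finset.card_univ, Fintype.card_fin, Finset.prod_pow_eq_pow_sum, Up_sum]
        rfl

/-- The box of coefficients. -/
private noncomputable def Up_box (q k : ℕ) : Finset (Fin k → ℤ) :=
  Fintype.piFinset fun i : Fin k => Finset.Icc (-(bd q k i : ℤ)) (bd q k i : ℤ)

private theorem Up_card (q k : ℕ) : ((Up_box q k).card : ℝ) ≤ (3 * 4 ^ k) ^ k * V q k := by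
  refine le_trans (le_of_eq ?_) (card_box q k)
  unfold Up_box
  rw [Fintype.card_piFinset, Nat.cast_prod]
  refine Finset.prod_congr rfl fun i _ => ?_
  rw [Int.card_Icc]
  have e : ((bd q k i : ℤ) + 1 - -(bd q k i : ℤ)).toNat = 2 * bd q k i + 1 := by omega
  rw [e]
  push_cast
  ring

private theorem Up_mem {q k : ℕ} {b : Fin k → ℤ} (h : IsWeil q b) : b ∈ Up_box q k := by
  unfold Up_box
  rw [Fintype.mem_piFinset]
  intro i
  rw [Finset.mem_Icc]
  exact _root_.abs_le.1 (abs_le h i)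

private theorem Up_V (q g k : ℕ) (hk : 0 < k) (hkg : k < g) : V q k * V q (g - k) * tt q ≤ V q g := by
  unfold V
  rw [← pow_add, ← pow_succ]
  apply pow_le_pow_right₀
  · unfold tt
    push_cast
    have : (0 : ℝ) ≤ (Nat.sqrt q : ℝ) := by positivity
    linarith
  · obtain ⟨l, rfl⟩ := Nat.exists_eq_add_of_lt hkg
    have e1 : k + l + 1 - k = l + 1 := by omega
    rw [e1]
    obtain ⟨a, ha⟩ := (Nat.even_mul_succ_self k).two_dvd
    obtain ⟨b, hb⟩ := (Nat.even_mul_succ_self (l + 1)).two_dvd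
    obtain ⟨c, hc⟩ := (Nat.even_mul_succ_self (k + l + 1)).two_dvd
    have ha' : k * (k + 1) = 2 * a := ha
    have hb' : (l + 1) * (l + 1 + 1) = 2 * b := hb
    have hc' : (k + l + 1) * (k + l + 1 + 1) = 2 * c := hc
    rw [ha', hb', hc', Nat.mul_div_cancel_left _ (by norm_num), Nat.mul_div_cancel_left _ (by norm_num), Nat.mul_div_cancel_left _ (by norm_num)]
    nlinarith [Nat.mul_le_mul hk (Nat.succ_le_succ (Nat.zero_le l))]

theorem reducible (g : ℕ) (hg : 0 < g) : ∃ C : ℝ, ∀ q : ℕ,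
    ({b : Fin g → ℤ | IsWeil q b ∧ ¬ Irreducible (pol b)}.ncard : ℝ) * tt q ≤ C * V q g := by
  classical
  refine ⟨∑ k ∈ Finset.Ioo 0 g, ((3 * 4 ^ k) ^ k * (3 * 4 ^ (g - k)) ^ (g - k) : ℝ), fun q => ?_⟩
  let F : Finset (Fin g → ℤ) := (Finset.Ioo 0 g).biUnion fun k =>
    (Up_box q k ×ˢ Up_box q (g - k)).image fun v => fun i : Fin g => (pol v.1 * pol v.2).coeff (i : ℕ)
  have hsub : {b : Fin g → ℤ | IsWeil q b ∧ ¬ Irreducible (pol b)} ⊆ (F : Set (Fin g → ℤ)) := by
    rintro b ⟨hw, hir⟩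
    rw [(Up_monic b).irreducible_iff_natDegree] at hir
    have hne : pol b ≠ 1 := by
      intro h
      have := Up_natDegree b
      rw [h, natDegree_one] at this
      omega
    push Not at hir
    obtain ⟨f1, f2, hf1, hf2, he, hd1, hd2⟩ := hir hne
    have hsum : f1.natDegree + f2.natDegree = g := by
      rw [← hf1.natDegree_mul hf2, he, Up_natDegree]
    have hk2 : f2.natDegree = g - f1.natDegree := by omega
    have e1 := Up_eq_pol hf1 (k := f1.natDegree) rfl
    have e2 := Up_eq_pol hf2 hk2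
    have e3 : pol (fun i : Fin f1.natDegree => f1.coeff i) * pol (fun i : Fin (g - f1.natDegree) => f2.coeff i) = pol b := by
      rw [← e1, ← e2, he]
    rw [Finset.mem_coe, Finset.mem_biUnion]
    refine ⟨f1.natDegree, Finset.mem_Ioo.2 ⟨Nat.pos_of_ne_zero hd1, by omega⟩, ?_⟩
    rw [Finset.mem_image]
    refine ⟨(fun i : Fin f1.natDegree => f1.coeff i, fun i : Fin (g - f1.natDegree) => f2.coeff i), ?_, ?_⟩
    · rw [Finset.mem_product]
      exact ⟨Up_mem (Up_weil_left hw e3), Up_mem (Up_weil_right hw e3)⟩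
    · funext i
      show (pol (fun i : Fin f1.natDegree => f1.coeff i) * pol (fun i : Fin (g - f1.natDegree) => f2.coeff i)).coeff (i : ℕ) = b i
      rw [e3, Up_coeff]
  have h1 : ({b : Fin g → ℤ | IsWeil q b ∧ ¬ Irreducible (pol b)}.ncard : ℝ) ≤ (F.card : ℝ) := by
    have := Set.ncard_le_ncard hsub F.finite_toSet
    rw [Set.ncard_coe_finset] at this
    exact_mod_cast this
  have h2 : (F.card : ℝ) ≤ ∑ k ∈ Finset.Ioo 0 g, ((Up_box q k).card : ℝ) * (Up_box q (g - k)).card := by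
    have : F.card ≤ ∑ k ∈ Finset.Ioo 0 g, (Up_box q k).card * (Up_box q (g - k)).card := by
      refine Finset.card_biUnion_le.trans (Finset.sum_le_sum fun k _ => ?_)
      exact Finset.card_image_le.trans (by rw [Finset.card_product])
    exact_mod_cast this
  have ht : (0 : ℝ) ≤ tt q := by positivity
  refine (mul_le_mul_of_nonneg_right (h1.trans h2) ht).trans ?_
  rw [Finset.sum_mul, Finset.sum_mul]
  refine Finset.sum_le_sum fun k hk => ?_
  obtain ⟨hk1, hk2⟩ := Finset.mem_Ioo.1 hk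
  have hVk : (0 : ℝ) ≤ V q k := by unfold V; positivity
  have hVg : (0 : ℝ) ≤ V q (g - k) := by unfold V; positivity
  calc ((Up_box q k).card : ℝ) * (Up_box q (g - k)).card * tt q
      ≤ ((3 * 4 ^ k) ^ k * V q k) * ((3 * 4 ^ (g - k)) ^ (g - k) * V q (g - k)) * tt q := by
        apply mul_le_mul_of_nonneg_right _ ht
        exact mul_le_mul (Up_card q k) (Up_card q (g - k)) (by positivity) (by positivity)
    _ = ((3 * 4 ^ k) ^ k * (3 * 4 ^ (g - k)) ^ (g - k)) * (V q k * V q (g - k) * tt q) := by ring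
    _ ≤ _ := mul_le_mul_of_nonneg_left (Up_V q g k hk1 hk2) (by positivity)

end Pool.Agent.MP_4960c7.AR
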